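import Pool.Agent.MP_a43263_nt.DH.Spec
import Mathlib.Algebra.Order.BigOperators.Ring.Finset
import Mathlib.Algebra.BigOperators.Ring.Finset
import Mathlib.Data.Fintype.Pi

/-! The abstract core of the estimate for the majorant: orthogonality and perturbation. -/

set_option autoImplicit false

noncomputable section

namespace Pool.Agent.MP_a43263_nt.GT.MajA

open Finset DH

variable {ι : Type} [DecidableEq ι]

/-- the local mean in the independent model -/
def aa (g : ι → ℝ) (p : ι) (ρ : Finset ι × Finset ι) : ℝ :=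
  if p ∈ ρ.1 then (if p ∈ ρ.2 then g p else 0) else (if p ∈ ρ.2 then 0 else 1)

def BB (g : ι → ℝ) (P0 : Finset ι) (F : Finset (Finset ι)) (P : Finset ι) : ℝ :=
  ∑ ρ ∈ F ×ˢ F, ∏ p ∈ P0 \ P, aa g p ρ

theorem aa_nonneg {g : ι → ℝ} {p : ι} (h : 0 ≤ g p) (ρ : Finset ι × Finset ι) : 0 ≤ aa g p ρ := by
  unfold aa
  split_ifs <;> first | exact h | exact le_rfl | exact zero_le_one

theorem prod_aa (g : ι → ℝ) {P0 r s : Finset ι} (P : Finset ι) (hr : r ⊆ P0) (hs : s ⊆ P0) :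
    ∏ p ∈ P0 \ P, aa g p (r, s) = if s \ P = r \ P then ∏ p ∈ r \ P, g p else 0 := by
  split_ifs with h
  · rw [← prod_subset (s₁ := r \ P) (sdiff_subset_sdiff hr Subset.rfl)]
    · refine prod_congr rfl fun p hp => ?_
      have h1 : p ∈ r := (mem_sdiff.1 hp).1
      have h2 : p ∈ s := (mem_sdiff.1 (h ▸ hp : p ∈ s \ P)).1
      simp only [aa, if_pos h1, if_pos h2]
    · intro p hp hn
      have h0 : p ∉ P := (mem_sdiff.1 hp).2
      have h1 : p ∉ r := fun k => hn (mem_sdiff.2 ⟨k, h0⟩)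
      have h2 : p ∉ s := fun k => hn (h ▸ mem_sdiff.2 ⟨k, h0⟩)
      simp only [aa, if_neg h1, if_neg h2]
  · by_contra hne
    refine h (Finset.ext fun p => ?_)
    have k := prod_ne_zero_iff.1 hne p
    simp only [mem_sdiff] at k ⊢
    constructor
    · rintro ⟨h2, h0⟩
      refine ⟨?_, h0⟩
      by_contra h1
      exact k ⟨hs h2, h0⟩ (by simp only [aa, if_neg h1, if_pos h2])
    · rintro ⟨h1, h0⟩
      refine ⟨?_, h0⟩
      by_contra h2
      exact k ⟨hr h1, h0⟩ (by simp only [aa, if_pos h1, if_neg h2])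

theorem card_fib (F : Finset (Finset ι)) (P u : Finset ι) :
    (F.filter fun r => r \ P = u).card ≤ 2 ^ P.card := by
  rw [← card_powerset]
  refine card_le_card_of_injOn (fun r => r ∩ P) (fun r _ => ?_) fun r hr s hs e => ?_
  · exact mem_coe.2 (mem_powerset.2 inter_subset_right)
  · have h1 := (mem_filter.1 (mem_coe.1 hr)).2
    have h2 := (mem_filter.1 (mem_coe.1 hs)).2
    have e' : r ∩ P = s ∩ P := e
    rw [← sdiff_union_inter r P, ← sdiff_union_inter s P, h1, h2, e']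

section
variable {g : ι → ℝ} {P0 : Finset ι} {F : Finset (Finset ι)}

theorem BB_eq (hF : ∀ r ∈ F, r ⊆ P0) (P : Finset ι) : BB g P0 F P =
    ∑ r ∈ F, ((F.filter fun s => s \ P = r \ P).card : ℝ) * ∏ p ∈ r \ P, g p := by
  unfold BB
  rw [sum_product]
  refine sum_congr rfl fun r hr => ?_
  rw [sum_congr rfl fun s hs => prod_aa g P (hF r hr) (hF s hs), ← sum_filter, sum_const,
    nsmul_eq_mul]

theorem BB_empty (hF : ∀ r ∈ F, r ⊆ P0) : BB g P0 F ∅ = ∑ r ∈ F, ∏ p ∈ r, g p := by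
  rw [BB_eq hF]
  refine sum_congr rfl fun r hr => ?_
  simp only [sdiff_empty]
  rw [filter_eq', if_pos hr, card_singleton, Nat.cast_one, one_mul]

theorem BB_le (hg : ∀ p ∈ P0, 0 ≤ g p) (hF : ∀ r ∈ F, r ⊆ P0)
    (hd : ∀ r ∈ F, ∀ s, s ⊆ r → s ∈ F) (P : Finset ι) :
    BB g P0 F P ≤ 4 ^ P.card * ∑ r ∈ F, ∏ p ∈ r, g p := by
  have h0 : ∀ r ∈ F, 0 ≤ ∏ p ∈ r, g p := fun r hr => prod_nonneg fun p hp => hg p (hF r hr hp)
  have hc : ∀ u, ((F.filter fun s => s \ P = u).card : ℝ) ≤ 2 ^ P.card := fun u => by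
    exact_mod_cast card_fib F P u
  have h2 : (0 : ℝ) ≤ 2 ^ P.card := by positivity
  rw [BB_eq hF]
  calc _ ≤ ∑ r ∈ F, 2 ^ P.card * ∏ p ∈ r \ P, g p :=
        sum_le_sum fun r hr =>
          mul_le_mul_of_nonneg_right (hc _) (h0 _ (hd r hr _ sdiff_subset))
    _ = 2 ^ P.card * ∑ u ∈ F, ∑ r ∈ F with r \ P = u, ∏ p ∈ u, g p := by
        rw [← mul_sum, sum_fiberwise_of_maps_to' (g := fun r => r \ P)
          (fun r hr => hd r hr _ sdiff_subset) (fun u => ∏ p ∈ u, g p)]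
    _ ≤ 2 ^ P.card * ∑ u ∈ F, 2 ^ P.card * ∏ p ∈ u, g p := by
        refine mul_le_mul_of_nonneg_left (sum_le_sum fun u hu => ?_) h2
        rw [sum_const, nsmul_eq_mul]
        exact mul_le_mul_of_nonneg_right (hc u) (h0 u hu)
    _ = _ := by
        rw [← mul_sum, ← mul_assoc, ← mul_pow]
        norm_num

theorem BB_nonneg (hg : ∀ p ∈ P0, 0 ≤ g p) (P : Finset ι) : 0 ≤ BB g P0 F P :=
  sum_nonneg fun ρ _ => prod_nonneg fun p hp => aa_nonneg (hg p (mem_sdiff.1 hp).1) ρ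

variable {J : Type} [Fintype J] [DecidableEq J]

theorem sum_indep (P : Finset ι) :
    ∑ ρ ∈ Fintype.piFinset fun _ : J => F ×ˢ F, ∏ p ∈ P0 \ P, ∏ j, aa g p (ρ j) =
      BB g P0 F P ^ Fintype.card J := by
  rw [sum_congr rfl fun ρ _ => prod_comm, sum_prod_piFinset (F ×ˢ F)
    (fun (_ : J) ρ => ∏ p ∈ P0 \ P, aa g p ρ), prod_const, card_univ]
  rfl

/-- the perturbation estimate -/
theorem core (hg : ∀ p ∈ P0, 0 ≤ g p) (hF : ∀ r ∈ F, r ⊆ P0)
    (hd : ∀ r ∈ F, ∀ s, s ⊆ r → s ∈ F) (M : ι → (J → Finset ι × Finset ι) → ℝ) (c : ι → ℝ)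
    (hM : ∀ p ∈ P0, ∀ ρ, |M p ρ - ∏ j, aa g p (ρ j)| ≤ c p) :
    |∑ ρ ∈ Fintype.piFinset fun _ : J => F ×ˢ F, ∏ p ∈ P0, M p ρ -
        (∑ r ∈ F, ∏ p ∈ r, g p) ^ Fintype.card J| ≤
      (∑ r ∈ F, ∏ p ∈ r, g p) ^ Fintype.card J *
        (∏ p ∈ P0, (1 + 4 ^ Fintype.card J * c p) - 1) := by
  set G := ∑ r ∈ F, ∏ p ∈ r, g p with hG
  set m := Fintype.card J with hm
  set X := Fintype.piFinset fun _ : J => F ×ˢ F with hX
  let t : Finset ι → ℝ := fun P => ∑ ρ ∈ X,
    (∏ p ∈ P, (M p ρ - ∏ j, aa g p (ρ j))) * ∏ p ∈ P0 \ P, ∏ j, aa g p (ρ j)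
  have hc : ∀ p ∈ P0, 0 ≤ c p := fun p hp => (abs_nonneg _).trans (hM p hp fun _ => (∅, ∅))
  have e1 : ∑ ρ ∈ X, ∏ p ∈ P0, M p ρ = ∑ P ∈ P0.powerset, t P := by
    rw [sum_comm]
    refine sum_congr rfl fun ρ _ => ?_
    rw [← prod_add]
    exact prod_congr rfl fun p _ => (sub_add_cancel _ _).symm
  have e2 : t ∅ = G ^ m := by
    simp only [t, prod_empty, one_mul]
    rw [hX, sum_indep, BB_empty hF]
  have e3 : ∀ P ∈ P0.powerset, |t P| ≤ G ^ m * ∏ p ∈ P, 4 ^ m * c p := by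
    intro P hP
    have hP' := mem_powerset.1 hP
    have hcP : 0 ≤ ∏ p ∈ P, c p := prod_nonneg fun p hp => hc p (hP' hp)
    calc |t P| ≤ ∑ ρ ∈ X, (∏ p ∈ P, c p) * ∏ p ∈ P0 \ P, ∏ j, aa g p (ρ j) := by
          refine (abs_sum_le_sum_abs _ _).trans (sum_le_sum fun ρ _ => ?_)
          have h0 : 0 ≤ ∏ p ∈ P0 \ P, ∏ j, aa g p (ρ j) := prod_nonneg fun p hp =>
            prod_nonneg fun j _ => aa_nonneg (hg p (mem_sdiff.1 hp).1) _
          rw [abs_mul, abs_of_nonneg h0, abs_prod]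
          exact mul_le_mul_of_nonneg_right
            (prod_le_prod (fun _ _ => abs_nonneg _) fun p hp => hM p (hP' hp) ρ) h0
      _ = (∏ p ∈ P, c p) * BB g P0 F P ^ m := by rw [← mul_sum, hX, sum_indep]
      _ ≤ (∏ p ∈ P, c p) * (4 ^ P.card * G) ^ m :=
          mul_le_mul_of_nonneg_left
            (pow_le_pow_left₀ (BB_nonneg hg P) (BB_le hg hF hd P) m) hcP
      _ = _ := by
          rw [prod_mul_distrib, prod_const, mul_pow, ← pow_mul, ← pow_mul, mul_comm m]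
          ring
  have h0 : (∅ : Finset ι) ∈ P0.powerset := empty_mem_powerset _
  rw [e1, prod_one_add, ← add_sum_erase _ _ h0, ← add_sum_erase _ _ h0, e2, prod_empty,
    add_sub_cancel_left, add_sub_cancel_left, mul_sum]
  exact (abs_sum_le_sum_abs _ _).trans (sum_le_sum fun P hP => e3 P (mem_of_mem_erase hP))

end

/-- the local estimate: events of probability `q`, pairs of probability at most `q ^ 2` -/
theorem loc {Ω J : Type} [Finite Ω] [Nonempty Ω] [Fintype J] [DecidableEq J] (A : J → Ω → Prop)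
    {q : ℝ} (hq0 : 0 ≤ q) (hq1 : q ≤ 1) (h1 : ∀ j, E (fun x => ind (A j x)) = q)
    (h2 : ∀ i j, i ≠ j → E (fun x => ind (A i x) * ind (A j x)) ≤ q ^ 2) (α β : J → ℝ)
    (hα : ∀ j, |α j| ≤ 1) (hβ : ∀ j, |β j| ≤ 2) :
    |E (fun x => ∏ j, (β j * ind (A j x) + α j)) - ∏ j, (β j * q + α j)| ≤
      4 ^ Fintype.card J * q ^ 2 := by
  have key : ∀ U : Finset J, |E (fun x => ∏ j ∈ U, ind (A j x)) - q ^ U.card| ≤ q ^ 2 := by
    intro U
    rcases Nat.lt_or_ge U.card 2 with h | h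
    · have : E (fun x => ∏ j ∈ U, ind (A j x)) = q ^ U.card := by
        rcases Nat.lt_or_ge U.card 1 with k | k
        · have : U = ∅ := card_eq_zero.1 (by omega)
          subst this
          simp only [prod_empty, card_empty, pow_zero, E_const]
        · obtain ⟨j, rfl⟩ := card_eq_one.1 (show U.card = 1 by omega)
          simp only [prod_singleton, card_singleton, pow_one, h1]
      rw [this, sub_self, abs_zero]
      positivity
    · obtain ⟨i, hi, j, hj, hij⟩ := one_lt_card.1 (show 1 < U.card by omega)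
      have a1 : 0 ≤ E (fun x => ∏ j ∈ U, ind (A j x)) :=
        E_nonneg fun x => prod_nonneg fun _ _ => ind_nonneg _
      have a2 : E (fun x => ∏ j ∈ U, ind (A j x)) ≤ q ^ 2 := by
        refine (E_mono fun x => ?_).trans (h2 i j hij)
        rw [← prod_pair (f := fun j => ind (A j x)) hij]
        refine prod_le_prod_of_subset_of_le_one (fun k hk => ?_) (fun _ _ => ind_nonneg _)
          fun _ _ _ => ind_le_one _
        rcases mem_insert.1 hk with rfl | hk
        · exact hi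
        · rw [mem_singleton.1 hk]
          exact hj
      have a3 : 0 ≤ q ^ U.card := pow_nonneg hq0 _
      have a4 : q ^ U.card ≤ q ^ 2 := pow_le_pow_of_le_one hq0 hq1 h
      rw [abs_le]
      constructor <;> linarith
  have e1 : E (fun x => ∏ j, (β j * ind (A j x) + α j)) = ∑ U ∈ (univ : Finset J).powerset,
      ((∏ j ∈ U, β j) * ∏ j ∈ univ \ U, α j) * E (fun x => ∏ j ∈ U, ind (A j x)) := by
    simp only [prod_add]
    rw [E_sum]
    refine sum_congr rfl fun U _ => ?_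
    rw [← E_mul_left]
    refine congrArg E (funext fun x => ?_)
    rw [prod_mul_distrib]
    ring
  have e2 : ∏ j, (β j * q + α j) = ∑ U ∈ (univ : Finset J).powerset,
      ((∏ j ∈ U, β j) * ∏ j ∈ univ \ U, α j) * q ^ U.card := by
    rw [prod_add]
    refine sum_congr rfl fun U _ => ?_
    rw [prod_mul_distrib, prod_const]
    ring
  rw [e1, e2, ← sum_sub_distrib]
  refine (abs_sum_le_sum_abs _ _).trans ?_
  have e3 : ∀ U ∈ (univ : Finset J).powerset,
      |((∏ j ∈ U, β j) * ∏ j ∈ univ \ U, α j) * E (fun x => ∏ j ∈ U, ind (A j x)) -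
        ((∏ j ∈ U, β j) * ∏ j ∈ univ \ U, α j) * q ^ U.card| ≤ 2 ^ Fintype.card J * q ^ 2 := by
    intro U _
    rw [← mul_sub, abs_mul, abs_mul, abs_prod, abs_prod]
    have b1 : ∏ j ∈ U, |β j| ≤ 2 ^ Fintype.card J :=
      (prod_le_prod (fun _ _ => abs_nonneg _) fun j _ => hβ j).trans (by
        rw [prod_const]
        exact pow_le_pow_right₀ one_le_two (card_le_univ U))
    have b2 : ∏ j ∈ univ \ U, |α j| ≤ 1 := prod_le_one (fun _ _ => abs_nonneg _) fun j _ => hα j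
    refine mul_le_mul ?_ (key U) (abs_nonneg _) (by positivity)
    exact (mul_le_mul b1 b2 (prod_nonneg fun _ _ => abs_nonneg _) (by positivity)).trans_eq
      (mul_one _)
  refine (sum_le_sum e3).trans_eq ?_
  rw [sum_const, card_powerset, card_univ, nsmul_eq_mul, ← mul_assoc]
  push_cast
  rw [← mul_pow]
  norm_num

end Pool.Agent.MP_a43263_nt.GT.MajA
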