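import Pool.Agent.MP_a43263_nt.DH.Spec
import Mathlib.Algebra.Order.BigOperators.Ring.Finset
import Mathlib.Algebra.BigOperators.Ring.Finset
import Mathlib.Data.ZMod.QuotientRing
import Mathlib.Data.Int.CardIntervalMod
import Mathlib.Analysis.Complex.Exponential

/-! Means over boxes of products of functions that are periodic modulo distinct primes. -/

set_option autoImplicit false

noncomputable section

namespace Pool.Agent.MP_a43263_nt.GT.MajB

open Finset DH

/-- a surjective homomorphism of finite groups preserves means -/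
theorem E_hom {A B : Type} [AddCommGroup A] [AddCommGroup B] [Finite A] [Finite B] (L : A →+ B)
    (hL : Function.Surjective L) (f : B → ℝ) : E (fun x => f (L x)) = E f := by
  have h1 : ∀ y, E (fun x => f (L x)) = E (fun x => f (L x + y)) := by
    intro y
    obtain ⟨u, rfl⟩ := hL y
    rw [← E_equiv (Equiv.addRight u)]
    simp only [Equiv.coe_addRight, map_add]
  have h2 : ∀ z, E (fun y => f (z + y)) = E f := fun z => E_equiv (Equiv.addLeft z) f
  calc E (fun x => f (L x)) = E fun y : B => E (fun x => f (L x + y)) := by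
        rw [← E_const (Ω := B) (E fun x => f (L x))]
        exact congrArg E (funext h1)
    _ = E fun x : A => E (fun y : B => f (L x + y)) := E_comm _
    _ = E f := by simp only [h2, E_const]

theorem abs_E_le {Ω : Type} [Finite Ω] [Nonempty Ω] {f : Ω → ℝ} {c : ℝ} (h : ∀ x, |f x| ≤ c) :
    |E f| ≤ c :=
  abs_le.2 ⟨le_E fun x => (abs_le.1 (h x)).1, E_le fun x => (abs_le.1 (h x)).2⟩

/-- independence of the coordinates -/
theorem E_pi {ι : Type} [Fintype ι] {X : ι → Type} [∀ i, Finite (X i)] (f : ∀ i, X i → ℝ) :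
    E (fun w : ∀ i, X i => ∏ i, f i (w i)) = ∏ i, E (f i) := by
  classical
  let : ∀ i, Fintype (X i) := fun i => Fintype.ofFinite _
  simp only [E_eq_div]
  rw [prod_div_distrib, prod_univ_sum, Fintype.piFinset_univ, Nat.card_pi, Nat.cast_prod]

theorem prod_one_add_le {ι : Type} (s : Finset ι) {f : ι → ℝ} (hf : ∀ i ∈ s, 0 ≤ f i)
    (h : ∑ i ∈ s, f i ≤ 1) : ∏ i ∈ s, (1 + f i) - 1 ≤ 2 * ∑ i ∈ s, f i := by
  have h0 : 0 ≤ ∑ i ∈ s, f i := sum_nonneg hf
  have h1 : ∏ i ∈ s, (1 + f i) ≤ Real.exp (∑ i ∈ s, f i) := by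
    rw [Real.exp_sum]
    exact prod_le_prod (fun i hi => add_nonneg zero_le_one (hf i hi)) fun i _ =>
      (add_comm 1 (f i)).le.trans (Real.add_one_le_exp _)
  have h2 := Real.abs_exp_sub_one_le (x := ∑ i ∈ s, f i) (by rwa [abs_of_nonneg h0])
  rw [abs_of_nonneg h0] at h2
  linarith [le_abs_self (Real.exp (∑ i ∈ s, f i) - 1)]

theorem abs_prod_sub_one {ι : Type} (s : Finset ι) (f : ι → ℝ) {ε : ℝ} (hε : 0 ≤ ε)
    (hf : ∀ i, |f i - 1| ≤ ε) (h : s.card * ε ≤ 1) : |∏ i ∈ s, f i - 1| ≤ 2 * (s.card * ε) := by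
  classical
  have e : ∑ _i ∈ s, ε = s.card * ε := by rw [sum_const, nsmul_eq_mul]
  have k := prod_one_add_le s (f := fun _ => ε) (fun _ _ => hε) (by rwa [e])
  rw [e] at k
  refine le_trans ?_ k
  have h0 : (∅ : Finset ι) ∈ s.powerset := empty_mem_powerset _
  rw [prod_congr rfl fun i _ => (add_sub_cancel 1 (f i)).symm, prod_one_add, prod_one_add,
    ← add_sum_erase _ _ h0, ← add_sum_erase _ _ h0, prod_empty, prod_empty,
    add_sub_cancel_left, add_sub_cancel_left]
  refine (abs_sum_le_sum_abs _ _).trans (sum_le_sum fun P _ => ?_)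
  rw [abs_prod]
  exact prod_le_prod (fun _ _ => abs_nonneg _) fun i _ => hf i

/-- the density of a residue class in an interval, relative to the uniform one -/
def wt (D H : ℕ) (s : ZMod D) : ℝ := D * E fun i : Fin H => ind (((i : ℕ) : ZMod D) = s)

theorem wt_close {D H : ℕ} [NeZero D] (hH : 0 < H) (s : ZMod D) :
    |wt D H s - 1| ≤ (D : ℝ) / H := by
  have hD : 0 < D := Nat.pos_of_ne_zero (NeZero.ne D)
  have hH' : (0 : ℝ) < H := Nat.cast_pos.2 hH
  have e1 : ∑ i : Fin H, ind (((i : ℕ) : ZMod D) = s) =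
      ((H.count (· ≡ s.val [MOD D]) : ℕ) : ℝ) := by
    rw [Fin.sum_univ_eq_sum_range (fun i => ind ((i : ZMod D) = s)) H,
      Nat.count_eq_card_filter_range, ← sum_boole]
    refine sum_congr rfl fun i _ => ?_
    have k : (i : ZMod D) = s ↔ i ≡ s.val [MOD D] := by
      rw [← ZMod.natCast_eq_natCast_iff, ZMod.natCast_zmod_val]
    by_cases h : i ≡ s.val [MOD D]
    · rw [ind_true (k.2 h), if_pos h]
    · rw [ind_false (mt k.1 h), if_neg h]
  have e2 := Nat.count_modEq_card H hD s.val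
  have e3 : (D : ℝ) * (H / D : ℕ) + (H % D : ℕ) = H := by exact_mod_cast Nat.div_add_mod H D
  have e4 : ((H % D : ℕ) : ℝ) < D := by exact_mod_cast Nat.mod_lt H hD
  have e5 : (0 : ℝ) ≤ (H % D : ℕ) := Nat.cast_nonneg _
  unfold wt
  rw [E_eq_div, e1, e2, Nat.card_eq_fintype_card, Fintype.card_fin, ← mul_div_assoc,
    div_sub_one hH'.ne', abs_div, abs_of_pos hH']
  refine div_le_div_of_nonneg_right ?_ hH'.le
  rw [abs_le]
  split_ifs <;> push_cast <;> constructor <;> linarith

theorem E_point {Ω : Type} [Finite Ω] (f : Ω → ℝ) (u : Ω) :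
    E (fun x => Nat.card Ω * ind (u = x) * f x) = f u := by
  classical
  cases nonempty_fintype Ω
  have : Nonempty Ω := ⟨u⟩
  have h0 : (0 : ℝ) < Nat.card Ω := Nat.cast_pos.2 Nat.card_pos
  rw [E_eq_div, sum_eq_single u, ind_true rfl, mul_one, mul_div_cancel_left₀ _ h0.ne']
  · intro x _ hx
    rw [ind_false (Ne.symm hx), mul_zero, zero_mul]
  · intro h
    exact absurd (mem_univ u) h

/-- a box is nearly equidistributed on a small torus -/
theorem box_torus {T : Type} [Fintype T] {D H : ℕ} [NeZero D] (hH : 0 < H)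
    (h : Fintype.card T * D ≤ H) (Φ : (T → ZMod D) → ℝ) (hΦ : ∀ x, |Φ x| ≤ 1) :
    |E (fun y : T → Fin H => Φ fun t => ((y t : ℕ) : ZMod D)) - E Φ| ≤
      2 * (Fintype.card T * ((D : ℝ) / H)) := by
  classical
  have hH' : (0 : ℝ) < H := Nat.cast_pos.2 hH
  have e1 : ∀ y : T → Fin H, (Φ fun t => ((y t : ℕ) : ZMod D)) =
      E fun x : T → ZMod D => (∏ t, D * ind (((y t : ℕ) : ZMod D) = x t)) * Φ x := by
    intro y
    rw [← E_point Φ]
    refine congrArg E (funext fun x => ?_)
    rw [prod_mul_distrib, prod_const, Nat.card_fun, Nat.card_zmod, Nat.card_eq_fintype_card,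
      card_univ, Nat.cast_pow]
    congr 2
    by_cases k : (fun t => ((y t : ℕ) : ZMod D)) = x
    · rw [ind_true k]
      exact (prod_eq_one fun t _ => ind_true (congrFun k t)).symm
    · rw [ind_false k]
      obtain ⟨t, ht⟩ := Function.ne_iff.1 k
      exact (prod_eq_zero (mem_univ t) (ind_false ht)).symm
  have e2 : E (fun y : T → Fin H => Φ fun t => ((y t : ℕ) : ZMod D)) =
      E fun x : T → ZMod D => (∏ t, wt D H (x t)) * Φ x := by
    rw [congrArg E (funext e1), E_comm]
    refine congrArg E (funext fun x => ?_)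
    simp only [mul_comm _ (Φ x)]
    rw [E_mul_left, E_pi fun t (i : Fin H) => D * ind (((i : ℕ) : ZMod D) = x t)]
    simp only [E_mul_left, wt]
  rw [e2, ← E_sub]
  refine abs_E_le fun x => ?_
  rw [← sub_one_mul, abs_mul]
  have k := abs_prod_sub_one univ (fun t => wt D H (x t)) (ε := (D : ℝ) / H) (by positivity)
    (fun t => wt_close hH (x t)) (by
      rw [card_univ, ← mul_div_assoc, div_le_one hH']
      exact_mod_cast h)
  rw [card_univ] at k
  exact (mul_le_mul k (hΦ x) (abs_nonneg _) (by positivity)).trans_eq (mul_one _)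

/-- the mean over a box of a product of functions periodic modulo pairwise coprime numbers -/
theorem box_crt {T ι : Type} [Fintype T] [Fintype ι] (a : ι → ℕ) [∀ i, NeZero (a i)]
    (hc : Pairwise (Function.onFun Nat.Coprime a)) {H : ℕ} (hH : 0 < H)
    (h : Fintype.card T * ∏ i, a i ≤ H) (Φ : ∀ i, (T → ZMod (a i)) → ℝ)
    (hΦ : ∀ i x, |Φ i x| ≤ 1) :
    |E (fun y : T → Fin H => ∏ i, Φ i fun t => ((y t : ℕ) : ZMod (a i))) - ∏ i, E (Φ i)| ≤
      2 * (Fintype.card T * (((∏ i, a i : ℕ) : ℝ) / H)) := by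
  have : NeZero (∏ i, a i) := ⟨prod_ne_zero_iff.2 fun i _ => NeZero.ne _⟩
  let e := ZMod.prodEquivPi a hc
  let e' : (T → ZMod (∏ i, a i)) ≃ ∀ i, T → ZMod (a i) :=
    (Equiv.piCongrRight fun _ => e.toEquiv).trans (Equiv.piComm _)
  have k := box_torus hH h (fun x => ∏ i, Φ i (e' x i)) fun x => by
    rw [abs_prod]
    exact prod_le_one (fun _ _ => abs_nonneg _) fun i _ => hΦ i _
  rw [E_equiv e' fun w => ∏ i, Φ i (w i), E_pi] at k
  have e2 : ∀ (y : T → Fin H) (i : ι), e' (fun t => ((y t : ℕ) : ZMod (∏ i, a i))) i =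
      fun t => ((y t : ℕ) : ZMod (a i)) := by
    intro y i
    funext t
    show e ((y t : ℕ) : ZMod (∏ i, a i)) i = _
    rw [map_natCast]
    rfl
  simpa only [e2] using k

end Pool.Agent.MP_a43263_nt.GT.MajB
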