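import Mathlib.MeasureTheory.Integral.Bochner.Basic
import Mathlib.MeasureTheory.Measure.Haar.OfBasis
import Mathlib.Analysis.CStarAlgebra.Classes
import Mathlib.NumberTheory.Primorial
import Pool.Agent.MP_a43263_nt.DH.Spec

/-! PROJECT GT7: the theorem of Green and Tao. Definitions and the statements of the modules.
Blueprint: `/team-store/GT_BLUEPRINT.md`. -/

set_option autoImplicit false

noncomputable section

namespace Pool.Agent.MP_a43263_nt.GT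

open Finset Filter MeasureTheory Function
open DH (E ind)

/-! ### weighted hypergraphs -/

section Hyp

variable {κ G : Type} [Fintype κ] [DecidableEq κ] [Finite G]

/-- `g` does not depend on the coordinate `j` -/
def Ind (j : κ) (g : (κ → G) → ℝ) : Prop := ∀ x a, g (update x j a) = g x

/-- the vertex `ω` of the box `x` -/
def pick (x : κ × Bool → G) (ω : κ → Bool) : κ → G := fun i => x (i, ω i)

/-- the linear forms condition with error `ε` -/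
def LFC (ν : κ → (κ → G) → ℝ) (ε : ℝ) : Prop :=
  ∀ J : Finset (κ × (κ → Bool)), (∀ q ∈ J, q.2 q.1 = false) →
    |E (fun x : κ × Bool → G => ∏ q ∈ J, ν q.1 (pick x q.2)) - 1| ≤ ε

/-- the cut norm of `h` on the face `j` is at most `t` -/
def Cut (j : κ) (h : (κ → G) → ℝ) (t : ℝ) : Prop :=
  ∀ u : κ → (κ → G) → ℝ, (∀ i, Ind i (u i)) → (∀ i x, 0 ≤ u i x ∧ u i x ≤ 1) →
    |E fun x => h x * ∏ i ∈ univ.erase j, u i x| ≤ t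

/-- the densified weight on the face `j` -/
def avg (j : κ) (h : κ → (κ → G) → ℝ) (x : κ → G) : ℝ :=
  E fun a => ∏ i ∈ univ.erase j, h i (update x j a)

/-- the linear form attached to the face `j` -/
def lin [CommRing G] (e : κ → ℕ) (j : κ) (x : κ → G) : G := ∑ i, ((e j : G) - e i) * x i

end Hyp

/-- Row MOM: first and second moments. -/
def MomStmt : Prop := ∀ (κ G : Type) [Fintype κ] [DecidableEq κ] [Finite G] [Nonempty G]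
  (ν : κ → (κ → G) → ℝ) (ε : ℝ), (∀ j, Ind j (ν j)) → LFC ν ε →
  ∀ j, E (ν j) ≤ 1 + ε ∧ E (fun x => (avg j ν x - 1) ^ 2) ≤ 3 * ε

/-- Row SLF: the strong linear forms estimate. -/
def SlfStmt : Prop := ∀ (κ : Type) [Fintype κ] [DecidableEq κ] (γ : ℝ), 0 < γ → ∃ ε : ℝ, 0 < ε ∧
  ∀ (G : Type) [Finite G] [Nonempty G] (ν : κ → (κ → G) → ℝ), (∀ j, Ind j (ν j)) → LFC ν ε →
  ∀ (j : κ) (h μ : Bool → κ → (κ → G) → ℝ), (∀ β i, Ind i (h β i)) →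
    (∀ β i, μ β i = ν i ∨ μ β i = fun _ => 1) → (∀ β i x, 0 ≤ h β i x ∧ h β i x ≤ μ β i x) →
    |E fun x => (ν j x - 1) * (avg j (h false) x * avg j (h true) x)| ≤ γ

/-- Row CL: the counting lemma. -/
def ClStmt : Prop := ∀ (κ : Type) [Fintype κ] [DecidableEq κ] (γ : ℝ), 0 < γ → ∃ ε : ℝ, 0 < ε ∧
  ∀ (G : Type) [Finite G] [Nonempty G] (ν g g' : κ → (κ → G) → ℝ), (∀ j, Ind j (ν j)) →
    (∀ j, Ind j (g j)) → (∀ j, Ind j (g' j)) → (∀ j x, 0 ≤ g j x ∧ g j x ≤ ν j x) →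
    (∀ j x, 0 ≤ g' j x ∧ g' j x ≤ 1) → LFC ν ε → (∀ j, Cut j (fun x => g j x - g' j x) ε) →
    |E (fun x => ∏ j, g j x) - E (fun x => ∏ j, g' j x)| ≤ γ

/-- Row DM: the dense model theorem for a family of test functions. -/
def DmStmt : Prop := ∀ ε : ℝ, 0 < ε → ∃ ε' : ℝ, 0 < ε' ∧
  ∀ (Ω : Type) [Finite Ω] [Nonempty Ω] (F : Set (Ω → ℝ)), (fun _ => 1) ∈ F →
    (∀ φ ∈ F, ∀ s, |φ s| ≤ 1) →
    (∀ φ ∈ F, ∀ φ' ∈ F, ∀ (h : Ω → ℝ) (t : ℝ), (∀ ψ ∈ F, |E fun s => h s * ψ s| ≤ t) →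
      |E fun s => h s * (φ s * φ' s)| ≤ t) →
    ∀ ν f : Ω → ℝ, (∀ s, 0 ≤ f s ∧ f s ≤ ν s) → (∀ φ ∈ F, |E fun s => (ν s - 1) * φ s| ≤ ε') →
    ∃ f' : Ω → ℝ, (∀ s, 0 ≤ f' s ∧ f' s ≤ 1) ∧ ∀ φ ∈ F, |E fun s => (f s - f' s) * φ s| ≤ ε

/-- Row DMA: the dense model theorem for the cut norms of the linear forms. -/
def DmaStmt : Prop := ∀ ε : ℝ, 0 < ε → ∃ ε' : ℝ, 0 < ε' ∧
  ∀ (κ G : Type) [Fintype κ] [DecidableEq κ] [Nontrivial κ] [Finite G] [CommRing G] (e : κ → ℕ),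
    (∀ i j, i ≠ j → IsUnit ((e j : G) - e i)) → ∀ ν f : G → ℝ, (∀ s, 0 ≤ f s ∧ f s ≤ ν s) →
    (∀ j, Cut j (fun x => ν (lin e j x) - 1) ε') →
    ∃ f' : G → ℝ, (∀ s, 0 ≤ f' s ∧ f' s ≤ 1) ∧
      ∀ j, Cut j (fun x => f (lin e j x) - f' (lin e j x)) ε

/-- Row RSZ, first part: the weighted theorem of Szemeredi in a cyclic group. -/
def WszStmt : Prop := ∀ (κ : Type) [Fintype κ] (e : κ → ℕ) (δ : ℝ), 0 < δ → ∃ c : ℝ, 0 < c ∧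
  ∃ N₀ : ℕ, ∀ (N : ℕ) [NeZero N], N₀ ≤ N → ∀ f : ZMod N → ℝ, (∀ s, 0 ≤ f s ∧ f s ≤ 1) → δ ≤ E f →
    c ≤ E fun z : ZMod N × ZMod N => ∏ j, f (z.1 + e j * z.2)

/-- Row RSZ: the relative theorem of Szemeredi. -/
def RszStmt : Prop := ∀ (κ : Type) [Fintype κ] [DecidableEq κ] [Nontrivial κ] (e : κ → ℕ) (δ : ℝ),
  0 < δ → ∃ c : ℝ, 0 < c ∧ ∃ ε : ℝ, 0 < ε ∧ ∃ N₀ : ℕ, ∀ (N : ℕ) [NeZero N], N₀ ≤ N →
    (∀ i j, i ≠ j → IsUnit ((e j : ZMod N) - e i)) → ∀ ν f : ZMod N → ℝ,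
    (∀ s, 0 ≤ f s ∧ f s ≤ ν s) → δ ≤ E f → LFC (fun j x => ν (lin e j x)) ε →
    c ≤ E fun z : ZMod N × ZMod N => ∏ j, f (z.1 + e j * z.2)

/-! ### the majorant -/

/-- a cutoff that is a superposition of exponentials -/
structure Ker where
  χ : ℝ → ℝ
  φ : ℝ → ℂ
  s : ℝ → ℂ
  c : ℝ
  zero : χ 0 = 1
  supp : ∀ x, 1 ≤ x → χ x = 0
  bd : ∀ x, 0 ≤ x → |χ x| ≤ 1
  cφ : Continuous φ
  cs : Continuous s
  re : ∀ ξ, (s ξ).re = 1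
  int : Integrable fun ξ => ‖s ξ‖ ^ 2 * ‖φ ξ‖
  rep : ∀ x : ℝ, 0 ≤ x → (χ x : ℂ) = ∫ ξ, φ ξ * Complex.exp (-(s ξ * x))
  pos : 0 < c
  cst : ∫ ξ : ℝ × ℝ, φ ξ.1 * φ ξ.2 * (s ξ.1 * s ξ.2 / (s ξ.1 + s ξ.2)) = c

/-- the primes in `(w, Y]` -/
def pr (w Y : ℕ) : Finset ℕ := (Ioc w Y).filter Nat.Prime

/-- the density of the integers without prime factor up to `w` -/
def rho (w : ℕ) : ℝ := ∏ p ∈ (range (w + 1)).filter Nat.Prime, (1 - (p : ℝ)⁻¹)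

/-- the normalising factor -/
def nrm (K : Ker) (w : ℕ) (L : ℝ) : ℝ := rho w * L / K.c

/-- the truncated divisor sum over the squarefree numbers made of primes in `S` -/
def lam (K : Ker) (S : Finset ℕ) (L : ℝ) (n : ℤ) : ℝ :=
  ∑ T ∈ S.powerset, (-1) ^ T.card * K.χ (Real.log (∏ p ∈ T, (p : ℝ)) / L) *
    ind (∀ p ∈ T, (p : ℤ) ∣ n)

/-- the majorant -/
def nu (K : Ker) (w Y : ℕ) (L : ℝ) (b : ℤ) {N : ℕ} (n : ZMod N) : ℝ :=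
  nrm K w L * lam K (pr w Y) L (primorial w * n.val + b) ^ 2

/-- `p ^ (-s ξ / L)` -/
def al (K : Ker) (L : ℝ) (p : ℕ) (ξ : ℝ) : ℂ :=
  Complex.exp (-(K.s ξ * ((Real.log p / L : ℝ) : ℂ)))

/-- the model Euler factor -/
def ef (p : ℕ) (a a' : ℂ) : ℂ := (1 - a / p) * (1 - a' / p) / (1 - a * a' / p)

/-- the model integrand for one form -/
def kern (K : Ker) (S : Finset ℕ) (L : ℝ) (ξ : ℝ × ℝ) : ℂ :=
  K.φ ξ.1 * K.φ ξ.2 * ∏ p ∈ S, ef p (al K L p ξ.1) (al K L p ξ.2)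

section Box

variable {τ M : Type} [Fintype τ] [DecidableEq τ] [Field M]

/-- the mean over the box `[0, D) ^ τ` -/
def box (D : ℕ) (F : (τ → ℤ) → M) : M :=
  (∑ y : τ → Fin D, F fun t => ((y t : ℕ) : ℤ)) / (D : M) ^ Fintype.card τ

/-- `F` depends only on the residues modulo `D` -/
def Per (D : ℕ) (F : (τ → ℤ) → M) : Prop := ∀ y y', (∀ t, (D : ℤ) ∣ y t - y' t) → F y = F y'

/-- an affine form -/
def aff (ψ : τ → ℤ) (b : ℤ) (y : τ → ℤ) : ℤ := ∑ t, ψ t * y t + b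

/-- the integrand for a system of forms -/
def rp {ι : Type} [Fintype ι] (K : Ker) (S : Finset ℕ) (L : ℝ) (ψ : ι → τ → ℤ) (b : ι → ℤ)
    (ξ : ι → ℝ × ℝ) : ℂ :=
  (∏ j, K.φ (ξ j).1 * K.φ (ξ j).2) * ∏ p ∈ S, box p fun y =>
    ∏ j, (1 - (ind ((p : ℤ) ∣ aff (ψ j) (b j) y) : ℝ) * al K L p (ξ j).1) *
      (1 - (ind ((p : ℤ) ∣ aff (ψ j) (b j) y) : ℝ) * al K L p (ξ j).2)

/-- the mean over a full period -/
def mdl {ι : Type} [Fintype ι] (K : Ker) (S : Finset ℕ) (L : ℝ) (ψ : ι → τ → ℤ) (b : ι → ℤ) : ℝ :=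
  box (∏ p ∈ S, p) fun y => ∏ j, lam K S L (aff (ψ j) (b j) y) ^ 2

end Box

/-- Row KER. -/
def KerStmt : Prop := Nonempty Ker

/-- Row ZETA: the pole of the zeta function. -/
def ZetaStmt : Prop := ∀ K : Ker, ∃ C : ℝ, ∀ (w : ℕ) (ε : ℝ), 0 < ε →
  ∀ᶠ L : ℝ in atTop, ∀ᶠ Y : ℕ in atTop, Integrable (kern K (pr w Y) L) ∧
    ‖(nrm K w L : ℂ) * (∫ ξ, kern K (pr w Y) L ξ) - 1‖ ≤ ε ∧
    nrm K w L * ∫ ξ, ‖kern K (pr w Y) L ξ‖ ≤ C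

/-- Row BOX, first part. -/
def PerStmt : Prop := ∀ (τ M : Type) [Fintype τ] [DecidableEq τ] [Field M] [CharZero M] (D P : ℕ)
  (F : (τ → ℤ) → M), 0 < P → D ∣ P → Per D F → box P F = box D F

/-- Row BOX, second part. -/
def CrtStmt : Prop := ∀ (τ M : Type) [Fintype τ] [DecidableEq τ] [Field M] [CharZero M]
  (S : Finset ℕ) (F : ℕ → (τ → ℤ) → M), (∀ p ∈ S, p.Prime) → (∀ p ∈ S, Per p (F p)) →
  box (∏ p ∈ S, p) (fun y => ∏ p ∈ S, F p y) = ∏ p ∈ S, box p (F p)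

/-- Row BOX, third part. -/
def CntStmt : Prop := ∀ (τ : Type) [Fintype τ] [DecidableEq τ] (p : ℕ) (ψ ψ' : τ → ℤ) (b b' : ℤ),
  p.Prime → ((∃ t, ¬(p : ℤ) ∣ ψ t) → box p (fun y => ind ((p : ℤ) ∣ aff ψ b y)) = (p : ℝ)⁻¹) ∧
    ((∃ t t', ¬(p : ℤ) ∣ ψ t * ψ' t' - ψ t' * ψ' t) →
      box p (fun y => ind ((p : ℤ) ∣ aff ψ b y ∧ (p : ℤ) ∣ aff ψ' b' y)) ≤ (p : ℝ)⁻¹ ^ 2)

/-- Row LOC, first part: the local factor. -/
def LocStmt : Prop := ∀ (ι : Type) [Fintype ι], ∃ C : ℝ, ∀ (τ : Type) [Fintype τ] [DecidableEq τ]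
  (p : ℕ) (A : ι → (τ → ℤ) → Prop) (a a' : ι → ℂ), 2 ≤ p → (∀ j, ‖a j‖ ≤ 1) → (∀ j, ‖a' j‖ ≤ 1) →
  (∀ j, box p (fun y => ind (A j y)) = (p : ℝ)⁻¹) →
  (∀ i j, i ≠ j → box p (fun y => ind (A i y ∧ A j y)) ≤ (p : ℝ)⁻¹ ^ 2) →
  ‖(box p fun y => ∏ j, (1 - (ind (A j y) : ℝ) * a j) * (1 - (ind (A j y) : ℝ) * a' j)) -
    ∏ j, ef p (a j) (a' j)‖ ≤ C / (p : ℝ) ^ 2 * ‖∏ j, ef p (a j) (a' j)‖

/-- Row LOC, second part: the product over the large primes. -/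
def ProdStmt : Prop := ∀ C ε : ℝ, 0 < ε → ∀ᶠ w : ℕ in atTop, ∀ (S : Finset ℕ) (u v : ℕ → ℂ),
  (∀ p ∈ S, w < p) → (∀ p ∈ S, ‖u p - v p‖ ≤ C / (p : ℝ) ^ 2 * ‖v p‖) →
  ‖∏ p ∈ S, u p - ∏ p ∈ S, v p‖ ≤ ε * ‖∏ p ∈ S, v p‖

/-- Row REP: the mean over a full period as an integral of an Euler product. -/
def RepStmt : Prop := ∀ (K : Ker) (ι τ : Type) [Fintype ι] [Fintype τ] [DecidableEq τ]
  (S : Finset ℕ) (L : ℝ) (ψ : ι → τ → ℤ) (b : ι → ℤ), (∀ p ∈ S, p.Prime) → 0 < L →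
  Integrable (rp K S L ψ b) ∧ (mdl K S L ψ b : ℂ) = ∫ ξ, rp K S L ψ b ξ

/-- Row MOD: the estimate of Goldston and Yildirim over a full period. -/
def ModStmt : Prop := ∀ (K : Ker) (ι τ : Type) [Fintype ι] [Fintype τ] [DecidableEq τ]
  (ψ : ι → τ → ℤ), (∀ j, ∃ t, ψ j t ≠ 0) →
  (∀ i j, i ≠ j → ∃ t t', ψ i t * ψ j t' - ψ i t' * ψ j t ≠ 0) → ∀ ε : ℝ, 0 < ε →
  ∀ᶠ w : ℕ in atTop, ∀ᶠ L : ℝ in atTop, ∀ᶠ Y : ℕ in atTop, ∀ b : ι → ℤ,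
    |nrm K w L ^ Fintype.card ι * mdl K (pr w Y) L (fun j t => primorial w * ψ j t) b - 1| ≤ ε

/-- Row WRAP: from the cyclic group to the full period. -/
def WrapStmt : Prop := ∀ (K : Ker) (ι τ : Type) [Fintype ι] [Fintype τ] [DecidableEq τ]
  (ψ : ι → τ → ℤ), ∃ C : ℝ, ∀ (S : Finset ℕ) (L : ℝ) (N : ℕ) [NeZero N] (W b : ℤ),
  (∀ p ∈ S, p.Prime) → 0 < L → (∀ j, ∃ t, IsUnit ((ψ j t : ℤ) : ZMod N)) →
  |E (fun x : τ → ZMod N => ∏ j, lam K S L (W * (∑ t, (ψ j t : ZMod N) * x t).val + b) ^ 2) -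
    E (fun x : τ → ZMod N => mdl K S L (fun j t => W * ψ j t)
      fun j => W * (∑ t, (ψ j t : ZMod N) * x t).val + b)| ≤
    C * Real.exp (4 * Fintype.card ι * L) / N

/-- Row PSE: the majorant satisfies the linear forms condition. -/
def PseStmt : Prop := ∀ (K : Ker) (κ : Type) [Fintype κ] [DecidableEq κ] [Nontrivial κ]
  (e : κ → ℕ), Injective e → ∃ η : ℝ, 0 < η ∧ η ≤ 1 / 2 ∧ ∀ ε : ℝ, 0 < ε → ∃ w N₀ : ℕ,
  ∀ (N : ℕ) [NeZero N], N₀ ≤ N → (∀ i j, i ≠ j → IsUnit ((e j : ZMod N) - e i)) →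
  ∃ Y : ℕ, ∀ b : ℤ, LFC (fun j (x : κ → ZMod N) => nu K w Y (η * Real.log N) b (lin e j x)) ε

/-- Row FIN: sets of primes of positive relative density contain long progressions. -/
def GTStmt : Prop := ∀ (k : ℕ) (δ : ℝ), 0 < δ → ∃ X₀ : ℕ, ∀ X : ℕ, X₀ ≤ X → ∀ A : Finset ℕ,
  (∀ n ∈ A, n.Prime ∧ n ≤ X) → δ * X / Real.log X ≤ A.card →
  ∃ a d : ℕ, 0 < d ∧ ∀ i < k, a + i * d ∈ A

/-- Row DIR, first part: a reduced residue class has positive upper density in the primes. -/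
def DirStmt : Prop := ∀ M b : ℕ, M ≠ 0 → b.Coprime M → ∃ δ : ℝ, 0 < δ ∧ ∀ X₀ : ℕ, ∃ X : ℕ, X₀ ≤ X ∧
  δ * X / Real.log X ≤ (((range (X + 1)).filter fun n => n.Prime ∧ n ≡ b [MOD M]).card : ℝ)

/-- Row DIR, second part. THE OUTPUT: long progressions of large primes in a residue class. -/
def APStmt : Prop := ∀ k M b B : ℕ, M ≠ 0 → b.Coprime M → ∃ a d : ℕ, B ≤ a ∧ 0 < d ∧
  ∀ i < k, (a + i * d).Prime ∧ a + i * d ≡ b [MOD M]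

theorem gt_of (sz : DH.SZStmt) (mom : MomStmt) (slf : SlfStmt) (cl : MomStmt → SlfStmt → ClStmt)
    (dm : DmStmt) (dma : DmStmt → DmaStmt) (wsz : DH.SZStmt → WszStmt)
    (rsz : SlfStmt → ClStmt → DmaStmt → WszStmt → RszStmt) (ker : KerStmt) (zeta : ZetaStmt)
    (per : PerStmt) (crt : CrtStmt) (cnt : CntStmt) (loc : LocStmt) (prod : ProdStmt)
    (rep : CrtStmt → RepStmt) (mod : RepStmt → CntStmt → LocStmt → ProdStmt → ZetaStmt → ModStmt)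
    (wrap : PerStmt → WrapStmt) (pse : ModStmt → WrapStmt → PseStmt)
    (fin : KerStmt → RszStmt → PseStmt → GTStmt) : GTStmt :=
  fin ker (rsz slf (cl mom slf) (dma dm) (wsz sz)) (pse (mod (rep crt) cnt loc prod zeta) (wrap per))

end Pool.Agent.MP_a43263_nt.GT
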