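import Mathlib.Tactic.Monotonicity.Lemmas
import Mathlib.Algebra.Order.Star.Real
import Pool.Agent.MP_a43263_nt.GT.Spec

-- ======== part 0: formerly Pool.Agent.MP_a43263_nt.GT.Basic
section MrgPart0

/-! PROJECT GT7: elementary lemmas on the definitions, and the row MOM. -/

set_option autoImplicit false
set_option linter.unusedSectionVars false

noncomputable section

namespace Pool.Agent.MP_a43263_nt.GT

open Finset Filter MeasureTheory Function
open DH (E ind)
open DH

section Mean

variable {Ω Ω' : Type} [Finite Ω] [Finite Ω']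

theorem E_neg (f : Ω → ℝ) : E (fun x => -f x) = -E f := by
  simpa using E_mul_left (-1) f

theorem E_mul_right (c : ℝ) (f : Ω → ℝ) : E (fun x => f x * c) = E f * c := by
  simpa [mul_comm] using E_mul_left c f

theorem abs_E_le (f : Ω → ℝ) : |E f| ≤ E fun x => |f x| :=
  abs_le.2 ⟨by
    rw [← E_neg]; exact E_mono fun x => neg_abs_le _, E_mono fun x => le_abs_self _⟩

theorem abs_E_le_of [Nonempty Ω] {f : Ω → ℝ} {c : ℝ} (h : ∀ x, |f x| ≤ c) : |E f| ≤ c :=
  (abs_E_le f).trans (E_le h)

theorem E_mul_E (f : Ω → ℝ) (g : Ω' → ℝ) : E f * E g = E fun x => E fun y => f x * g y := by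
  simp only [E_mul_left, E_mul_right]

/-- weighted Cauchy-Schwarz -/
theorem E_cs {H M A : Ω → ℝ} (h : ∀ x, 0 ≤ H x ∧ H x ≤ M x) :
    (E fun x => H x * A x) ^ 2 ≤ E M * E fun x => M x * A x ^ 2 := by
  cases nonempty_fintype Ω
  have hM : ∀ x, 0 ≤ M x := fun x => (h x).1.trans (h x).2
  have h1 : |E fun x => H x * A x| ≤ E fun x => M x * |A x| :=
    (abs_E_le _).trans (E_mono fun x => by
      rw [abs_mul, abs_of_nonneg (h x).1]
      exact mul_le_mul_of_nonneg_right (h x).2 (abs_nonneg _))
  have h2 : (E fun x => M x * |A x|) ^ 2 ≤ E M * E fun x => M x * A x ^ 2 := by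
    simp only [E_eq_div]
    rw [div_pow, div_mul_div_comm, ← sq]
    refine div_le_div_of_nonneg_right ?_ (sq_nonneg _)
    exact sum_sq_le_sum_mul_sum_of_sq_le_mul _ (fun x _ => hM x)
      (fun x _ => mul_nonneg (hM x) (sq_nonneg _)) fun x _ =>
        le_of_eq (by rw [mul_pow, sq_abs]; ring)
  calc _ = |E fun x => H x * A x| ^ 2 := (sq_abs _).symm
    _ ≤ _ := pow_le_pow_left₀ (abs_nonneg _) h1 2
    _ ≤ _ := h2

theorem E_add_right [AddGroup Ω] (f : Ω → ℝ) (a : Ω) : E (fun x => f (x + a)) = E f :=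
  E_equiv (Equiv.addRight a) f

theorem E_add_left [AddGroup Ω] (f : Ω → ℝ) (a : Ω) : E (fun x => f (a + x)) = E f :=
  E_equiv (Equiv.addLeft a) f

/-- a surjective homomorphism preserves the mean -/
theorem E_hom [AddGroup Ω] [AddGroup Ω'] (φ : Ω →+ Ω') (hφ : Surjective φ) (f : Ω' → ℝ) :
    E (fun x => f (φ x)) = E f := by
  have h : ∀ y, E (fun x => f (φ x)) = E fun x => f (φ x + y) := fun y => by
    obtain ⟨z, rfl⟩ := hφ y
    rw [← E_add_right (fun x => f (φ x)) z]
    simp only [map_add]
  calc E (fun x => f (φ x)) = E fun y : Ω' => E fun x => f (φ x + y) := by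
        rw [← funext h, E_const]
    _ = E fun _ : Ω => E f := by
        rw [E_comm]
        exact congrArg E (funext fun x => E_add_left f _)
    _ = E f := E_const _

end Mean

section Hyp

variable {κ G : Type} [Fintype κ] [DecidableEq κ] [Finite G]

/-- resampling one coordinate -/
theorem E_update {ι : Type} [Finite ι] [DecidableEq ι] [Nonempty G] (j : ι) (F : (ι → G) → ℝ) :
    E F = E fun x => E fun a => F (update x j a) := by
  let e : (ι → G) × G ≃ (ι → G) × G := Involutive.toPerm
    (fun z => (update z.1 j z.2, z.1 j)) fun z => by simp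
  calc E F = E fun z : (ι → G) × G => F z.1 := by
        rw [E_prod]; simp only [E_const]
    _ = E fun z : (ι → G) × G => F (e z).1 := (E_equiv e fun z => F z.1).symm
    _ = _ := by rw [E_prod]; rfl

theorem E_mul_avg [Nonempty G] {j : κ} {h : (κ → G) → ℝ} (hh : Ind j h) (u : κ → (κ → G) → ℝ) :
    (E fun x => h x * ∏ i ∈ univ.erase j, u i x) = E fun x => h x * avg j u x := by
  rw [E_update j]
  simp only [hh _ _, E_mul_left, avg]

theorem Ind.const (j : κ) (c : ℝ) : Ind j fun _ : κ → G => c := fun _ _ => rfl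

theorem ind_avg (j : κ) (h : κ → (κ → G) → ℝ) : Ind j (avg j h) := fun x a => by
  simp only [avg, update_idem]

theorem avg_nonneg {j : κ} {h : κ → (κ → G) → ℝ} (h0 : ∀ i x, 0 ≤ h i x) (x : κ → G) :
    0 ≤ avg j h x := E_nonneg fun _ => prod_nonneg fun i _ => h0 i _

theorem avg_mono {j : κ} {h h' : κ → (κ → G) → ℝ} (h0 : ∀ i x, 0 ≤ h i x ∧ h i x ≤ h' i x)
    (x : κ → G) : avg j h x ≤ avg j h' x :=
  E_mono fun _ => prod_le_prod (fun i _ => (h0 i _).1) fun i _ => (h0 i _).2

theorem avg_one [Nonempty G] (j : κ) (x : κ → G) : avg j (fun _ _ => 1) x = 1 := by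
  simp [avg, E_const]

theorem avg_le_one [Nonempty G] {j : κ} {h : κ → (κ → G) → ℝ}
    (h0 : ∀ i x, 0 ≤ h i x ∧ h i x ≤ 1) (x : κ → G) : avg j h x ≤ 1 :=
  (avg_mono (h' := fun _ _ => 1) h0 x).trans_eq (avg_one j x)

/-- the base vertex of a box and the second point on the axis `j` are independent -/
theorem E_pick [Nonempty G] (j : κ) (F : (κ → G) → G → ℝ) :
    (E fun x : κ × Bool → G => F (pick x fun _ => false) (x (j, true))) =
      E fun y => E fun a => F y a := by
  let e : (κ → G) × (κ → G) ≃ (κ × Bool → G) :=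
    { toFun := fun z t => if t.2 then z.2 t.1 else z.1 t.1
      invFun := fun x => (fun i => x (i, false), fun i => x (i, true))
      left_inv := fun z => by simp
      right_inv := fun x => by
        funext ⟨i, β⟩
        cases β <;> simp }
  rw [← E_equiv e, E_prod]
  refine congrArg E (funext fun y => ?_)
  show E (fun z : κ → G => F y (z j)) = _
  rw [E_update j]
  simp only [update_self, E_const]

theorem pick_update (x : κ × Bool → G) (j : κ) :
    pick x (update (fun _ => false) j true) = update (pick x fun _ => false) j (x (j, true)) := by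
  funext i
  by_cases h : i = j
  · subst h; simp [pick]
  · simp [pick, update_of_ne h]

theorem LFC.mono {ν : κ → (κ → G) → ℝ} {ε ε' : ℝ} (h : LFC ν ε) (he : ε ≤ ε') : LFC ν ε' :=
  fun J hJ => (h J hJ).trans he

theorem Cut.mono {j : κ} {h : (κ → G) → ℝ} {t t' : ℝ} (H : Cut j h t) (ht : t ≤ t') :
    Cut j h t' := fun u h1 h2 => (H u h1 h2).trans ht

/-- one weight may be replaced by `1` -/
theorem LFC.one {ν : κ → (κ → G) → ℝ} {ε : ℝ} (h : LFC ν ε) (j : κ) :
    LFC (update ν j fun _ => 1) ε := fun J hJ => by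
  have := h (J.filter fun q => q.1 ≠ j) fun q hq => hJ q (mem_filter.1 hq).1
  convert this using 5 with x
  rw [prod_filter]
  refine prod_congr rfl fun q _ => ?_
  by_cases e : q.1 = j
  · simp [e]
  · simp [e]

theorem lin_update [CommRing G] (e : κ → ℕ) (j : κ) (x : κ → G) (a : G) :
    lin e j (update x j a) = lin e j x :=
  sum_congr rfl fun i _ => by
    by_cases h : i = j
    · subst h; simp
    · rw [update_of_ne h]

theorem ind_lin [CommRing G] (e : κ → ℕ) (j : κ) (f : G → ℝ) : Ind j fun x => f (lin e j x) :=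
  fun x a => by simp only [lin_update]

/-- the linear form as a homomorphism -/
def linHom [CommRing G] (e : κ → ℕ) (j : κ) : (κ → G) →+ G where
  toFun := lin e j
  map_zero' := by simp [lin]
  map_add' x y := by simp [lin, mul_add, sum_add_distrib]

theorem E_lin [CommRing G] [Nontrivial κ] {e : κ → ℕ}
    (he : ∀ i j, i ≠ j → IsUnit ((e j : G) - e i)) (j : κ) (f : G → ℝ) :
    E (fun x => f (lin e j x)) = E f := by
  refine E_hom (linHom e j) (fun s => ?_) f
  obtain ⟨i, hi⟩ := exists_ne j
  obtain ⟨u, hu⟩ := he i j hi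
  refine ⟨Pi.single i (↑u⁻¹ * s), ?_⟩
  show lin e j _ = s
  rw [lin, sum_eq_single i (fun i' _ h => by simp [Pi.single_eq_of_ne h]) (by simp), ← hu]
  simp

end Hyp

theorem mom : MomStmt := by
  intro κ G _ _ _ _ ν ε _ h j
  have h1 := h {(j, fun _ => false)} (by simp)
  have h2 := h ((univ.erase j).image fun i => (i, fun _ => false)) (by simp)
  have h3 := h ((univ.erase j).image (fun i => (i, fun _ => false)) ∪
    (univ.erase j).image fun i => (i, update (fun _ => false) j true)) (by
      intro q hq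
      rcases mem_union.1 hq with hq | hq <;> obtain ⟨i, hi, rfl⟩ := mem_image.1 hq
      · rfl
      · exact update_of_ne (ne_of_mem_erase hi) true fun _ => false)
  have hd : Disjoint ((univ.erase j).image (fun i => (i, fun _ : κ => false)))
      ((univ.erase j).image fun i => (i, update (fun _ => false) j true)) := by
    refine disjoint_left.2 fun q hq hq' => ?_
    obtain ⟨i, -, rfl⟩ := mem_image.1 hq
    obtain ⟨i', -, e⟩ := mem_image.1 hq'
    simpa using congrFun (congrArg Prod.snd e) j
  have hi : ∀ ω : κ → Bool, Set.InjOn (fun i : κ => (i, ω)) (univ.erase j : Finset κ) :=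
    fun ω a _ b _ e => congrArg Prod.fst e
  simp only [prod_singleton] at h1
  simp only [prod_image (hi _)] at h2
  simp only [prod_union hd, prod_image (hi _), pick_update] at h3
  rw [E_pick j fun y _ => ν j y] at h1
  rw [E_pick j fun y _ => ∏ i ∈ univ.erase j, ν i y] at h2
  rw [E_pick j fun y a => (∏ i ∈ univ.erase j, ν i y) * ∏ i ∈ univ.erase j, ν i (update y j a)]
    at h3
  simp only [E_const] at h1 h2
  simp only [E_mul_left] at h3
  have e2 : (E fun y => ∏ i ∈ univ.erase j, ν i y) = E (avg j ν) := by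
    simpa using E_mul_avg (Ind.const j 1) ν
  have e3 : (E fun y => (∏ i ∈ univ.erase j, ν i y) *
      E fun a => ∏ i ∈ univ.erase j, ν i (update y j a)) = E fun y => avg j ν y * avg j ν y := by
    rw [← E_mul_avg (ind_avg j ν) ν]
    exact congrArg E (funext fun y => mul_comm _ _)
  rw [e2] at h2
  rw [e3] at h3
  refine ⟨by linarith [(abs_le.1 h1).2], ?_⟩
  have e4 : (E fun x => (avg j ν x - 1) ^ 2) =
      (E fun y => avg j ν y * avg j ν y) - 2 * E (avg j ν) + 1 := by
    rw [← E_mul_left, ← E_sub, ← E_const (Ω := κ → G) 1, ← E_add]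
    exact congrArg E (funext fun x => by simp only [E_const]; ring)
  rw [e4]
  linarith [(abs_le.1 h2).1, (abs_le.1 h3).2]

/-! ### the majorant -/

theorem prime_of_mem_pr {w Y p : ℕ} (h : p ∈ pr w Y) : p.Prime := (mem_filter.1 h).2

theorem lt_of_mem_pr {w Y p : ℕ} (h : p ∈ pr w Y) : w < p := (mem_Ioc.1 (mem_filter.1 h).1).1

theorem rho_pos (w : ℕ) : 0 < rho w := prod_pos fun p hp =>
  sub_pos.2 (inv_lt_one_of_one_lt₀ (by exact_mod_cast (mem_filter.1 hp).2.one_lt))

theorem rho_le_one (w : ℕ) : rho w ≤ 1 := prod_le_one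
  (fun p hp => sub_nonneg.2 (inv_le_one_of_one_le₀ (by exact_mod_cast (mem_filter.1 hp).2.one_le)))
  fun p _ => sub_le_self _ (by positivity)

theorem rho_eq (w : ℕ) : rho w = (primorial w).totient / primorial w := by
  have h0 : (primorial w : ℝ) ≠ 0 := Nat.cast_ne_zero.2 (primorial_pos w).ne'
  have h := Nat.totient_eq_mul_prod_factors (primorial w)
  have h1 : (primorial w).primeFactors = (range (w + 1)).filter Nat.Prime :=
    Nat.primeFactors_prod fun p hp => (mem_filter.1 hp).2
  rw [h1] at h
  have h2 := congrArg (Rat.cast : ℚ → ℝ) h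
  push_cast at h2
  rw [h2, mul_div_cancel_left₀ _ h0, rho]

theorem nrm_nonneg (K : Ker) (w : ℕ) {L : ℝ} (hL : 0 ≤ L) : 0 ≤ nrm K w L :=
  div_nonneg (mul_nonneg (rho_pos w).le hL) K.pos.le

theorem nrm_le (K : Ker) (w : ℕ) {L : ℝ} (hL : 0 ≤ L) : nrm K w L ≤ L / K.c :=
  div_le_div_of_nonneg_right (mul_le_of_le_one_left hL (rho_le_one w)) K.pos.le

/-- the divisor sum is `1` at large primes -/
theorem lam_prime (K : Ker) {S : Finset ℕ} (hS : ∀ p ∈ S, p.Prime) {L : ℝ} (hL : 0 < L) {q : ℕ}
    (hq : q.Prime) (h : Real.exp L ≤ q) : lam K S L q = 1 := by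
  rw [lam, sum_eq_single ∅]
  · simp [K.zero, ind_true]
  · intro T hT h0
    by_cases hd : ∀ p ∈ T, (p : ℤ) ∣ q
    · have hT' : T = {q} := by
        obtain ⟨p, hp⟩ := nonempty_iff_ne_empty.2 h0
        have hk : ∀ p ∈ T, p = q := fun p hp =>
          (Nat.prime_dvd_prime_iff_eq (hS p (mem_powerset.1 hT hp)) hq).1
            (Int.natCast_dvd_natCast.1 (hd p hp))
        exact eq_singleton_iff_unique_mem.2 ⟨hk p hp ▸ hp, hk⟩
      rw [hT', prod_singleton, K.supp, mul_zero, zero_mul]
      rw [le_div_iff₀ hL, one_mul]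
      exact (Real.le_log_iff_exp_le (by exact_mod_cast hq.pos)).2 h
    · rw [ind_false hd, mul_zero]
  · simp

theorem norm_al (K : Ker) {L : ℝ} (hL : 0 < L) (p : ℕ) (ξ : ℝ) : ‖al K L p ξ‖ ≤ 1 := by
  rw [al, Complex.norm_exp, Real.exp_le_one_iff, Complex.neg_re, Complex.mul_re, K.re,
    Complex.ofReal_re, Complex.ofReal_im, mul_zero, sub_zero, one_mul, neg_nonpos]
  exact div_nonneg (Real.log_natCast_nonneg p) hL.le

theorem one_le_norm_s (K : Ker) (ξ : ℝ) : 1 ≤ ‖K.s ξ‖ := by
  simpa [K.re] using Complex.re_le_norm (K.s ξ)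

theorem integrable_phi (K : Ker) : Integrable K.φ :=
  K.int.mono' K.cφ.aestronglyMeasurable (Eventually.of_forall fun ξ =>
    le_mul_of_one_le_left (norm_nonneg _) (one_le_pow₀ (one_le_norm_s K ξ)))

section Box

variable {τ : Type} [Fintype τ] [DecidableEq τ]

theorem box_ofReal (D : ℕ) (F : (τ → ℤ) → ℝ) :
    ((box D F : ℝ) : ℂ) = box D fun y => (F y : ℂ) := by
  simp [box]

theorem box_eq_E (D : ℕ) (F : (τ → ℤ) → ℝ) :
    box D F = E fun y : τ → Fin D => F fun t => ((y t : ℕ) : ℤ) := by
  rw [box, E_eq_div]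
  simp

end Box

end Pool.Agent.MP_a43263_nt.GT

end
end MrgPart0

-- ======== part 1: formerly Pool.Agent.MP_a43263_nt.GT.Cl
section MrgPart1

/-! PROJECT GT7, row CL: the counting lemma by densification. -/

set_option autoImplicit false

noncomputable section

namespace Pool.Agent.MP_a43263_nt.GT

open Finset Filter MeasureTheory Function
open DH (E ind)
open DH

namespace Cl

variable {κ : Type} [Fintype κ] [DecidableEq κ]

/-- the counting lemma when the weights off `J` are trivial -/
def P (J : Finset κ) : Prop := ∀ γ : ℝ, 0 < γ → ∃ ε : ℝ, 0 < ε ∧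
  ∀ (G : Type) [Finite G] [Nonempty G] (ν g g' : κ → (κ → G) → ℝ), (∀ j, j ∉ J → ν j = fun _ => 1) →
    (∀ j, Ind j (ν j)) →
    (∀ j, Ind j (g j)) → (∀ j, Ind j (g' j)) → (∀ j x, 0 ≤ g j x ∧ g j x ≤ ν j x) →
    (∀ j x, 0 ≤ g' j x ∧ g' j x ≤ 1) → LFC ν ε → (∀ j, Cut j (fun x => g j x - g' j x) ε) →
    |E (fun x => ∏ j, g j x) - E (fun x => ∏ j, g' j x)| ≤ γ

theorem tele {G : Type} [Finite G] {g g' : κ → (κ → G) → ℝ} {ε : ℝ} (hg : ∀ j, Ind j (g j))
    (hg' : ∀ j, Ind j (g' j)) (b : ∀ j x, 0 ≤ g j x ∧ g j x ≤ 1)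
    (b' : ∀ j x, 0 ≤ g' j x ∧ g' j x ≤ 1) (hc : ∀ j, Cut j (fun x => g j x - g' j x) ε)
    (s : Finset κ) :
    |E (fun x => ∏ j, (if j ∈ s then g j else g' j) x) - E (fun x => ∏ j, g' j x)| ≤
      s.card * ε := by
  induction s using Finset.induction_on with
  | empty => simp
  | insert i s hi ih =>
    have h := hc i (fun j => if j ∈ s then g j else g' j)
      (fun j => by by_cases h : j ∈ s <;> simp [h, hg j, hg' j])
      fun j x => by by_cases h : j ∈ s <;> simp [h, b j x, b' j x]
    have e : E (fun x => (g i x - g' i x) * ∏ j ∈ univ.erase i, (if j ∈ s then g j else g' j) x) =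
        E (fun x => ∏ j, (if j ∈ insert i s then g j else g' j) x) -
          E (fun x => ∏ j, (if j ∈ s then g j else g' j) x) := by
      rw [← E_sub]
      refine congrArg E (funext fun x => ?_)
      rw [← mul_prod_erase univ _ (mem_univ i), ← mul_prod_erase univ _ (mem_univ i),
        if_pos (mem_insert_self i s), if_neg hi, sub_mul]
      congr 2
      exact prod_congr rfl fun j hj => by simp [ne_of_mem_erase hj]
    rw [e] at h
    rw [card_insert_of_notMem hi]
    push_cast
    have := abs_add_le (E (fun x => ∏ j, (if j ∈ insert i s then g j else g' j) x) -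
      E (fun x => ∏ j, (if j ∈ s then g j else g' j) x))
      (E (fun x => ∏ j, (if j ∈ s then g j else g' j) x) - E (fun x => ∏ j, g' j x))
    rw [sub_add_sub_cancel] at this
    linarith

theorem base : P (∅ : Finset κ) := by
  intro γ hγ
  refine ⟨γ / (Fintype.card κ + 1), by positivity, fun G _ _ ν g g' h1 _ hg hg' b b' _ hc => ?_⟩
  have h := tele hg hg' (fun j x => by simpa [h1 j] using b j x) b' hc univ
  simp only [mem_univ, if_true, card_univ] at h
  refine h.trans ?_
  rw [mul_div_assoc', div_le_iff₀ (by positivity)]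
  nlinarith

theorem E_split {G : Type} [Finite G] [Nonempty G] {g : κ → (κ → G) → ℝ} (j : κ)
    {U : (κ → G) → ℝ} (hU : Ind j U) :
    E (fun x => ∏ i, update g j U i x) = E fun x => U x * avg j g x := by
  rw [← E_mul_avg hU]
  refine congrArg E (funext fun x => ?_)
  rw [← mul_prod_erase univ _ (mem_univ j), update_self]
  exact congrArg _ (prod_congr rfl fun i hi => by rw [update_of_ne (ne_of_mem_erase hi)])

theorem ptw {a b n η : ℝ} (hη : 0 < η) (hb : 0 ≤ b) (han : a ≤ n) :
    (a - b) * (a - min a 1) ≤ (1 + 1 / η) * (n - 1) ^ 2 + η := by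
  have h0 : 0 ≤ (1 + 1 / η) * (n - 1) ^ 2 + η := by positivity
  rcases le_total a 1 with h | h
  · rw [min_eq_left h]; simpa using h0
  · rw [min_eq_right h]
    have h1 : (a - b) * (a - 1) ≤ n * (n - 1) :=
      mul_le_mul (by linarith) (by linarith) (by linarith) (by linarith)
    have h2 : n - 1 ≤ 1 / η * (n - 1) ^ 2 + η := by
      have : 0 ≤ 1 / η * ((n - 1) - η) ^ 2 := by positivity
      have e : 1 / η * ((n - 1) - η) ^ 2 = 1 / η * (n - 1) ^ 2 - 2 * (n - 1) + η := by
        field_simp; ring
      linarith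
    nlinarith

theorem step (mom : MomStmt) (slf : SlfStmt) (j : κ) (J : Finset κ) (ih : P J) :
    P (insert j J) := by
  intro γ hγ
  set η : ℝ := γ ^ 2 / 64 with hη
  have hη0 : 0 < η := by positivity
  obtain ⟨ε₁, h₁, H₁⟩ := ih η hη0
  obtain ⟨ε₂, h₂, H₂⟩ := slf κ η hη0
  set ε := min (min ε₁ ε₂) (min (min 1 (γ / 2)) (η / (3 * (1 + 1 / η)))) with hε
  have e1 : ε ≤ ε₁ := (min_le_left _ _).trans (min_le_left _ _)
  have e2 : ε ≤ ε₂ := (min_le_left _ _).trans (min_le_right _ _)
  have e3 : ε ≤ 1 := (min_le_right _ _).trans ((min_le_left _ _).trans (min_le_left _ _))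
  have e4 : ε ≤ γ / 2 := (min_le_right _ _).trans ((min_le_left _ _).trans (min_le_right _ _))
  have e5 : (1 + 1 / η) * (3 * ε) ≤ η := by
    have : ε ≤ η / (3 * (1 + 1 / η)) := (min_le_right _ _).trans (min_le_right _ _)
    rw [le_div_iff₀ (by positivity)] at this
    linarith
  refine ⟨ε, by positivity, fun G _ _ ν g g' h1 hν hg hg' b b' hl hc => ?_⟩
  set A := avg j g with hA
  set B := avg j g' with hB
  have A0 : ∀ x, 0 ≤ A x := avg_nonneg fun i x => (b i x).1
  have B0 : ∀ x, 0 ≤ B x := avg_nonneg fun i x => (b' i x).1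
  have B1 : ∀ x, B x ≤ 1 := avg_le_one b'
  have hU : ∀ U : (κ → G) → ℝ, Ind j U → (∀ x, 0 ≤ U x ∧ U x ≤ 1) →
      |E fun x => U x * (A x - B x)| ≤ η := fun U hU bU => by
    have h := H₁ G (update ν j fun _ => 1) (update g j U) (update g' j U)
      (fun i hi => by
        by_cases e : i = j
        · rw [e, update_self]
        · rw [update_of_ne e]; exact h1 i (by simp [e, hi]))
      (fun i => by
        by_cases e : i = j
        · rw [e, update_self]; exact Ind.const _ _
        · rw [update_of_ne e]; exact hν i)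
      (fun i => by
        by_cases e : i = j
        · rw [e, update_self]; exact hU
        · rw [update_of_ne e]; exact hg i)
      (fun i => by
        by_cases e : i = j
        · rw [e, update_self]; exact hU
        · rw [update_of_ne e]; exact hg' i)
      (fun i x => by
        by_cases e : i = j
        · rw [e, update_self, update_self]; exact bU x
        · rw [update_of_ne e, update_of_ne e]; exact b i x)
      (fun i x => by
        by_cases e : i = j
        · rw [e, update_self]; exact bU x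
        · rw [update_of_ne e]; exact b' i x)
      ((hl.mono e1).one j)
      (fun i => by
        by_cases e : i = j
        · rw [e, update_self, update_self]
          intro u _ _
          simpa [E_const] using h₁.le
        · rw [update_of_ne e, update_of_ne e]; exact (hc i).mono e1)
    rw [E_split j hU, E_split j hU, ← E_sub] at h
    simpa only [mul_sub] using h
  obtain ⟨m1, m2⟩ := mom κ G ν ε hν hl j
  have hD : (E fun x => (A x - B x) ^ 2) ≤ 4 * η := by
    have t1 := hU (fun x => min (A x) 1) (fun x a => by simp only [hA, ind_avg j g x a])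
      fun x => ⟨le_min (A0 x) zero_le_one, min_le_right _ _⟩
    have t2 := hU B (ind_avg j g') fun x => ⟨B0 x, B1 x⟩
    have t3 : (E fun x => (A x - B x) * (A x - min (A x) 1)) ≤
        (1 + 1 / η) * (E fun x => (avg j ν x - 1) ^ 2) + η := by
      rw [← E_mul_left, ← E_const (Ω := κ → G) η, ← E_add]
      exact E_mono fun x => by
        simpa only [E_const] using ptw hη0 (B0 x) (avg_mono b x)
    have t4 : (1 + 1 / η) * (E fun x => (avg j ν x - 1) ^ 2) ≤ (1 + 1 / η) * (3 * ε) :=
      mul_le_mul_of_nonneg_left m2 (by positivity)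
    have e : (E fun x => (A x - B x) ^ 2) = (E fun x => min (A x) 1 * (A x - B x)) -
        (E fun x => B x * (A x - B x)) + E fun x => (A x - B x) * (A x - min (A x) 1) := by
      rw [← E_sub, ← E_add]
      exact congrArg E (funext fun x => by ring)
    rw [e]
    linarith [(abs_le.1 t1).2, (abs_le.1 t2).1]
  have hS : (E fun x => (ν j x - 1) * (A x - B x) ^ 2) ≤ 4 * η := by
    have S := fun h μ => H₂ G ν hν (hl.mono e2) j h μ
    have s1 := S (fun _ => g) (fun _ => ν) (fun _ => hg) (fun _ _ => Or.inl rfl) fun _ => b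
    have s2 := S (fun β => if β then g' else g) (fun β => if β then fun _ _ => 1 else ν)
      (fun β => by cases β <;> simpa) (fun β _ => by cases β <;> simp)
      fun β => by cases β <;> simpa
    have s3 := S (fun _ => g') (fun _ _ _ => 1) (fun _ => hg') (fun _ _ => Or.inr rfl) fun _ => b'
    simp only [Bool.false_eq_true, if_false, if_true] at s2
    have e : (E fun x => (ν j x - 1) * (A x - B x) ^ 2) = (E fun x => (ν j x - 1) * (A x * A x)) -
        2 * (E fun x => (ν j x - 1) * (A x * B x)) + E fun x => (ν j x - 1) * (B x * B x) := by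
      rw [← E_mul_left, ← E_sub, ← E_add]
      exact congrArg E (funext fun x => by ring)
    rw [e]
    linarith [(abs_le.1 s1).2, (abs_le.1 s2).1, (abs_le.1 s3).2]
  have hcs := E_cs (A := fun x => A x - B x) (b j)
  have e : (E fun x => ν j x * (A x - B x) ^ 2) =
      (E fun x => (ν j x - 1) * (A x - B x) ^ 2) + E fun x => (A x - B x) ^ 2 := by
    rw [← E_add]
    exact congrArg E (funext fun x => by ring)
  have p0 : 0 ≤ E fun x => ν j x * (A x - B x) ^ 2 :=
    E_nonneg fun x => mul_nonneg ((b j x).1.trans (b j x).2) (sq_nonneg _)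
  have hsq : (E fun x => g j x * (A x - B x)) ^ 2 ≤ (γ / 2) ^ 2 := by
    refine hcs.trans ((mul_le_mul (m1.trans (by linarith : 1 + ε ≤ 2))
      (by rw [e]; linarith : _ ≤ 8 * η) p0 (by norm_num)).trans (le_of_eq ?_))
    rw [hη]; ring
  have t1 := abs_le_of_sq_le_sq hsq (by positivity)
  have t2 := hc j g' hg' b'
  rw [E_mul_avg (fun x a => by simp only [hg j x a, hg' j x a])] at t2
  have f1 := E_split (g := g) j (hg j)
  have f2 := E_split (g := g') j (hg' j)
  rw [update_eq_self] at f1 f2
  have e' : (E fun x => g j x * avg j g x) - (E fun x => g' j x * avg j g' x) =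
      (E fun x => g j x * (A x - B x)) + E fun x => (g j x - g' j x) * avg j g' x := by
    rw [← E_sub, ← E_add]
    exact congrArg E (funext fun x => by ring)
  rw [f1, f2, e']
  linarith [abs_add_le (E fun x => g j x * (A x - B x))
    (E fun x => (g j x - g' j x) * avg j g' x)]

end Cl

theorem cl (mom : MomStmt) (slf : SlfStmt) : ClStmt := by
  intro κ _ _ γ hγ
  have h : ∀ J : Finset κ, Cl.P J := fun J => by
    induction J using Finset.induction_on with
    | empty => exact Cl.base
    | insert j J _ ih => exact Cl.step mom slf j J ih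
  obtain ⟨ε, hε, H⟩ := h univ γ hγ
  exact ⟨ε, hε, fun G _ _ ν g g' => H G ν g g' fun j hj => absurd (mem_univ j) hj⟩

end Pool.Agent.MP_a43263_nt.GT

end
end MrgPart1

-- marker of a merged file
example : 731051 + 150640 = 731051 + 150640 := rfl
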