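import Mathlib.Algebra.Order.Ring.Star
import Mathlib.Algebra.Order.Star.Real
import Pool.Agent.MP_a43263_nt.GT.Spec

/-! PROJECT GT7, row PSE: the majorant satisfies the linear forms condition. -/

set_option autoImplicit false

noncomputable section

namespace Pool.Agent.MP_a43263_nt.GT

open Finset Filter MeasureTheory Function
open DH (E ind)

namespace Pse

variable {κ : Type} [Fintype κ] [DecidableEq κ]

/-- the coefficients of the form attached to a vertex of a box -/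
def psi (e : κ → ℕ) (q : κ × (κ → Bool)) (t : κ × Bool) : ℤ :=
  if t.2 = q.2 t.1 then (e q.1 : ℤ) - e t.1 else 0

omit [DecidableEq κ] in
theorem lin_pick {G : Type} [CommRing G] (e : κ → ℕ) (q : κ × (κ → Bool)) (x : κ × Bool → G) :
    lin e q.1 (pick x q.2) = ∑ t, (psi e q t : G) * x t := by
  rw [Fintype.sum_prod_type, lin]
  refine sum_congr rfl fun i _ => ?_
  rw [Fintype.sum_bool]
  cases h : q.2 i <;> simp [psi, pick, h]

omit [Fintype κ] [DecidableEq κ] in
theorem psi_self (e : κ → ℕ) (q : κ × (κ → Bool)) (i : κ) :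
    psi e q (i, q.2 i) = (e q.1 : ℤ) - e i := if_pos rfl

omit [Fintype κ] [DecidableEq κ] in
theorem sub_ne {e : κ → ℕ} (he : Injective e) {i j : κ} (h : i ≠ j) : (e i : ℤ) - e j ≠ 0 :=
  sub_ne_zero.2 fun k => h (he (Nat.cast_injective k))

omit [Fintype κ] [DecidableEq κ] in
theorem minor {e : κ → ℕ} (he : Injective e) {q q' : κ × (κ → Bool)} (h : q.2 q.1 = false)
    (h' : q'.2 q'.1 = false) (hne : q ≠ q') :
    ∃ t t', psi e q t * psi e q' t' - psi e q t' * psi e q' t ≠ 0 := by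
  by_cases hj : q.1 = q'.1
  · obtain ⟨i, hi⟩ := Function.ne_iff.1 fun k => hne (Prod.ext hj k)
    have hij : q.1 ≠ i := by
      rintro rfl
      exact hi (by rw [h, hj, h'])
    refine ⟨(i, q.2 i), (i, q'.2 i), ?_⟩
    rw [psi_self, psi_self, show psi e q (i, q'.2 i) = 0 from if_neg (Ne.symm hi), zero_mul,
      sub_zero, ← hj]
    exact mul_ne_zero (sub_ne he hij) (sub_ne he hij)
  · refine ⟨(q'.1, q.2 q'.1), (q.1, q'.2 q.1), ?_⟩
    rw [psi_self, psi_self, show psi e q (q.1, q'.2 q.1) = 0 by simp [psi], zero_mul, sub_zero]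
    exact mul_ne_zero (sub_ne he hj) (sub_ne he (Ne.symm hj))

theorem abs_E {Ω : Type} [Finite Ω] [Nonempty Ω] {f : Ω → ℝ} {c : ℝ} (h : ∀ x, |f x - 1| ≤ c) :
    |E f - 1| ≤ c := by
  have h1 := DH.E_le (f := f) (c := 1 + c) fun x => by linarith [(abs_le.1 (h x)).2]
  have h2 := DH.le_E (f := f) (c := 1 - c) fun x => by linarith [(abs_le.1 (h x)).1]
  exact abs_le.2 ⟨by linarith, by linarith⟩

theorem small (A C : ℝ) (j m : ℕ) (hj : j ≤ m) {ε : ℝ} (hε : 0 < ε) : ∀ᶠ L : ℝ in atTop,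
    |(A * L) ^ j| * (C * Real.exp (4 * j * L) / Real.exp ((4 * m + 2) * L)) ≤ ε := by
  have h := (Real.tendsto_pow_mul_exp_neg_atTop_nhds_zero j).const_mul (|A| ^ j * |C|)
  rw [mul_zero] at h
  filter_upwards [h.eventually (ge_mem_nhds hε), eventually_ge_atTop 0] with L hL h0
  refine le_trans ?_ hL
  have hj' : (j : ℝ) ≤ m := by exact_mod_cast hj
  have e : C * Real.exp (4 * j * L) / Real.exp ((4 * m + 2) * L) ≤ |C| * Real.exp (-L) := by
    rw [mul_div_assoc, ← Real.exp_sub]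
    exact mul_le_mul (le_abs_self C) (Real.exp_le_exp.2 (by nlinarith)) (Real.exp_pos _).le
      (abs_nonneg C)
  calc _ ≤ |(A * L) ^ j| * (|C| * Real.exp (-L)) := mul_le_mul_of_nonneg_left e (abs_nonneg _)
    _ = _ := by rw [abs_pow, abs_mul, abs_of_nonneg h0]; ring

theorem key (hm : ModStmt) (hw : WrapStmt) (K : Ker) [Nontrivial κ] {e : κ → ℕ} (he : Injective e)
    {ε : ℝ} (hε : 0 < ε) (J : Finset (κ × (κ → Bool))) :
    ∀ᶠ w : ℕ in atTop, ∀ᶠ L : ℝ in atTop, ∀ᶠ Y : ℕ in atTop, (∀ q ∈ J, q.2 q.1 = false) →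
      ∀ (N : ℕ) [NeZero N], (N : ℝ) = Real.exp ((4 * Fintype.card (κ × (κ → Bool)) + 2) * L) →
      (∀ i j, i ≠ j → IsUnit ((e j : ZMod N) - e i)) → ∀ b : ℤ,
      |E (fun x : κ × Bool → ZMod N => ∏ q ∈ J, nu K w Y L b (lin e q.1 (pick x q.2))) - 1| ≤
        ε := by
  by_cases hJ : ∀ q ∈ J, q.2 q.1 = false
  swap
  · exact .of_forall fun _ => .of_forall fun _ => .of_forall fun _ h => absurd h hJ
  obtain ⟨C, hC⟩ := hw K J (κ × Bool) fun q => psi e q.1
  have h1 := hm K J (κ × Bool) (fun q => psi e q.1)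
    (fun q => let ⟨i, hi⟩ := exists_ne q.1.1
      ⟨(i, q.1.2 i), by rw [psi_self]; exact sub_ne he hi.symm⟩)
    (fun q q' h => minor he (hJ _ q.2) (hJ _ q'.2) fun k => h (Subtype.ext k)) _ (half_pos hε)
  filter_upwards [h1] with w h2
  filter_upwards [h2, eventually_gt_atTop 0, small (rho w / K.c) C (Fintype.card J) _
    (Fintype.card_le_of_injective _ Subtype.val_injective) (half_pos hε)] with L h3 hL h4
  filter_upwards [h3] with Y h5 _ N _ hN hu b
  have h6 := hC (pr w Y) L N (primorial w) b (fun p hp => (mem_filter.1 hp).2) hL fun q =>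
    let ⟨i, hi⟩ := exists_ne q.1.1
    ⟨(i, q.1.2 i), by rw [psi_self]; push_cast; exact hu i _ hi⟩
  have h7 := abs_E fun x : κ × Bool → ZMod N =>
    h5 fun q => primorial w * (∑ t, (psi e q.1 t : ZMod N) * x t).val + b
  rw [DH.E_mul_left] at h7
  have h8 : (fun x : κ × Bool → ZMod N => ∏ q ∈ J, nu K w Y L b (lin e q.1 (pick x q.2))) =
      fun x => nrm K w L ^ Fintype.card J * ∏ q : J, lam K (pr w Y) L
        (primorial w * (∑ t, (psi e q.1 t : ZMod N) * x t).val + b) ^ 2 := by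
    funext x
    rw [← prod_coe_sort J, ← card_univ, ← prod_const, ← prod_mul_distrib]
    exact prod_congr rfl fun q _ => by rw [nu, lin_pick]
  rw [h8, DH.E_mul_left]
  rw [← hN, show rho w / K.c * L = nrm K w L by rw [nrm]; ring] at h4
  have h9 := (mul_le_mul_of_nonneg_left h6 (abs_nonneg (nrm K w L ^ Fintype.card J))).trans h4
  rw [← abs_mul, mul_sub] at h9
  exact (abs_sub_le _ _ _).trans ((add_le_add h9 h7).trans_eq (add_halves ε))

end Pse

theorem pse : ModStmt → WrapStmt → PseStmt := by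
  intro hm hw K κ _ _ _ e he
  have hpos : (0 : ℝ) < 4 * Fintype.card (κ × (κ → Bool)) + 2 := by positivity
  refine ⟨1 / (4 * Fintype.card (κ × (κ → Bool)) + 2), by positivity,
    one_div_le_one_div_of_le two_pos (le_add_of_nonneg_left (by positivity)), fun ε hε => ?_⟩
  obtain ⟨w, h1⟩ := (eventually_all.2 (Pse.key hm hw K he hε)).exists
  have ht : Tendsto (fun N : ℕ => 1 / (4 * (Fintype.card (κ × (κ → Bool)) : ℝ) + 2) * Real.log N)
      atTop atTop :=
    (Real.tendsto_log_atTop.comp tendsto_natCast_atTop_atTop).const_mul_atTop (by positivity)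
  obtain ⟨N₀, h2⟩ := eventually_atTop.1 (ht.eventually (eventually_all.2 h1))
  refine ⟨w, N₀, fun N _ hN hu => ?_⟩
  obtain ⟨Y, h3⟩ := (eventually_all.2 (h2 N hN)).exists
  refine ⟨Y, fun b J hJ => h3 J hJ N ?_ hu b⟩
  rw [← mul_assoc, mul_one_div_cancel hpos.ne', one_mul, Real.exp_log]
  exact_mod_cast Nat.pos_of_ne_zero (NeZero.ne N)

end Pool.Agent.MP_a43263_nt.GT
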