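import Mathlib.CategoryTheory.Category.Basic
import Mathlib.Algebra.Order.Ring.Star
import Mathlib.Algebra.Order.Star.Real
import Mathlib.Analysis.LocallyConvex.Separation
import Mathlib.Topology.ContinuousMap.Weierstrass
import Mathlib.Combinatorics.SimpleGraph.Basic
import Mathlib.RingTheory.PiTensorProduct
import Pool.Agent.MP_a43263_nt.GT.Spec

-- ======== part 0: formerly Pool.Agent.MP_a43263_nt.GT.Slf
section MrgPart0

/-! PROJECT GT7, row SLF: the strong linear forms estimate. -/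

set_option autoImplicit false

noncomputable section

namespace Pool.Agent.MP_a43263_nt.GT

open Finset Filter MeasureTheory Function
open DH (E ind)

namespace Slf

open DH

section Gen

variable {ι G : Type} [Fintype ι] [DecidableEq ι] [Finite G] [Nonempty G]

lemma upd (s : ι) (F : (ι → G) → ℝ) : E F = E fun x => E fun a => F (update x s a) := by
  let e : (ι → G) × G ≃ (ι → G) × G := Function.Involutive.toPerm
    (fun z => (update z.1 s z.2, z.1 s)) fun z => by simp
  have h := E_equiv e fun z => F z.1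
  rw [E_prod, E_prod] at h
  simpa [E_const, e] using h.symm

lemma cs {Ω : Type} [Finite Ω] {H M : Ω → ℝ} (B : Ω → ℝ) (h : ∀ x, 0 ≤ H x ∧ H x ≤ M x) :
    E (fun x => H x * B x) ^ 2 ≤ E M * E fun x => M x * B x ^ 2 := by
  have := discrim_le_zero (a := E M) (b := 2 * E fun x => H x * B x)
    (c := E fun x => M x * B x ^ 2) fun t => by
      have h1 : 0 ≤ E fun x => t * t * M x + 2 * t * (H x * B x) + M x * B x ^ 2 :=
        E_nonneg fun x => by
          have := mul_nonneg (sub_nonneg.2 (h x).2) (add_nonneg (sq_nonneg t) (sq_nonneg (B x)))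
          have := mul_nonneg (h x).1 (sq_nonneg (t + B x))
          nlinarith
      rw [E_add, E_add, E_mul_left, E_mul_left] at h1
      linarith
  rw [discrim] at this
  nlinarith

lemma avg_mul (s : ι) {U A : (ι → G) → ℝ} (hU : Ind s U) :
    E (fun x => U x * A x) = E fun x => U x * E fun a => A (update x s a) := by
  rw [upd s]
  simp only [hU _, E_mul_left]

lemma step {s t : ι} (hst : s ≠ t) {H M A : (ι → G) → ℝ} (h : ∀ x, 0 ≤ H x ∧ H x ≤ M x)
    (hH : Ind s H) (hM : Ind s M) (hM' : Ind t M) (hA : Ind t A) :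
    E (fun x => H x * A x) ^ 2 ≤ E M * E fun x => M x * (A x * A (update x s (x t))) := by
  rw [avg_mul s hH]
  refine (cs _ h).trans_eq (congrArg _ ?_)
  have h1 : E (fun x => M x * (A x * A (update x s (x t)))) =
      E fun x => (M x * E fun a => A (update x s a)) * A x := by
    rw [upd t]
    refine congrArg _ (funext fun x => ?_)
    simp only [hM' _, hA _, update_self, update_comm hst.symm, E_mul_left]
    ring
  rw [h1, avg_mul s (U := fun x => M x * E fun a => A (update x s a))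
    fun x b => by simp only [hM _, update_idem]]
  exact congrArg _ (funext fun x => by ring)

end Gen

variable {κ G : Type} [Fintype κ] [DecidableEq κ] [Finite G] [Nonempty G]

/-- the vertex of the box given by a set of coordinates -/
def pk (x : κ × Bool → G) (T : Finset κ) : κ → G := pick x fun i => decide (i ∈ T)

omit [Fintype κ] [Finite G] [Nonempty G] in
lemma pk_upd (x : κ × Bool → G) (T : Finset κ) (i : κ) (β : Bool) (a : G) :
    pk (update x (i, β) a) T = if decide (i ∈ T) = β then update (pk x T) i a else pk x T := by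
  funext l
  by_cases hl : l = i
  · subst hl
    split_ifs with hb
    · simp [pk, pick, hb]
    · simp [pk, pick, update_of_ne, hb]
  · split_ifs <;> simp [pk, pick, update_of_ne, hl]

omit [Fintype κ] [Finite G] [Nonempty G] in
lemma pk_ins (x : κ × Bool → G) (T : Finset κ) (i : κ) :
    pk x (insert i T) = update (pk x T) i (x (i, true)) := by
  funext l
  by_cases hl : l = i
  · subst hl; simp [pk, pick]
  · simp [pk, pick, update_of_ne, hl]

omit [Fintype κ] [Finite G] [Nonempty G] in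
lemma ind_pk {i : κ} {g : (κ → G) → ℝ} (hg : Ind i g) (x : κ × Bool → G) (T : Finset κ) (β : Bool)
    (a : G) : g (pk (update x (i, β) a) T) = g (pk x T) := by
  rw [pk_upd]
  split_ifs
  exacts [hg _ _, rfl]

lemma E_pk (f : (κ → G) → ℝ) : E (fun x : κ × Bool → G => f (pk x ∅)) = E f := by
  let e : (κ → G) × (κ → G) ≃ (κ × Bool → G) :=
    { toFun := fun z t => cond t.2 (z.2 t.1) (z.1 t.1)
      invFun := fun x => (fun i => x (i, false), fun i => x (i, true))
      left_inv := fun _ => rfl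
      right_inv := fun x => funext fun t => by rcases t with ⟨i, _ | _⟩ <;> rfl }
  rw [← E_equiv e, E_prod]
  have : ∀ y z : κ → G, pk (e (y, z)) ∅ = y := fun y z => funext fun i => by simp [pk, pick, e]
  simp only [this, E_const]

omit [Nonempty G] in
lemma lfc {ν : κ → (κ → G) → ℝ} {ε : ℝ} (h : LFC ν ε) (s : Finset κ) (D : κ → Finset (Finset κ))
    (hD : ∀ i ∈ s, ∀ T ∈ D i, i ∉ T) (w : κ → Finset κ → (κ → G) → ℝ)
    (hw : ∀ i T, w i T = ν i ∨ w i T = fun _ => 1) :
    |E (fun x : κ × Bool → G => ∏ i ∈ s, ∏ T ∈ D i, w i T (pk x T)) - 1| ≤ ε := by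
  classical
  have := h (((s.sigma D).filter fun q => w q.1 q.2 = ν q.1).image
    fun q => (q.1, fun i => decide (i ∈ q.2))) fun q hq => by
      obtain ⟨q, hq', rfl⟩ := mem_image.1 hq
      have := mem_sigma.1 (mem_filter.1 hq').1
      simpa using hD _ this.1 _ this.2
  convert this using 5 with x
  rw [prod_image, prod_filter, prod_sigma']
  · refine prod_congr rfl fun q _ => ?_
    split_ifs with hq
    · rw [hq]; rfl
    · rw [(hw _ _).resolve_left hq]
  · rintro ⟨i, T⟩ - ⟨i', T'⟩ - hq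
    obtain ⟨rfl, h2⟩ := Prod.mk.inj hq
    obtain rfl : T = T' := Finset.ext fun l => by simpa using congrFun h2 l
    rfl

variable (ν : κ → (κ → G) → ℝ) (j : κ) (h μ : Bool → κ → (κ → G) → ℝ)

/-- the weights at the stage `d` -/
def F (d : Finset κ) (i : κ) (β : Bool) : (κ → G) → ℝ :=
  if i = j then fun y => ν j y - 1 else if i ∈ d then μ β i else h β i

/-- the factor of the face `i` at the stage `d` -/
def R (d : Finset κ) (x : κ × Bool → G) (i : κ) : ℝ :=
  ∏ T ∈ (d.erase i).powerset, F ν j h μ d i (decide (j ∈ T)) (pk x T)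

/-- the mean at the stage `d` -/
def Q (d : Finset κ) : ℝ := E fun x : κ × Bool → G => ∏ i, R ν j h μ d x i

variable {ν j h μ} {ε : ℝ}

lemma Q_one (hν : ∀ j, Ind j (ν j)) : Q ν j h μ {j} =
    E fun x => (ν j x - 1) * (avg j (h false) x * avg j (h true) x) := by
  have h1 : ∀ x : κ × Bool → G, ∏ i, R ν j h μ {j} x i =
      ((ν j (pk x ∅) - 1) * ∏ i ∈ univ.erase j, h false i (pk x ∅)) *
        ∏ i ∈ univ.erase j, h true i (update (pk x ∅) j (x (j, true))) := fun x => by
    rw [← mul_prod_erase univ _ (mem_univ j), mul_assoc, ← prod_mul_distrib]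
    congr 1
    · simp [R, F]
    · refine prod_congr rfl fun i hi => ?_
      have hi' : i ≠ j := ne_of_mem_erase hi
      rw [R, erase_eq_of_notMem (by simpa using hi'), ← insert_empty_eq j,
        prod_powerset_insert (notMem_empty j)]
      simp [F, hi', ← pk_ins]
  have h2 : Q ν j h μ {j} = E fun x : κ × Bool → G =>
      ((ν j (pk x ∅) - 1) * ∏ i ∈ univ.erase j, h false i (pk x ∅)) * avg j (h true) (pk x ∅) := by
    rw [Q, upd (j, true)]
    refine congrArg _ (funext fun x => ?_)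
    simp only [h1, pk_upd, update_self, E_mul_left, notMem_empty, decide_false, Bool.false_eq_true,
      if_false, avg]
  rw [h2, E_pk fun y => ((ν j y - 1) * ∏ i ∈ univ.erase j, h false i y) * avg j (h true) y]
  have h3 := avg_mul j (U := fun y => (ν j y - 1) * avg j (h true) y)
    (A := fun y => ∏ i ∈ univ.erase j, h false i y)
    fun y a => by simp only [hν j y a, avg, update_idem]
  calc _ = _ := congrArg _ (funext fun x => by ring)
    _ = _ := h3
    _ = _ := congrArg _ (funext fun x => by simp only [avg]; ring)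

lemma Q_step (hν : ∀ j, Ind j (ν j)) (hl : LFC ν ε) (hh : ∀ β i, Ind i (h β i))
    (hμ : ∀ β i, μ β i = ν i ∨ μ β i = fun _ => 1)
    (hb : ∀ β i x, 0 ≤ h β i x ∧ h β i x ≤ μ β i x) {d : Finset κ} (hj : j ∈ d) {i : κ}
    (hi : i ∉ d) : Q ν j h μ d ^ 2 ≤ (1 + ε) * |Q ν j h μ (insert i d)| := by
  have hij : i ≠ j := fun e => hi (e ▸ hj)
  have hμ' : ∀ β, Ind i (μ β i) := fun β => by
    rcases hμ β i with e | e <;> rw [e]
    exacts [hν i, fun _ _ => rfl]
  have hT : ∀ l, ∀ T ∈ (d.erase l).powerset, i ∉ T := fun l T hT hiT =>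
    hi (mem_of_mem_erase (mem_powerset.1 hT hiT))
  have h1 := step (s := (i, false)) (t := (i, true)) (by simp)
    (H := fun x => ∏ T ∈ d.powerset, h (decide (j ∈ T)) i (pk x T))
    (M := fun x => ∏ T ∈ d.powerset, μ (decide (j ∈ T)) i (pk x T))
    (A := fun x => ∏ l ∈ univ.erase i, R ν j h μ d x l)
    (fun x => ⟨prod_nonneg fun T _ => (hb _ _ _).1,
      prod_le_prod (fun T _ => (hb _ _ _).1) fun T _ => (hb _ _ _).2⟩)
    (fun x a => prod_congr rfl fun T _ => ind_pk (hh _ i) x T _ a)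
    (fun x a => prod_congr rfl fun T _ => ind_pk (hμ' _) x T _ a)
    (fun x a => prod_congr rfl fun T _ => ind_pk (hμ' _) x T _ a)
    (fun x a => prod_congr rfl fun l _ => prod_congr rfl fun T hT' => by
      rw [pk_upd, if_neg (by simpa using hT l T hT')])
  have h2 : Q ν j h μ d = E fun x : κ × Bool → G =>
      (∏ T ∈ d.powerset, h (decide (j ∈ T)) i (pk x T)) * ∏ l ∈ univ.erase i, R ν j h μ d x l := by
    refine congrArg _ (funext fun x => ?_)
    rw [← mul_prod_erase univ _ (mem_univ i), R, erase_eq_of_notMem hi]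
    simp [F, hij, hi]
  have h3 : Q ν j h μ (insert i d) = E fun x : κ × Bool → G =>
      (∏ T ∈ d.powerset, μ (decide (j ∈ T)) i (pk x T)) * ((∏ l ∈ univ.erase i, R ν j h μ d x l) *
        ∏ l ∈ univ.erase i, R ν j h μ d (update x (i, false) (x (i, true))) l) := by
    refine congrArg _ (funext fun x => ?_)
    rw [← mul_prod_erase univ _ (mem_univ i), R, erase_insert hi, ← prod_mul_distrib]
    congr 1
    · simp [F, hij]
    · refine prod_congr rfl fun l hl => ?_
      have hl' : l ≠ i := ne_of_mem_erase hl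
      have e : ∀ β, F ν j h μ (insert i d) l β = F ν j h μ d l β := fun β => by simp [F, hl']
      rw [R, R, R, erase_insert_of_ne hl'.symm,
        prod_powerset_insert fun e => hi (mem_of_mem_erase e)]
      simp only [e]
      congr 1
      refine prod_congr rfl fun T hT' => ?_
      rw [pk_upd, if_pos (by simpa using hT l T hT'), pk_ins]
      simp [hij.symm]
  have h4 := lfc hl {i} (fun _ => d.powerset)
    (fun l hl T hT hiT => hi (mem_singleton.1 hl ▸ mem_powerset.1 hT hiT))
    (fun l T => μ (decide (j ∈ T)) l) fun l T => hμ _ _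
  simp only [prod_singleton] at h4
  rw [← h2, ← h3] at h1
  have h5 : 0 ≤ E fun x : κ × Bool → G => ∏ T ∈ d.powerset, μ (decide (j ∈ T)) i (pk x T) :=
    E_nonneg fun x => prod_nonneg fun T _ => (hb _ _ _).1.trans (hb _ _ _).2
  exact h1.trans ((mul_le_mul_of_nonneg_left (le_abs_self _) h5).trans
    (mul_le_mul_of_nonneg_right (by linarith [(abs_le.1 h4).2]) (abs_nonneg _)))

omit [Nonempty G] in
lemma Q_univ (hl : LFC ν ε) (hμ : ∀ β i, μ β i = ν i ∨ μ β i = fun _ => 1) :
    |Q ν j h μ univ| ≤ 2 ^ 2 ^ Fintype.card κ * ε := by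
  have h0 : 0 ≤ ε := (abs_nonneg _).trans (hl ∅ (by simp))
  set P := (univ.erase j).powerset with hP
  let w : Finset (Finset κ) → κ → Finset κ → (κ → G) → ℝ := fun U i T =>
    if i = j then (if T ∈ U then ν j else fun _ => 1) else μ (decide (j ∈ T)) i
  let Z : Finset (Finset κ) → ℝ := fun U =>
    E fun x : κ × Bool → G => ∏ i, ∏ T ∈ (univ.erase i).powerset, w U i T (pk x T)
  have hZ : ∀ U, |Z U - 1| ≤ ε := fun U => lfc hl univ _
    (fun i _ T hT hi => notMem_erase i univ (mem_powerset.1 hT hi)) (w U) fun i T => by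
      simp only [w]
      split_ifs with h1 h2
      exacts [Or.inl (h1 ▸ rfl), Or.inr rfl, hμ _ _]
  have h1 : Q ν j h μ univ = ∑ U ∈ P.powerset, (∏ _T ∈ P \ U, (-1 : ℝ)) * Z U := by
    simp only [Z, ← E_mul_left, ← E_sum]
    refine congrArg _ (funext fun x => ?_)
    rw [← mul_prod_erase univ _ (mem_univ j), R]
    simp only [F, if_true, sub_eq_add_neg]
    rw [prod_add, sum_mul]
    refine sum_congr rfl fun U hU => ?_
    rw [← mul_prod_erase univ _ (mem_univ j), ← mul_assoc, mul_comm (∏ _T ∈ P \ U, (-1 : ℝ))]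
    refine congrArg₂ _ (congrArg₂ _ ?_ rfl) (prod_congr rfl fun l hl => ?_)
    · simp only [w, if_true, ← hP, ite_apply]
      rw [prod_ite_mem, inter_eq_right.2 (mem_powerset.1 hU)]
    · simp [R, F, w, ne_of_mem_erase hl]
  have h2 : ∑ U ∈ P.powerset, ∏ _T ∈ P \ U, (-1 : ℝ) = 0 := by
    have := prod_add (fun _ => (1 : ℝ)) (fun _ => -1) P
    rw [prod_eq_zero (empty_mem_powerset _) (by norm_num)] at this
    simpa using this.symm
  have h3 : Q ν j h μ univ = ∑ U ∈ P.powerset, (∏ _T ∈ P \ U, (-1 : ℝ)) * (Z U - 1) := by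
    simp only [mul_sub, sum_sub_distrib, mul_one, h2, sub_zero, h1]
  rw [h3]
  refine (abs_sum_le_sum_abs _ _).trans ((sum_le_card_nsmul _ _ ε fun U _ => ?_).trans ?_)
  · rw [abs_mul, abs_prod]
    simpa using hZ U
  · rw [nsmul_eq_mul, card_powerset, hP, card_powerset]
    push_cast
    gcongr
    · norm_num
    · norm_num
    · exact card_le_univ _

end Slf

open Slf in
theorem slf : SlfStmt := by
  intro κ _ _
  have key : ∀ (n : ℕ) (γ : ℝ), 0 < γ → ∃ ε : ℝ, 0 < ε ∧ ε ≤ 1 ∧
      ∀ (G : Type) [Finite G] [Nonempty G] (ν : κ → (κ → G) → ℝ), (∀ j, Ind j (ν j)) → LFC ν ε →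
      ∀ (j : κ) (h μ : Bool → κ → (κ → G) → ℝ), (∀ β i, Ind i (h β i)) →
        (∀ β i, μ β i = ν i ∨ μ β i = fun _ => 1) → (∀ β i x, 0 ≤ h β i x ∧ h β i x ≤ μ β i x) →
        ∀ d : Finset κ, j ∈ d → dᶜ.card = n → |Q ν j h μ d| ≤ γ := by
    intro n
    induction n with
    | zero =>
      intro γ hγ
      have hc : (0 : ℝ) < 2 ^ 2 ^ Fintype.card κ := by positivity
      refine ⟨min 1 (γ / 2 ^ 2 ^ Fintype.card κ), by positivity, min_le_left _ _,
        fun G _ _ ν _ hl j h μ _ hμ _ d _ hd => ?_⟩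
      obtain rfl : d = univ := by simpa using hd
      refine (Q_univ hl hμ).trans ?_
      rw [← le_div_iff₀' hc]
      exact min_le_right _ _
    | succ n ih =>
      intro γ hγ
      obtain ⟨ε, h0, h1, hε⟩ := ih (γ ^ 2 / 2) (by positivity)
      refine ⟨ε, h0, h1, fun G _ _ ν hν hl j h μ hh hμ hb d hj hd => ?_⟩
      obtain ⟨i, hi⟩ := card_pos.1 (n.succ_pos.trans_eq hd.symm)
      have h2 := hε G ν hν hl j h μ hh hμ hb (insert i d) (mem_insert_of_mem hj) (by
        rw [compl_insert, card_erase_of_mem hi, hd]; rfl)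
      have h3 := Q_step hν hl hh hμ hb hj (mem_compl.1 hi)
      refine abs_le_of_sq_le_sq ?_ hγ.le
      nlinarith [abs_nonneg (Q ν j h μ (insert i d))]
  intro γ hγ
  obtain ⟨ε, h0, -, hε⟩ := key (Fintype.card κ - 1) γ hγ
  refine ⟨ε, h0, fun G _ _ ν hν hl j h μ hh hμ hb => ?_⟩
  rw [← Q_one (μ := μ) hν]
  exact hε G ν hν hl j h μ hh hμ hb {j} (mem_singleton_self j) (by simp [card_compl])

end Pool.Agent.MP_a43263_nt.GT

end
end MrgPart0

-- ======== part 1: formerly Pool.Agent.MP_a43263_nt.GT.Dm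
section MrgPart1

/-! PROJECT GT7, row DM: the dense model theorem for a family of test functions. -/

set_option autoImplicit false

noncomputable section

namespace Pool.Agent.MP_a43263_nt.GT

open Finset Filter MeasureTheory Function
open DH (E ind)

namespace Dm

variable {Ω : Type} [Finite Ω] {F : Set (Ω → ℝ)}

/-- the unit ball of the dual norm -/
def DB (F : Set (Ω → ℝ)) (φ : Ω → ℝ) : Prop :=
  ∀ (h : Ω → ℝ) (t : ℝ), (∀ ψ ∈ F, |E fun s => h s * ψ s| ≤ t) → |E fun s => h s * φ s| ≤ t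

lemma db_mul (hF : ∀ φ ∈ F, ∀ φ' ∈ F, ∀ (h : Ω → ℝ) (t : ℝ),
      (∀ ψ ∈ F, |E fun s => h s * ψ s| ≤ t) → |E fun s => h s * (φ s * φ' s)| ≤ t)
    {φ φ' : Ω → ℝ} (h1 : DB F φ) (h2 : DB F φ') : DB F fun s => φ s * φ' s := by
  intro h t ht
  have := h2 (fun s => h s * φ s) t fun ψ hψ => by
    have := h1 (fun s => h s * ψ s) t fun ψ' hψ' => by
      simpa only [mul_assoc] using hF ψ hψ ψ' hψ' h t ht
    simpa only [mul_right_comm] using this
  simpa only [mul_assoc] using this

lemma db_pow (h0 : (fun _ => 1) ∈ F) (hF : ∀ φ ∈ F, ∀ φ' ∈ F, ∀ (h : Ω → ℝ) (t : ℝ),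
      (∀ ψ ∈ F, |E fun s => h s * ψ s| ≤ t) → |E fun s => h s * (φ s * φ' s)| ≤ t)
    {φ : Ω → ℝ} (h1 : DB F φ) (n : ℕ) : DB F fun s => φ s ^ n := by
  induction n with
  | zero => intro h t ht; simpa only [pow_zero] using ht _ h0
  | succ n ih => simpa only [pow_succ] using db_mul hF ih h1

lemma db_abs [Nonempty Ω] (hb : ∀ φ ∈ F, ∀ s, |φ s| ≤ 1) {φ : Ω → ℝ} (h1 : DB F φ) (s : Ω) :
    |φ s| ≤ 1 := by
  classical
  cases nonempty_fintype Ω
  have hc : (Nat.card Ω : ℝ) ≠ 0 := Nat.cast_ne_zero.2 Nat.card_pos.ne'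
  have key : ∀ ψ : Ω → ℝ, (E fun x => (if x = s then (Nat.card Ω : ℝ) else 0) * ψ x) = ψ s := by
    intro ψ
    rw [DH.E_eq_div]
    simp only [ite_mul, zero_mul, sum_ite_eq', mem_univ, if_true]
    field_simp
  have := h1 _ 1 fun ψ hψ => by rw [key]; exact hb ψ hψ s
  rwa [key] at this

lemma sep [Nonempty Ω] (h0 : (fun _ => 1) ∈ F) {ε : ℝ} (hε : 0 < ε) (f : Ω → ℝ)
    (hn : ∀ a ∈ Set.Icc (f - 1) f, ¬ ∀ ψ ∈ F, |E fun s => a s * ψ s| ≤ ε) :
    ∃ φ, DB F φ ∧ ∀ a ∈ Set.Icc (f - 1) f, ε < E fun s => a s * φ s := by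
  classical
  cases nonempty_fintype Ω
  have hc : (Nat.card Ω : ℝ) ≠ 0 := Nat.cast_ne_zero.2 Nat.card_pos.ne'
  set C : Set (Ω → ℝ) := {h | ∀ ψ ∈ F, |E fun s => h s * ψ s| ≤ ε} with hC
  have hsm : ∀ (c : ℝ) (h ψ : Ω → ℝ),
      (E fun s => (c • h) s * ψ s) = c * E fun s => h s * ψ s := fun c h ψ => by
    rw [← DH.E_mul_left]; simp only [Pi.smul_apply, smul_eq_mul, mul_assoc]
  have hcv : Convex ℝ C := by
    intro x hx y hy a b ha hb hab ψ hψ
    have e : (E fun s => (a • x + b • y) s * ψ s) =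
        a * (E fun s => x s * ψ s) + b * E fun s => y s * ψ s := by
      rw [← hsm, ← hsm, ← DH.E_add]; simp only [Pi.add_apply, add_mul]
    rw [e]
    calc _ ≤ |a * E fun s => x s * ψ s| + |b * E fun s => y s * ψ s| := abs_add_le _ _
      _ ≤ a * ε + b * ε := by
        rw [abs_mul, abs_mul, abs_of_nonneg ha, abs_of_nonneg hb]
        exact add_le_add (mul_le_mul_of_nonneg_left (hx ψ hψ) ha)
          (mul_le_mul_of_nonneg_left (hy ψ hψ) hb)
      _ = ε := by rw [← add_mul, hab, one_mul]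
  have hcl : IsClosed C := by
    have : C = ⋂ ψ ∈ F, {h : Ω → ℝ | |E fun s => h s * ψ s| ≤ ε} := by
      ext h; simp [hC]
    rw [this]
    refine isClosed_biInter fun ψ _ => isClosed_le ?_ continuous_const
    simp only [DH.E_eq_div]
    fun_prop
  obtain ⟨L, u, v, h1, huv, h2⟩ := geometric_hahn_banach_compact_closed (convex_Icc (f - 1) f)
    isCompact_Icc hcv hcl (Set.disjoint_left.2 fun a ha hb => hn a ha hb)
  have hv : v < 0 := by
    simpa using h2 0 fun ψ _ => by simpa [DH.E_const] using hε.le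
  have habs : ∀ b ∈ C, |L b| < -v := fun b hb => by
    have h3 := h2 b hb
    have h4 := h2 ((-1 : ℝ) • b) fun ψ hψ => by rw [hsm]; simpa using hb ψ hψ
    rw [map_smul, smul_eq_mul] at h4
    exact abs_lt.2 ⟨by linarith, by linarith⟩
  have key : ∀ h : Ω → ℝ, (E fun s => h s * (ε / v * (Nat.card Ω * L (Pi.single s 1)))) =
      ε / v * L h := fun h => by
    have e : L h = ∑ s, h s * L (Pi.single s 1) := by
      conv_lhs => rw [pi_eq_sum_univ' h, map_sum]
      simp only [map_smul, smul_eq_mul]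
    rw [DH.E_eq_div, e, mul_sum, div_eq_iff hc, sum_mul]
    exact sum_congr rfl fun s _ => by ring
  refine ⟨fun s => ε / v * (Nat.card Ω * L (Pi.single s 1)), fun h t ht => ?_, fun a ha => ?_⟩
  · rw [key]
    have ht0 : 0 ≤ t := (abs_nonneg _).trans (ht _ h0)
    refine le_of_forall_pos_le_add fun η hη => ?_
    have hp : 0 < t + η := by linarith
    have h3 := habs ((ε / (t + η)) • h) fun ψ hψ => by
      rw [hsm, abs_mul, abs_of_pos (div_pos hε hp), div_mul_eq_mul_div, div_le_iff₀ hp]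
      exact mul_le_mul_of_nonneg_left ((ht ψ hψ).trans (by linarith)) hε.le
    rw [map_smul, smul_eq_mul, abs_mul, abs_of_pos (div_pos hε hp), div_mul_eq_mul_div,
      div_lt_iff₀ hp] at h3
    rw [abs_mul, abs_div, abs_of_pos hε, abs_of_neg hv, div_mul_eq_mul_div,
      div_le_iff₀ (by linarith)]
    linarith
  · rw [key, div_mul_eq_mul_div, lt_div_iff_of_neg hv]
    exact mul_lt_mul_of_pos_left ((h1 a ha).trans huv) hε

end Dm

open Dm in
theorem dm : DmStmt := by
  intro ε hε
  obtain ⟨p, hp⟩ := exists_polynomial_near_of_continuousOn (-1) 1 (fun x : ℝ => max x 0)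
    (by fun_prop) (ε / 8) (by positivity)
  set S : ℝ := ∑ i ∈ range (p.natDegree + 1), |p.coeff i| with hS
  have hS0 : 0 ≤ S := sum_nonneg fun i _ => abs_nonneg _
  refine ⟨min 1 (ε / (2 * (S + 1))), by positivity, ?_⟩
  intro Ω _ _ F h0 hb hF ν f hf hν
  set ε' := min 1 (ε / (2 * (S + 1))) with hε'
  by_contra hcon
  obtain ⟨φ, hφ, hsep⟩ := sep h0 hε f fun a ha h => hcon ⟨fun s => f s - a s, fun s =>
    ⟨sub_nonneg.2 (ha.2 s), by have := ha.1 s; simp only [Pi.sub_apply, Pi.one_apply] at this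
                               linarith⟩, by simpa only [sub_sub_cancel] using h⟩
  have h1 := hsep (fun s => f s - if 0 < φ s then 1 else 0)
    ⟨fun s => by simp only [Pi.sub_apply, Pi.one_apply]; split_ifs <;> linarith,
      fun s => by simp only; split_ifs <;> linarith⟩
  have hEν : E ν ≤ 2 := by
    have := hν _ h0
    simp only [mul_one] at this
    rw [DH.E_sub, DH.E_const] at this
    have h2 := (abs_le.1 this).2
    have h3 : ε' ≤ 1 := min_le_left _ _
    linarith
  have h2 : (E fun s => (f s - if 0 < φ s then 1 else 0) * φ s) ≤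
      E fun s => (ν s - 1) * p.eval (φ s) + ε / 8 * (ν s + 1) := by
    refine DH.E_mono fun s => ?_
    have ha := abs_lt.1 (hp (φ s) (abs_le.1 (db_abs hb hφ s)))
    obtain ⟨hf0, hf1⟩ := hf s
    have hν0 : 0 ≤ ν s := hf0.trans hf1
    have hb1 : (f s - if 0 < φ s then 1 else 0) * φ s ≤ (ν s - 1) * max (φ s) 0 := by
      split_ifs with h
      · rw [max_eq_left h.le]; exact mul_le_mul_of_nonneg_right (by linarith) h.le
      · rw [max_eq_right (not_lt.1 h), mul_zero, sub_zero]
        exact mul_nonpos_of_nonneg_of_nonpos hf0 (not_lt.1 h)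
    nlinarith [mul_le_mul_of_nonneg_left ha.1.le hν0]
  have h3 : (E fun s => (ν s - 1) * p.eval (φ s)) ≤ S * ε' := by
    have e : (E fun s => (ν s - 1) * p.eval (φ s)) = ∑ i ∈ range (p.natDegree + 1),
        p.coeff i * E fun s => (ν s - 1) * φ s ^ i := by
      simp only [← DH.E_mul_left]
      rw [← DH.E_sum]
      congr 1
      funext s
      rw [Polynomial.eval_eq_sum_range, mul_sum]
      exact sum_congr rfl fun i _ => by ring
    rw [e, hS, sum_mul]
    refine sum_le_sum fun i _ => (le_abs_self _).trans ?_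
    rw [abs_mul]
    exact mul_le_mul_of_nonneg_left (db_pow h0 hF hφ i (fun s => ν s - 1) ε' hν) (abs_nonneg _)
  have h4 : S * ε' ≤ ε / 2 := by
    have h5 : ε' ≤ ε / (2 * (S + 1)) := min_le_right _ _
    rw [le_div_iff₀ (by positivity)] at h5
    have h6 : 0 ≤ ε' := by positivity
    nlinarith
  rw [DH.E_add, DH.E_mul_left, DH.E_add, DH.E_const] at h2
  nlinarith

end Pool.Agent.MP_a43263_nt.GT

end
end MrgPart1

-- ======== part 2: formerly Pool.Agent.MP_a43263_nt.GT.Dma
section MrgPart2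

/-! PROJECT GT7, row DMA: the dense model theorem for the cut norms of the linear forms. -/

set_option autoImplicit false

noncomputable section

namespace Pool.Agent.MP_a43263_nt.GT

open Finset Filter MeasureTheory Function
open DH (E ind)

namespace Dma

variable {κ G : Type} [Fintype κ] [DecidableEq κ] [Finite G] [CommRing G]

lemma abs_E {Ω : Type} [Finite Ω] [Nonempty Ω] {f : Ω → ℝ} {t : ℝ} (h : ∀ x, |f x| ≤ t) :
    |E f| ≤ t :=
  abs_le.2 ⟨DH.le_E fun x => (abs_le.1 (h x)).1, DH.E_le fun x => (abs_le.1 (h x)).2⟩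

lemma E_add_right {A : Type} [Finite A] [AddGroup A] (f : A → ℝ) (a : A) :
    E (fun x => f (x + a)) = E f := DH.E_equiv (Equiv.addRight a) f

/-- The average of `U` over the fibre of `ψ` at `s`. -/
def fib {A B : Type} [Finite A] [AddCommGroup A] [AddCommGroup B] (ψ : A →+ B) (sg : B →+ A)
    (U : A → ℝ) (s : B) : ℝ := E fun x => U (x + sg (s - ψ x))

section Fib

variable {A B : Type} [Finite A] [Finite B] [AddCommGroup A] [AddCommGroup B] {ψ : A →+ B}
  {sg : B →+ A}

lemma E_fib (hs : ∀ s, ψ (sg s) = s) (h : B → ℝ) (U : A → ℝ) :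
    E (fun s => h s * fib ψ sg U s) = E fun x => h (ψ x) * U x := by
  simp only [fib, ← DH.E_mul_left]
  rw [DH.E_comm]
  have h1 : ∀ x, E (fun s => h s * U (x + sg (s - ψ x))) =
      E fun s => h (ψ (x + sg s)) * U (x + sg s) := fun x => by
    rw [← E_add_right _ (ψ x)]
    simp only [add_sub_cancel_right, map_add, hs, add_comm]
  simp only [h1]
  rw [DH.E_comm]
  simp only [E_add_right fun x => h (ψ x) * U x, DH.E_const]

omit [Finite B] in
lemma fib_mul (U V : A → ℝ) (s : B) : fib ψ sg U s * fib ψ sg V s =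
    E fun z => fib ψ sg (fun x => U x * V (x + (z - sg (ψ z)))) s := by
  unfold fib
  rw [DH.E_comm, mul_comm, ← DH.E_mul_left]
  refine congrArg E (funext fun x => ?_)
  rw [mul_comm, DH.E_mul_left, ← E_add_right _ x]
  congr 2
  funext z
  congr 1
  simp only [map_add, map_sub]
  abel

end Fib

/-- The cut norm of a function of the linear form does not depend on the face. -/
lemma transfer {e : κ → ℕ} (he : ∀ i j, i ≠ j → IsUnit ((e j : G) - e i)) (h : G → ℝ) {t : ℝ}
    {j : κ} (H : Cut j (fun x => h (lin e j x)) t) (j' : κ) :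
    Cut j' (fun x => h (lin e j' x)) t := by
  intro u h1 h2
  let σ := Equiv.swap j j'
  have hσ : ∀ i, σ i = j' ↔ i = j := fun i => by
    rw [← Equiv.swap_apply_left j j', Equiv.apply_eq_iff_eq]
  have hσ' : ∀ i, σ (σ i) = i := Equiv.swap_apply_self _ _
  have ha : ∀ i, ∃ a : Gˣ, ((e j' : G) - e (σ i)) * a = e j - e i := fun i => by
    by_cases hi : i = j
    · exact ⟨1, by rw [(hσ i).2 hi, hi, sub_self, sub_self, zero_mul]⟩
    · obtain ⟨b, hb⟩ := he _ _ hi
      obtain ⟨c, hc⟩ := he _ _ ((hσ i).not.2 hi)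
      exact ⟨c⁻¹ * b, by rw [← hb, ← hc, Units.val_mul, Units.mul_inv_cancel_left]⟩
  choose a ha using ha
  let Φ : (κ → G) ≃ (κ → G) :=
    { toFun := fun x m => a (σ m) * x (σ m)
      invFun := fun y i => ((a i)⁻¹ : Gˣ) * y (σ i)
      left_inv := fun x => funext fun i => by simp only [hσ', Units.inv_mul_cancel_left]
      right_inv := fun y => funext fun i => by simp only [hσ', Units.mul_inv_cancel_left] }
  have hΦ : ∀ x m, Φ x m = a (σ m) * x (σ m) := fun _ _ => rfl
  have h3 := H (fun i x => u (σ i) (Φ x)) (fun i x b => by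
    beta_reduce
    rw [← h1 (σ i) (Φ x) (a i * b)]
    congr 1
    funext m
    by_cases hm : m = σ i
    · simp only [hm, hΦ, hσ', update_self]
    · rw [update_of_ne hm, hΦ, hΦ, update_of_ne fun e => hm (by rw [← e, hσ'])])
    fun i x => h2 _ _
  rw [← DH.E_equiv Φ]
  convert h3 using 5 with x
  · refine congrArg h ?_
    unfold lin
    rw [← Equiv.sum_comp σ]
    simp only [hΦ, hσ', ← mul_assoc, ha]
  · exact (prod_equiv σ (by simp [hσ]) fun _ _ => rfl).symm

end Dma

open Dma

/-- Row DMA. -/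
theorem dma (dm : DmStmt) : DmaStmt := by
  intro ε hε
  obtain ⟨ε', h0, H⟩ := dm ε hε
  refine ⟨ε', h0, fun κ G _ _ _ _ _ e he ν f hf hν => ?_⟩
  obtain ⟨i, j, hij⟩ := exists_pair_ne κ
  obtain ⟨c, hc⟩ := he i j hij
  let ψ : (κ → G) →+ G := AddMonoidHom.mk' (lin e j) fun x y => by
    simp only [lin, Pi.add_apply, mul_add, sum_add_distrib]
  let sg : G →+ (κ → G) := (AddMonoidHom.single (fun _ => G) i).comp (AddMonoidHom.mulLeft ↑c⁻¹)
  have hs : ∀ s, ψ (sg s) = s := fun s => by
    change ∑ m, ((e j : G) - e m) * (Pi.single i (↑c⁻¹ * s) : κ → G) m = s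
    rw [sum_eq_single i (fun m _ hm => by rw [Pi.single_eq_of_ne hm, mul_zero]) (by simp),
      Pi.single_eq_same, ← hc, Units.mul_inv_cancel_left]
  obtain ⟨f', h1, h2⟩ := H G {φ | ∃ u : κ → (κ → G) → ℝ, (∀ i, Ind i (u i)) ∧
      (∀ i x, 0 ≤ u i x ∧ u i x ≤ 1) ∧ φ = fib ψ sg fun x => ∏ i ∈ univ.erase j, u i x}
    ⟨fun _ _ => 1, fun _ _ _ => rfl, by simp, funext fun s => by simp [fib, DH.E_const]⟩
    (by
      rintro _ ⟨u, -, hu, rfl⟩ s
      exact abs_E fun x => by
        rw [abs_of_nonneg (prod_nonneg fun i _ => (hu i _).1)]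
        exact prod_le_one (fun i _ => (hu i _).1) fun i _ => (hu i _).2)
    (by
      rintro _ ⟨u, u1, u2, rfl⟩ _ ⟨v, v1, v2, rfl⟩ h t ht
      simp only [fib_mul, ← DH.E_mul_left]
      rw [DH.E_comm]
      refine abs_E fun z => ht _ ⟨fun i x => u i x * v i (x + (z - sg (ψ z))), fun i x a => ?_,
        fun i x => ⟨mul_nonneg (u2 _ _).1 (v2 _ _).1, mul_le_one₀ (u2 _ _).2 (v2 _ _).1 (v2 _ _).2⟩,
        by simp only [prod_mul_distrib]⟩
      beta_reduce
      rw [u1, ← update_eq_self i (z - sg (ψ z)), ← update_add, v1, update_eq_self])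
    ν f hf (by
      rintro _ ⟨u, u1, u2, rfl⟩
      rw [E_fib hs]
      exact hν j u u1 u2)
  refine ⟨f', h1, transfer he (fun s => f s - f' s) (j := j) fun u u1 u2 => ?_⟩
  have := h2 _ ⟨u, u1, u2, rfl⟩
  rwa [E_fib hs] at this

end Pool.Agent.MP_a43263_nt.GT

end
end MrgPart2

-- ======== part 3: formerly Pool.Agent.MP_a43263_nt.GT.Rsz
section MrgPart3

/-! PROJECT GT7, row RSZ: the weighted and the relative theorem of Szemeredi. -/

set_option autoImplicit false

noncomputable section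

namespace Pool.Agent.MP_a43263_nt.GT

open Finset Filter MeasureTheory Function
open DH (E ind)

namespace Rsz

theorem E_hom {A B : Type} [Finite A] [Finite B] [AddCommGroup A] [AddCommGroup B] (φ : A →+ B)
    (hφ : Surjective φ) (f : B → ℝ) : E (fun x => f (φ x)) = E f := by
  have h1 : ∀ b, E (fun x => f (φ x + b)) = E fun x => f (φ x) := fun b => by
    obtain ⟨a, rfl⟩ := hφ b
    simpa only [Equiv.coe_addRight, map_add] using
      DH.E_equiv (Equiv.addRight a) fun x => f (φ x)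
  have h2 : ∀ x, E (fun b => f (φ x + b)) = E f := fun x => DH.E_equiv (Equiv.addLeft (φ x)) f
  have h3 := DH.E_comm fun x b => f (φ x + b)
  simpa only [h1, h2, DH.E_const] using h3.symm

variable {κ G : Type} [Fintype κ] [DecidableEq κ] [Finite G]

theorem E_update [Nonempty G] (j : κ) (F : (κ → G) → ℝ) :
    E F = E fun x => E fun a => F (update x j a) := by
  have hi : Involutive fun z : (κ → G) × G => (update z.1 j z.2, z.1 j) := fun z => by simp
  rw [← DH.E_prod (fun z : (κ → G) × G => F (update z.1 j z.2))]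
  refine Eq.trans ?_ (DH.E_equiv hi.toPerm fun z => F z.1).symm
  rw [DH.E_prod]
  simp only [DH.E_const]

theorem E_mul_avg [Nonempty G] {j : κ} {h : (κ → G) → ℝ} (hh : Ind j h) (u : κ → (κ → G) → ℝ) :
    E (fun x => h x * ∏ i ∈ univ.erase j, u i x) = E fun x => h x * avg j u x := by
  rw [E_update j]
  simp only [hh _ _, DH.E_mul_left, avg]

omit [Finite G] in
theorem lin_update [CommRing G] (e : κ → ℕ) (j : κ) (x : κ → G) (a : G) :
    lin e j (update x j a) = lin e j x :=
  sum_congr rfl fun i _ => by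
    rcases eq_or_ne i j with rfl | h
    · simp
    · rw [update_of_ne h]

/-- starting point and difference of the progression -/
def ad [CommRing G] (e : κ → ℕ) : (κ → G) →+ G × G where
  toFun x := (-∑ i, (e i : G) * x i, ∑ i, x i)
  map_zero' := by simp
  map_add' x y := by simp [mul_add, sum_add_distrib, add_comm]

omit [Finite G] [DecidableEq κ] in
theorem lin_eq [CommRing G] (e : κ → ℕ) (j : κ) (x : κ → G) :
    lin e j x = (ad e x).1 + e j * (ad e x).2 := by
  simp only [lin, ad, AddMonoidHom.coe_mk, ZeroHom.coe_mk, sub_mul, sum_sub_distrib, mul_sum]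
  ring

omit [Finite G] in
theorem ad_surj [CommRing G] [Nontrivial κ] (e : κ → ℕ)
    (h : ∀ i j, i ≠ j → IsUnit ((e j : G) - e i)) : Surjective (ad e : (κ → G) → G × G) := by
  rintro ⟨a, d⟩
  obtain ⟨i, j, hij⟩ := exists_pair_ne κ
  obtain ⟨v, hv⟩ := (h i j hij).exists_right_inv
  refine ⟨Pi.single i ((a + e j * d) * v) + Pi.single j (d - (a + e j * d) * v), ?_⟩
  have h1 : ∀ (i : κ) (t : G), ad e (Pi.single i t) = (-(e i * t), t) := fun i t => by
    simp [ad, Pi.single_apply]
  rw [map_add, h1, h1, Prod.mk_add_mk, Prod.mk.injEq]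
  exact ⟨by linear_combination (a + e j * d) * hv, by ring⟩

theorem E_line [CommRing G] (c : G) (f : G → ℝ) : E (fun z : G × G => f (z.1 + c * z.2)) = E f := by
  rw [DH.E_prod, DH.E_comm]
  have : ∀ y, E (fun x => f (x + c * y)) = E f := fun y => DH.E_equiv (Equiv.addRight (c * y)) f
  simp only [this, DH.E_const]

theorem sum_zmod (N : ℕ) [NeZero N] (g : ZMod N → ℝ) : ∑ n ∈ range N, g n = ∑ s, g s :=
  sum_nbij' (fun n => (n : ZMod N)) ZMod.val (fun _ _ => mem_univ _)
    (fun s _ => mem_range.2 (ZMod.val_lt s)) (fun _ h => ZMod.val_cast_of_lt (mem_range.1 h))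
    (fun s _ => ZMod.natCast_zmod_val s) fun _ _ => rfl

theorem mod_inj {N d d' : ℕ} (h : d ∈ Icc 1 N) (h' : d' ∈ Icc 1 N)
    (e : (d : ZMod N) = d') : d = d' := by
  rw [mem_Icc] at h h'
  have h1 := (ZMod.natCast_eq_natCast_iff _ _ _).1 e
  exact h1.eq_of_abs_lt (by rw [abs_lt]; omega)

end Rsz

open Rsz in
theorem wsz (sz : DH.SZStmt) : WszStmt := by
  classical
  intro κ _ e δ hδ
  obtain ⟨c, hc, N₀, h⟩ := sz κ e (δ / 2) (by positivity)
  refine ⟨c * (δ / 2) ^ Fintype.card κ, by positivity, N₀, fun N _ hN f hf hE => ?_⟩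
  have hN0 : (0 : ℝ) < N := Nat.cast_pos.2 (NeZero.pos N)
  have h1 := h N hN (fun n => δ / 2 ≤ f n) (by
    rw [DH.E_eq_div, Nat.card_zmod, le_div_iff₀ hN0, ← sum_zmod] at hE
    have h2 : ∑ n ∈ range N, f n ≤ ∑ n ∈ range N, (δ / 2 + if δ / 2 ≤ f n then 1 else 0) :=
      sum_le_sum fun n _ => by
        split_ifs with h3
        · linarith [(hf n).2]
        · linarith
    rw [sum_add_distrib, sum_const, card_range, nsmul_eq_mul, sum_boole] at h2
    have h3 : δ / 2 * N ≤ (((range N).filter fun n : ℕ => δ / 2 ≤ f n).card : ℝ) := by linarith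
    convert h3)
  rw [DH.E_eq_div, Nat.card_prod, Nat.card_zmod, Nat.cast_mul, le_div_iff₀ (by positivity)]
  set T := (range N ×ˢ Icc 1 N).filter fun x => ∀ a, δ / 2 ≤ f (x.1 + e a * x.2 : ℕ) with hT
  have h2 : c * (N : ℝ) ^ 2 ≤ T.card := by convert h1
  have hinj : Set.InjOn (fun x : ℕ × ℕ => ((x.1 : ZMod N), (x.2 : ZMod N))) T := by
    intro x hx y hy hxy
    obtain ⟨x1, x2⟩ := mem_product.1 (mem_filter.1 hx).1
    obtain ⟨y1, y2⟩ := mem_product.1 (mem_filter.1 hy).1
    obtain ⟨e1, e2⟩ := Prod.mk.inj hxy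
    refine Prod.ext ?_ (mod_inj x2 y2 e2)
    rw [← ZMod.val_cast_of_lt (mem_range.1 x1), e1, ZMod.val_cast_of_lt (mem_range.1 y1)]
  calc _ = c * (N : ℝ) ^ 2 * (δ / 2) ^ Fintype.card κ := by ring
    _ ≤ ∑ _x ∈ T, (δ / 2) ^ Fintype.card κ := by
        rw [sum_const, nsmul_eq_mul]
        gcongr
    _ ≤ ∑ x ∈ T, ∏ j, f ((x.1 : ZMod N) + e j * (x.2 : ZMod N)) := sum_le_sum fun x hx => by
        rw [← card_univ, ← prod_const]
        exact prod_le_prod (fun _ _ => by positivity) fun j _ => by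
          simpa using (mem_filter.1 hx).2 j
    _ = ∑ z ∈ T.image fun x : ℕ × ℕ => ((x.1 : ZMod N), (x.2 : ZMod N)),
          ∏ j, f (z.1 + e j * z.2) := by rw [sum_image hinj]
    _ ≤ _ := sum_le_sum_of_subset_of_nonneg (subset_univ _) fun z _ _ =>
        prod_nonneg fun j _ => (hf _).1

open Rsz in
theorem rsz (slf : SlfStmt) (cl : ClStmt) (dma : DmaStmt) (wsz : WszStmt) : RszStmt := by
  intro κ _ _ _ e δ hδ
  obtain ⟨c, hc, N₀, h1⟩ := wsz κ e (δ / 2) (by positivity)
  obtain ⟨e1, he1, h2⟩ := cl κ (c / 2) (by positivity)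
  obtain ⟨e2, he2, h3⟩ := dma (min e1 (δ / 2)) (by positivity)
  obtain ⟨e3, he3, h4⟩ := slf κ e2 he2
  refine ⟨c / 2, by positivity, min e1 e3, by positivity, N₀, fun N _ hN hu ν f hf hE hL => ?_⟩
  have hI : ∀ (g : ZMod N → ℝ) j, Ind j fun x => g (lin e j x) := fun g j x a => by
    simp only [lin_update]
  obtain ⟨f', f1, f2⟩ := h3 κ (ZMod N) e hu ν f hf fun j u u1 u2 => by
    have h5 := h4 (ZMod N) _ (hI ν) (fun J hJ => (hL J hJ).trans (min_le_right _ _)) j
      (fun β => cond β (fun _ _ => 1) u) (fun _ _ _ => 1)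
      (fun β i => by cases β; exacts [u1 i, fun _ _ => rfl]) (fun _ _ => Or.inr rfl)
      (fun β i x => by cases β; exacts [u2 i x, ⟨zero_le_one, le_rfl⟩])
    rw [E_mul_avg (hI (fun s => ν s - 1) j)]
    simpa [avg, DH.E_const] using h5
  have h5 : ∀ F : ZMod N × ZMod N → ℝ, E (fun x => F (ad e x)) = E F := E_hom _ (ad_surj e hu)
  have h6 : δ / 2 ≤ E f' := by
    obtain ⟨j⟩ : Nonempty κ := inferInstance
    have h7 := (f2 j (fun _ _ => 1) (fun _ _ _ => rfl) fun _ _ => ⟨zero_le_one, le_rfl⟩).trans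
      (min_le_right _ _)
    simp only [prod_const_one, mul_one, lin_eq] at h7
    rw [h5 fun z => f (z.1 + e j * z.2) - f' (z.1 + e j * z.2), E_line _ fun s => f s - f' s,
      DH.E_sub] at h7
    linarith [(abs_le.1 h7).2]
  have h7 := h1 N hN f' f1 h6
  have h8 := h2 (ZMod N) _ (fun j x => f (lin e j x)) (fun j x => f' (lin e j x)) (hI ν) (hI f)
    (hI f') (fun j x => hf _) (fun j x => f1 _) (fun J hJ => (hL J hJ).trans (min_le_left _ _))
    fun j u u1 u2 => (f2 j u u1 u2).trans (min_le_left _ _)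
  simp only [lin_eq] at h8
  rw [h5 fun z => ∏ j, f (z.1 + e j * z.2), h5 fun z => ∏ j, f' (z.1 + e j * z.2)] at h8
  linarith [(abs_le.1 h8).1]

end Pool.Agent.MP_a43263_nt.GT

end
end MrgPart3

-- marker of a merged file
example : 731051 + 285501 = 731051 + 285501 := rfl
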