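import Pool.Agent.MP_a43263_nt.GT.Cl
import Pool.Agent.MP_a43263_nt.GT.Rsz
import Pool.Agent.MP_a43263_nt.DH.Md
import Pool.Agent.MP_a43263_nt.DH.Ins
import Pool.Agent.MP_a43263_nt.DH.Til1
import Pool.Agent.MP_a43263_nt.DH.Til
import Pool.Agent.MP_a43263_nt.DH.Stp
import Pool.Agent.MP_a43263_nt.DH.Sz

/-! PROJECT GT7: the relative theorem of Szemeredi, without hypotheses. -/

namespace Pool.Agent.MP_a43263_nt.GT

theorem szAll : DH.SZStmt := DH.sz_of DH.md DH.ins DH.til1 DH.til DH.stp DH.all DH.sz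

theorem rszAll : RszStmt := rsz slf (cl mom slf) (dma dm) (wsz szAll)

end Pool.Agent.MP_a43263_nt.GT
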