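import Pool.Agent.MP_a43263_nt.GT.Spec

/-! PROJECT GT7: the majorant in abstract form. -/

set_option autoImplicit false

namespace Pool.Agent.MP_a43263_nt.GT

open Function

/-- There is a majorant that satisfies the linear forms condition and is large at the primes. -/
def Pse2Stmt : Prop := ∀ (κ : Type) [Fintype κ] [DecidableEq κ] [Nontrivial κ]
  (e : κ → ℕ), Injective e → ∃ η : ℝ, 0 < η ∧ η ≤ 1 / 2 ∧ ∀ ε : ℝ, 0 < ε → ∃ w N₀ : ℕ,
  ∀ (N : ℕ) [NeZero N], N₀ ≤ N → (∀ i j, i ≠ j → IsUnit ((e j : ZMod N) - e i)) →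
  ∀ b : ℕ, ∃ ν : ZMod N → ℝ, (∀ n, 0 ≤ ν n) ∧
    (∀ n : ZMod N, (primorial w * n.val + b).Prime →
      Real.exp (η * Real.log N) < (primorial w * n.val + b : ℕ) →
      rho w * (η * Real.log N) ≤ ν n) ∧
    LFC (fun j (x : κ → ZMod N) => ν (lin e j x)) ε

end Pool.Agent.MP_a43263_nt.GT
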