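import Pool.Agent.MP_a43263_nt.GT.Spec

/-! PROJECT GT7: the majorant for rough numbers and the counting form of the output. -/

set_option autoImplicit false

namespace Pool.Agent.MP_a43263_nt.GT

open Function

/-- A majorant with the linear forms condition that is large at the rough numbers. -/
def Pse3Stmt : Prop := ∀ (κ : Type) [Fintype κ] [DecidableEq κ] [Nontrivial κ]
  (e : κ → ℕ), Injective e → ∃ η₀ : ℝ, 0 < η₀ ∧ η₀ ≤ 1 / 2 ∧ ∀ η : ℝ, 0 < η → η ≤ η₀ →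
  ∀ ε : ℝ, 0 < ε → ∃ w N₀ : ℕ,
  ∀ (N : ℕ) [NeZero N], N₀ ≤ N → (∀ i j, i ≠ j → IsUnit ((e j : ZMod N) - e i)) →
  ∀ b : ℕ, ∃ ν : ZMod N → ℝ, (∀ n, 0 ≤ ν n) ∧
    (∀ n : ZMod N, (∀ p : ℕ, p.Prime → p ∣ primorial w * n.val + b →
      Real.exp (η * Real.log N) < p) → rho w * (η * Real.log N) ≤ ν n) ∧
    LFC (fun j (x : κ → ZMod N) => ν (lin e j x)) ε

open Classical in
/-- THE OUTPUT: dense sets of rough numbers contain many copies of a given pattern. -/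
def GTCStmt : Prop := ∀ (κ : Type) [Fintype κ] [DecidableEq κ] [Nontrivial κ]
  (e : κ → ℕ), Injective e → ∀ θ δ : ℝ, 0 < θ → 0 < δ → ∃ c : ℝ, 0 < c ∧ ∃ X₀ : ℕ,
  ∀ X : ℕ, X₀ ≤ X → ∀ A : Finset ℕ,
    (∀ n ∈ A, 1 ≤ n ∧ n ≤ X ∧ ∀ p : ℕ, p.Prime → p ∣ n → (X : ℝ) ^ θ < p) →
    δ * X / Real.log X ≤ A.card →
    c * (X : ℝ) ^ 2 / Real.log X ^ Fintype.card κ ≤
      (((Fintype.piFinset fun _ : κ => A).filter
        fun l => ∃ a d : ℤ, ∀ j, (l j : ℤ) = a + e j * d).card : ℝ)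

end Pool.Agent.MP_a43263_nt.GT
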