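import Pool.Agent.MP_a43263_nt.DH.Spec
import Mathlib.Data.ZMod.Basic
import Mathlib.Algebra.Order.BigOperators.Ring.Finset

/-! From boxes of integers to the cyclic group, by averaging over shifts. -/

set_option autoImplicit false

noncomputable section

namespace Pool.Agent.MP_a43263_nt.GT

open Finset DH

namespace WrapH

theorem shift {G Ω : Type} [AddCommGroup G] [Finite G] [Finite Ω] [Nonempty Ω] (s : Ω → G)
    (F : G → ℝ) : E F = E fun x => E fun y => F (x + s y) := by
  rw [E_comm]
  have h : ∀ y, E (fun x => F (x + s y)) = E F := fun y => E_equiv (Equiv.addRight (s y)) F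
  simp only [h, E_const]

theorem abs_E_sub_le {Ω : Type} [Finite Ω] [Nonempty Ω] {f g : Ω → ℝ} {c : ℝ}
    (h : ∀ x, |f x - c| ≤ g x) : |E f - c| ≤ E g := by
  have e : E f - c = E fun x => f x - c := by rw [E_sub, E_const]
  have h1 : E (fun x => f x - c) ≤ E g := E_mono fun x => (abs_le.1 (h x)).2
  have h2 : E (fun x => (-1) * g x) ≤ E fun x => f x - c :=
    E_mono fun x => by have := (abs_le.1 (h x)).1; linarith
  rw [E_mul_left] at h2
  rw [e, abs_le]
  constructor <;> linarith

/-- a form with a unit coefficient is uniformly distributed -/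
theorem unif {T : Type} [Fintype T] {N : ℕ} [NeZero N] (a : T → ZMod N) (hu : ∃ t, IsUnit (a t))
    (g : ZMod N → ℝ) : E (fun x : T → ZMod N => g (∑ t, a t * x t)) = E g := by
  classical
  obtain ⟨t0, u, hu⟩ := hu
  rw [shift (Ω := ZMod N) (fun z => Pi.single t0 ((u⁻¹ : (ZMod N)ˣ) * z))]
  have h : ∀ (x : T → ZMod N) (z : ZMod N),
      ∑ t, a t * (x + (Pi.single t0 (((u⁻¹ : (ZMod N)ˣ) : ZMod N) * z) : T → ZMod N)) t
        = ∑ t, a t * x t + z := by
    intro x z
    simp only [Pi.add_apply, mul_add, sum_add_distrib]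
    congr 1
    rw [sum_eq_single t0 (fun t _ ht => by rw [Pi.single_eq_of_ne ht, mul_zero])
      (fun h => absurd (mem_univ _) h), Pi.single_eq_same, ← hu, Units.mul_inv_cancel_left]
  simp only [h]
  have h2 : ∀ c : ZMod N, E (fun z => g (c + z)) = E g := fun c => E_equiv (Equiv.addLeft c) g
  simp only [h2, E_const]

theorem edge {N : ℕ} [NeZero N] (L : ℕ) :
    E (fun z : ZMod N => ind (z.val < L ∨ N ≤ z.val + L)) ≤ 2 * L / N := by
  classical
  rw [E_eq_div, Nat.card_zmod]
  refine div_le_div_of_nonneg_right ?_ (Nat.cast_nonneg N)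
  have e : ∑ z : ZMod N, ind (z.val < L ∨ N ≤ z.val + L)
      = ((univ.filter fun z : ZMod N => z.val < L ∨ N ≤ z.val + L).card : ℝ) := by
    rw [card_filter, Nat.cast_sum]
    refine sum_congr rfl fun z _ => ?_
    unfold ind
    split_ifs <;> simp
  rw [e]
  have h : (univ.filter fun z : ZMod N => z.val < L ∨ N ≤ z.val + L).card
      ≤ (range L ∪ Ico (N - L) N).card := by
    refine card_le_card_of_injOn ZMod.val (fun z hz => ?_) (ZMod.val_injective N).injOn
    have h1 := (mem_filter.1 (mem_coe.1 hz)).2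
    have h2 := ZMod.val_lt z
    rw [mem_coe, mem_union, mem_range, mem_Ico]
    omega
  have h3 := card_union_le (range L) (Ico (N - L) N)
  rw [card_range, Nat.card_Ico] at h3
  have h4 : (univ.filter fun z : ZMod N => z.val < L ∨ N ≤ z.val + L).card ≤ 2 * L := by omega
  exact_mod_cast h4

theorem val_add {N : ℕ} [NeZero N] (z : ZMod N) (d : ℤ) (L : ℕ) (hd : |d| ≤ L)
    (h : ¬(z.val < L ∨ N ≤ z.val + L)) : (((z + (d : ZMod N)).val : ℕ) : ℤ) = z.val + d := by
  have e : z + (d : ZMod N) = (((z.val : ℤ) + d : ℤ) : ZMod N) := by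
    push_cast
    rw [ZMod.natCast_zmod_val]
  rw [e, ZMod.val_intCast]
  have := abs_le.1 hd
  exact Int.emod_eq_of_lt (by omega) (by omega)

end WrapH

open WrapH

/-- the estimate on all boxes of side `H` gives the estimate on `ZMod N` -/
theorem wrap {J T : Type} [Fintype J] [Fintype T] (a : J → T → ℤ) (K N H : ℕ) [NeZero N]
    (ν : ℤ → ℝ) (B η : ℝ) (h0 : ∀ n, 0 ≤ ν n) (hB : ∀ n, ν n ≤ B) (hB1 : 1 ≤ B)
    (hK : ∀ j t, |a j t| ≤ K) (hu : ∀ j, ∃ t, IsUnit (a j t : ZMod N)) (hH : 0 < H)
    (box : ∀ c : J → ℤ,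
      |E (fun y : T → Fin H => ∏ j, ν (c j + ∑ t, a j t * ((y t : ℕ) : ℤ))) - 1| ≤ η) :
    |E (fun x : T → ZMod N => ∏ j, ν (((∑ t, (a j t : ZMod N) * x t).val : ℕ) : ℤ)) - 1| ≤
      η + B ^ Fintype.card J *
        (2 * Fintype.card J * (Fintype.card T * K * H : ℕ) / N) := by
  have : Nonempty (Fin H) := ⟨⟨0, hH⟩⟩
  set L : ℕ := Fintype.card T * K * H with hL
  have hη : 0 ≤ η := (abs_nonneg _).trans (box 0)
  have hBm : 1 ≤ B ^ Fintype.card J := one_le_pow₀ hB1
  rw [shift (Ω := T → Fin H) (fun y t => ((y t : ℕ) : ZMod N))]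
  set bad : J → (T → ZMod N) → Prop := fun j x =>
    (∑ t, (a j t : ZMod N) * x t).val < L ∨ N ≤ (∑ t, (a j t : ZMod N) * x t).val + L with hbad
  refine (abs_E_sub_le (g := fun x => η + B ^ Fintype.card J * ∑ j, ind (bad j x))
    fun x => ?_).trans ?_
  · have hs : 0 ≤ ∑ j, ind (bad j x) := sum_nonneg fun j _ => ind_nonneg _
    by_cases hx : ∃ j, bad j x
    · obtain ⟨j, hj⟩ := hx
      have h1 : 1 ≤ ∑ j, ind (bad j x) := by
        rw [← ind_true hj]
        exact single_le_sum (f := fun j => ind (bad j x)) (fun j _ => ind_nonneg _) (mem_univ j)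
      refine (abs_E_sub_le (g := fun _ => B ^ Fintype.card J) fun y => ?_).trans ?_
      · have h2 : ∀ f : J → ℤ, |∏ j, ν (f j) - 1| ≤ B ^ Fintype.card J := fun f => by
          have h3 : 0 ≤ ∏ j, ν (f j) := prod_nonneg fun j _ => h0 _
          have h4 : ∏ j, ν (f j) ≤ B ^ Fintype.card J := by
            rw [← card_univ, ← prod_const]
            exact prod_le_prod (fun j _ => h0 _) fun j _ => hB _
          rw [abs_le]
          constructor <;> linarith
        exact h2 _
      · rw [E_const]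
        nlinarith
    · push Not at hx
      have h1 := box fun j => ((∑ t, (a j t : ZMod N) * x t).val : ℕ)
      have h2 : ∀ (y : T → Fin H) (j : J),
          (((∑ t, (a j t : ZMod N) * (x + fun t => ((y t : ℕ) : ZMod N)) t).val : ℕ) : ℤ)
          = ((∑ t, (a j t : ZMod N) * x t).val : ℕ) + ∑ t, a j t * ((y t : ℕ) : ℤ) := by
        intro y j
        rw [← val_add _ _ L ?_ (hx j)]
        · congr 2
          simp only [Pi.add_apply, mul_add, sum_add_distrib]
          push_cast
          rfl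
        · refine (abs_sum_le_sum_abs _ _).trans ?_
          have h3 : ∀ t ∈ (univ : Finset T), |a j t * ((y t : ℕ) : ℤ)| ≤ (K : ℤ) * H := fun t _ => by
            rw [abs_mul, Nat.abs_cast]
            exact mul_le_mul (hK j t) (by exact_mod_cast (y t).2.le) (Nat.cast_nonneg _)
              (Nat.cast_nonneg _)
          refine (sum_le_card_nsmul _ _ _ h3).trans (le_of_eq ?_)
          rw [hL, card_univ, nsmul_eq_mul]
          push_cast
          ring
      simp only [h2]
      have : 0 ≤ B ^ Fintype.card J * ∑ j, ind (bad j x) := by positivity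
      linarith
  · rw [E_add, E_const, E_mul_left, E_sum]
    have h1 : ∀ j ∈ (univ : Finset J), E (fun x => ind (bad j x)) ≤ 2 * L / N := fun j _ =>
      (unif (fun t => (a j t : ZMod N)) (hu j)
        (fun z => ind (z.val < L ∨ N ≤ z.val + L))).trans_le (edge L)
    have h2 := sum_le_card_nsmul _ _ _ h1
    rw [card_univ, nsmul_eq_mul] at h2
    have e : (Fintype.card J : ℝ) * (2 * L / N) = 2 * Fintype.card J * (L : ℝ) / N := by ring
    rw [e] at h2
    gcongr

end Pool.Agent.MP_a43263_nt.GT
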