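import Mathlib
import Pool.Agent.MP_a43263_nt.GT.Spec

/-! PROJECT GT7, row BOX: means of periodic functions over boxes. -/

set_option autoImplicit false

noncomputable section

namespace Pool.Agent.MP_a43263_nt.GT

open Finset Filter MeasureTheory Function
open DH (E ind)

namespace Box

variable {τ M : Type} [Fintype τ] [DecidableEq τ] [Field M]

/-- a surjective homomorphism of finite groups preserves means -/
theorem mean_hom [CharZero M] {A B : Type} [AddGroup A] [AddGroup B] [Fintype A] [Fintype B]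
    (φ : A →+ B) (hφ : Surjective φ) (f : B → M) :
    (∑ a, f (φ a)) / (Fintype.card A : M) = (∑ b, f b) / (Fintype.card B : M) := by
  classical
  have h1 : ∀ b, (univ.filter fun a => φ a = b).card = (univ.filter fun a => φ a = 0).card :=
    fun b => AddMonoidHom.card_fiber_eq_of_mem_range φ (hφ b) (hφ 0)
  have h2 : ∀ g : B → M, ∑ a, g (φ a) =
      ((univ.filter fun a => φ a = 0).card : M) * ∑ b, g b := by
    intro g
    rw [← sum_fiberwise univ φ, mul_sum]
    refine sum_congr rfl fun b _ => ?_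
    rw [sum_congr rfl fun a ha => congrArg g (mem_filter.1 ha).2, sum_const, h1, nsmul_eq_mul]
  have h3 := h2 fun _ => 1
  simp only [sum_const, card_univ, nsmul_eq_mul, mul_one] at h3
  have h4 : (Fintype.card A : M) ≠ 0 := Nat.cast_ne_zero.2 Fintype.card_ne_zero
  rw [h2 f, h3, mul_div_mul_left]
  exact fun e => h4 (by rw [h3, e, zero_mul])

/-- the least representatives -/
def vl {D : ℕ} (z : τ → ZMod D) : τ → ℤ := fun t => ((z t).val : ℤ)

theorem box_eq (D : ℕ) [NeZero D] (F : (τ → ℤ) → M) :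
    box D F = (∑ z : τ → ZMod D, F (vl z)) / (Fintype.card (τ → ZMod D) : M) := by
  obtain ⟨n, rfl⟩ := Nat.exists_eq_succ_of_ne_zero (NeZero.ne D)
  rw [Fintype.card_fun, ZMod.card, Nat.cast_pow, box]
  congr 1

/-- reduction -/
def red (τ : Type) {D P : ℕ} (h : D ∣ P) : (τ → ZMod P) →+ (τ → ZMod D) :=
  (ZMod.castHom h (ZMod D)).toAddMonoidHom.compLeft τ

omit [Fintype τ] [DecidableEq τ] in
theorem red_nat {D P : ℕ} (h : D ∣ P) (c : τ → ℕ) :
    red τ h (fun t => (c t : ZMod P)) = fun t => (c t : ZMod D) :=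
  funext fun t => map_natCast (ZMod.castHom h (ZMod D)) (c t)

omit [Fintype τ] [DecidableEq τ] [Field M] in
theorem per_red {D P : ℕ} [NeZero D] [NeZero P] (h : D ∣ P) {F : (τ → ℤ) → M} (hF : Per D F)
    (z : τ → ZMod P) : F (vl z) = F (vl (red τ h z)) := by
  refine hF _ _ fun t => (ZMod.intCast_eq_intCast_iff_dvd_sub _ _ _).1 ?_
  simp only [vl, Int.cast_natCast, ZMod.natCast_zmod_val]
  rw [ZMod.natCast_val]
  rfl

theorem box_mul [CharZero M] {m n : ℕ} (hm : m ≠ 0) (hn : n ≠ 0) (h : m.Coprime n)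
    {F G : (τ → ℤ) → M} (hF : Per m F) (hG : Per n G) :
    box (m * n) (fun y => F y * G y) = box m F * box n G := by
  have : NeZero m := ⟨hm⟩
  have : NeZero n := ⟨hn⟩
  have : NeZero (m * n) := ⟨mul_ne_zero hm hn⟩
  have hs : Surjective ((red τ (dvd_mul_right m n)).prod (red τ (dvd_mul_left n m))) := by
    rintro ⟨u, v⟩
    refine ⟨fun t => ((Nat.chineseRemainder h (u t).val (v t).val : ℕ) : ZMod (m * n)), ?_⟩
    rw [AddMonoidHom.prod_apply, red_nat, red_nat]
    refine Prod.ext (funext fun t => ?_) (funext fun t => ?_)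
    · exact ((ZMod.natCast_eq_natCast_iff _ _ _).2 (Nat.chineseRemainder h _ _).2.1).trans
        (ZMod.natCast_zmod_val _)
    · exact ((ZMod.natCast_eq_natCast_iff _ _ _).2 (Nat.chineseRemainder h _ _).2.2).trans
        (ZMod.natCast_zmod_val _)
  have e := mean_hom _ hs fun w => F (vl w.1) * G (vl w.2)
  rw [box_eq, box_eq, box_eq, div_mul_div_comm, sum_mul_sum, ← Nat.cast_mul, ← Fintype.card_prod,
    ← Fintype.sum_prod_type', ← e]
  congr 1
  exact sum_congr rfl fun z _ => by
    rw [per_red (dvd_mul_right m n) hF, per_red (dvd_mul_left n m) hG]; rfl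

/-- the linear part modulo `p` -/
def lp (p : ℕ) (ψ : τ → ℤ) : (τ → ZMod p) →+ ZMod p where
  toFun z := ∑ t, (ψ t : ZMod p) * z t
  map_zero' := by simp
  map_add' x y := by simp only [Pi.add_apply, mul_add, sum_add_distrib]

theorem lp_single (p : ℕ) (ψ : τ → ℤ) (t : τ) (x : ZMod p) :
    lp p ψ (Pi.single t x) = ψ t * x := by
  simp [lp, Pi.single_apply]

omit [DecidableEq τ] in
theorem dvd_aff (p : ℕ) [NeZero p] (ψ : τ → ℤ) (b : ℤ) (z : τ → ZMod p) :
    (p : ℤ) ∣ aff ψ b (vl z) ↔ lp p ψ z = -(b : ZMod p) := by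
  rw [← ZMod.intCast_zmod_eq_zero_iff_dvd, eq_neg_iff_add_eq_zero]
  simp [aff, vl, lp]

theorem sum_ind {B : Type} [Fintype B] (c : B) : ∑ s, ind (s = c) = 1 := by
  classical
  simp [ind]

end Box

open Box

theorem per : PerStmt := by
  intro τ M _ _ _ _ D P F hP h hF
  have : NeZero P := ⟨hP.ne'⟩
  have : NeZero D := ⟨ne_zero_of_dvd_ne_zero hP.ne' h⟩
  have hs : Surjective (red τ h) := fun u =>
    ⟨fun t => ((u t).val : ZMod P), (red_nat h _).trans (funext fun t => ZMod.natCast_zmod_val _)⟩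
  rw [box_eq, box_eq, ← mean_hom _ hs fun w => F (vl w)]
  congr 1
  exact sum_congr rfl fun z _ => per_red h hF z

theorem crt : CrtStmt := by
  intro τ M _ _ _ _ S F
  induction S using Finset.induction_on with
  | empty => intro _ _; simp only [prod_empty]; simp [box]
  | insert p S hp ih =>
    intro h1 h2
    have h3 : ∀ q ∈ S, q.Prime := fun q hq => h1 q (mem_insert_of_mem hq)
    have h4 : ∀ q ∈ S, Per q (F q) := fun q hq => h2 q (mem_insert_of_mem hq)
    have h5 := h1 p (mem_insert_self _ _)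
    simp only [prod_insert hp]
    rw [box_mul h5.ne_zero (prod_ne_zero_iff.2 fun q hq => (h3 q hq).ne_zero)
      (Nat.Coprime.prod_right fun q hq => (Nat.coprime_primes h5 (h3 q hq)).2
        fun e => hp (e ▸ hq)) (h2 p (mem_insert_self _ _))
      (fun y y' hy => prod_congr rfl fun q hq => h4 q hq y y' fun t =>
        (Int.natCast_dvd_natCast.2 (dvd_prod_of_mem _ hq)).trans (hy t)), ih h3 h4]

theorem cnt : CntStmt := by
  intro τ _ _ p ψ ψ' b b' hp
  have : Fact p.Prime := ⟨hp⟩
  refine ⟨fun ⟨t, ht⟩ => ?_, fun ⟨t, t', ht⟩ => le_of_eq ?_⟩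
  · rw [← ZMod.intCast_zmod_eq_zero_iff_dvd] at ht
    have hs : Surjective (lp p ψ) := fun s =>
      ⟨Pi.single t (s / ψ t), by rw [lp_single, mul_div_cancel₀ _ ht]⟩
    have e := mean_hom _ hs fun s => ind (s = -(b : ZMod p))
    rw [sum_ind, ZMod.card, one_div] at e
    simp only [box_eq, dvd_aff, e]
  · rw [← ZMod.intCast_zmod_eq_zero_iff_dvd] at ht
    push_cast at ht
    have hs : Surjective ((lp p ψ).prod (lp p ψ')) := by
      rintro ⟨s, s'⟩
      refine ⟨Pi.single t ((s * ψ' t' - s' * ψ t') / (ψ t * ψ' t' - ψ t' * ψ' t)) +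
        Pi.single t' ((ψ t * s' - ψ' t * s) / (ψ t * ψ' t' - ψ t' * ψ' t)), ?_⟩
      have ht' : (ψ t * ψ' t' - ψ t' * ψ' t : ZMod p) ≠ 0 := ht
      simp only [AddMonoidHom.prod_apply, map_add, lp_single, Prod.mk_add_mk, Prod.mk.injEq]
      constructor <;> rw [mul_div_assoc', mul_div_assoc', ← add_div, div_eq_iff ht'] <;> ring
    have e := mean_hom _ hs fun s => ind (s = (-(b : ZMod p), -(b' : ZMod p)))
    rw [sum_ind, Fintype.card_prod, ZMod.card, one_div] at e
    simp only [AddMonoidHom.prod_apply, Prod.mk.injEq] at e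
    simp only [box_eq, dvd_aff, e]
    rw [Nat.cast_mul, mul_inv, sq]

end Pool.Agent.MP_a43263_nt.GT
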