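import Mathlib
import Pool.Agent.MP_a43263_nt.GT.Spec

/-! PROJECT GT7, row DIR: primes in a residue class have positive upper density. -/

set_option autoImplicit false

noncomputable section

namespace Pool.Agent.MP_a43263_nt.GT

open Finset Filter

namespace DirP

theorem block {δ x : ℝ} (hx : 1 < x) {j : ℕ} {T U : Finset ℕ} (hTU : T ⊆ U)
    (hU : (U.card : ℝ) ≤ δ * (2 ^ (j + 1) : ℕ) / Real.log (2 ^ (j + 1) : ℕ))
    (hT : ∀ n ∈ T, 2 ^ j ≤ n ∧ n < 2 ^ (j + 1)) :
    ∑ n ∈ T, Real.log n / (n : ℝ) ^ x ≤ 2 * δ * ((2 : ℝ) ^ (1 - x)) ^ j := by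
  have h1 : (1 : ℝ) < (2 ^ (j + 1) : ℕ) := by exact_mod_cast Nat.one_lt_two_pow (by omega)
  have hL := Real.log_pos h1
  have h2 : (0 : ℝ) < ((2 : ℝ) ^ j) ^ x := by positivity
  have h3 : ∀ n ∈ T, Real.log n / (n : ℝ) ^ x ≤ Real.log (2 ^ (j + 1) : ℕ) / ((2 : ℝ) ^ j) ^ x := by
    intro n hn
    have a1 : (2 : ℝ) ^ j ≤ n := by exact_mod_cast (hT n hn).1
    have a0 : (0 : ℝ) < n := lt_of_lt_of_le (by positivity) a1
    exact div_le_div₀ hL.le (Real.log_le_log a0 (by exact_mod_cast (hT n hn).2.le)) h2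
      (Real.rpow_le_rpow (by positivity) a1 (by linarith))
  refine (sum_le_card_nsmul _ _ _ h3).trans ?_
  rw [nsmul_eq_mul]
  have h4 : (T.card : ℝ) ≤ δ * (2 ^ (j + 1) : ℕ) / Real.log (2 ^ (j + 1) : ℕ) :=
    (Nat.cast_le.2 (card_le_card hTU)).trans hU
  refine (mul_le_mul_of_nonneg_right h4 (by positivity)).trans (le_of_eq ?_)
  have e : ((2 : ℝ) ^ (1 - x)) ^ j = 2 ^ j / ((2 : ℝ) ^ j) ^ x := by
    rw [Real.rpow_sub (by norm_num), Real.rpow_one, div_pow, ← Real.rpow_natCast ((2 : ℝ) ^ x),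
      ← Real.rpow_mul (by norm_num), mul_comm, Real.rpow_mul (by norm_num), Real.rpow_natCast]
  rw [e]
  field_simp
  push_cast
  ring

theorem geo {x : ℝ} (hx : 1 < x) (hx2 : x ≤ 2) (N : ℕ) :
    ∑ j ∈ range N, ((2 : ℝ) ^ (1 - x)) ^ j ≤ 3 / (x - 1) := by
  have h0 : (0 : ℝ) < (2 : ℝ) ^ (1 - x) := by positivity
  have hl := Real.log_two_gt_d9
  have hl' := Real.log_two_lt_d9
  have h1 : (2 : ℝ) ^ (1 - x) ≤ 1 - (x - 1) / 3 := by
    have a1 := Real.add_one_le_exp (Real.log 2 * (x - 1))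
    have a2 : (2 : ℝ) ^ (1 - x) * Real.exp (Real.log 2 * (x - 1)) = 1 := by
      rw [Real.rpow_def_of_pos (by norm_num), ← Real.exp_add]
      simp [mul_sub]
    have a3 : (2 : ℝ) ^ (1 - x) * (2 / 3 * (x - 1) + 1) ≤ 1 := by
      refine le_trans (mul_le_mul_of_nonneg_left ?_ h0.le) a2.le
      nlinarith
    nlinarith [mul_nonneg (sub_pos.2 hx).le (sub_nonneg.2 hx2)]
  have h2 : (2 : ℝ) ^ (1 - x) < 1 := by linarith
  refine ((summable_geometric_of_lt_one h0.le h2).sum_le_tsum _ fun _ _ => by positivity).trans ?_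
  rw [tsum_geometric_of_lt_one h0.le h2, inv_eq_one_div, div_le_div_iff₀ (by linarith) (by linarith)]
  linarith

end DirP

open DirP ArithmeticFunction ArithmeticFunction.vonMangoldt in
theorem dir : DirStmt := by
  intro M b hM hb
  have : NeZero M := ⟨hM⟩
  have hφ : (0 : ℝ) < M.totient := by exact_mod_cast Nat.totient_pos.2 (Nat.pos_of_ne_zero hM)
  refine ⟨1 / (12 * M.totient), by positivity, fun X₀ => ?_⟩
  by_contra hn
  push Not at hn
  set δ : ℝ := 1 / (12 * M.totient) with hδ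
  have hδ0 : 0 < δ := by positivity
  have hu : IsUnit (b : ZMod M) := (ZMod.isUnit_iff_coprime b M).2 hb
  obtain ⟨C, hC⟩ := LSeries_residueClass_lower_bound hu
  have hs := summable_residueClass_non_primes_div (b : ZMod M)
  set C1 := ∑' n : ℕ, (if n.Prime then 0 else residueClass (b : ZMod M) n) / n with hC1
  set C2 := ∑ n ∈ range (2 ^ X₀), Real.log n with hC2
  have key : ∀ x : ℝ, 1 < x → x ≤ 2 →
      ∑' n, residueClass (b : ZMod M) n / (n : ℝ) ^ x ≤ C1 + C2 + 6 * δ / (x - 1) := by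
    intro x hx hx2
    refine Real.tsum_le_of_sum_range_le (fun n => div_nonneg (residueClass_nonneg _ n)
      (by positivity)) fun N => ?_
    have hge : ∀ n : ℕ, 1 ≤ n → (n : ℝ) ≤ (n : ℝ) ^ x := fun n h => by
      conv_lhs => rw [← Real.rpow_one n]
      exact Real.rpow_le_rpow_of_exponent_le (by exact_mod_cast h) hx.le
    set P := (range N).filter fun n => (n.Prime ∧ n ≡ b [MOD M]) ∧ 2 ^ X₀ ≤ n with hP
    have pt : ∀ n ∈ range N, residueClass (b : ZMod M) n / (n : ℝ) ^ x ≤
        (if n.Prime then 0 else residueClass (b : ZMod M) n) / n +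
          (if n < 2 ^ X₀ then Real.log n else 0) +
          (if (n.Prime ∧ n ≡ b [MOD M]) ∧ 2 ^ X₀ ≤ n then Real.log n / (n : ℝ) ^ x else 0) := by
      intro n _
      have l0 := Real.log_natCast_nonneg n
      have r0 := residueClass_nonneg (b : ZMod M) n
      by_cases hp : n.Prime
      · have n1 : (1 : ℝ) ≤ n := by exact_mod_cast hp.one_le
        have r1 : residueClass (b : ZMod M) n ≤ Real.log n :=
          (residueClass_le _ n).trans (vonMangoldt_apply_prime hp).le
        rw [if_pos hp, zero_div, zero_add]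
        by_cases h1 : n < 2 ^ X₀
        · rw [if_pos h1, if_neg (by omega), add_zero]
          exact (div_le_self r0 (n1.trans (hge n hp.one_le))).trans r1
        · rw [if_neg h1, zero_add]
          by_cases h2 : n ≡ b [MOD M]
          · rw [if_pos ⟨⟨hp, h2⟩, by omega⟩]
            exact div_le_div_of_nonneg_right r1 (by positivity)
          · rw [if_neg (c := _ ∧ _) fun k => h2 k.1.2, residueClass, Set.indicator_of_notMem, zero_div]
            exact fun k => h2 ((ZMod.natCast_eq_natCast_iff _ _ _).1 k)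
      · rw [if_neg hp, if_neg (c := _ ∧ _) fun k => hp k.1.1, add_zero]
        have : residueClass (b : ZMod M) n / (n : ℝ) ^ x ≤ residueClass (b : ZMod M) n / n := by
          rcases n.eq_zero_or_pos with rfl | h0
          · simp
          · exact div_le_div_of_nonneg_left r0 (by exact_mod_cast h0) (hge n h0)
        split_ifs <;> linarith
    refine (sum_le_sum pt).trans ?_
    rw [sum_add_distrib, sum_add_distrib, ← sum_filter, ← sum_filter, ← hP]
    refine add_le_add (add_le_add ?_ ?_) ?_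
    · exact hs.sum_le_tsum _ fun n _ => div_nonneg (by
        split_ifs
        exacts [le_rfl, residueClass_nonneg _ n]) (Nat.cast_nonneg n)
    · exact sum_le_sum_of_subset_of_nonneg (fun n h => mem_range.2 (mem_filter.1 h).2)
        fun n _ _ => Real.log_natCast_nonneg n
    · rw [← sum_fiberwise_of_maps_to (g := Nat.log 2) (t := range N) fun n h =>
        mem_range.2 ((Nat.log_le_self 2 n).trans_lt (mem_range.1 (mem_filter.1 h).1))]
      have fib : ∀ j ∈ range N, ∑ n ∈ P.filter (fun n => Nat.log 2 n = j),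
          Real.log n / (n : ℝ) ^ x ≤ 2 * δ * ((2 : ℝ) ^ (1 - x)) ^ j := by
        intro j _
        have hm : ∀ n ∈ P.filter (fun n => Nat.log 2 n = j), (n.Prime ∧ n ≡ b [MOD M]) ∧
            2 ^ X₀ ≤ n ∧ 2 ^ j ≤ n ∧ n < 2 ^ (j + 1) := fun n h => by
          obtain ⟨a1, rfl⟩ := mem_filter.1 h
          obtain ⟨-, a2, a3⟩ := mem_filter.1 a1
          exact ⟨a2, a3, Nat.pow_log_le_self 2 a2.1.ne_zero, Nat.lt_pow_succ_log_self one_lt_two n⟩
        rcases (P.filter fun n => Nat.log 2 n = j).eq_empty_or_nonempty with e | ⟨n0, h0⟩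
        · rw [e, sum_empty]
          positivity
        have a1 : X₀ ≤ 2 ^ (j + 1) := by
          have := hm n0 h0
          have := Nat.lt_two_pow_self (n := X₀)
          omega
        exact block hx (fun n h => mem_filter.2 ⟨mem_range.2 (by have := hm n h; omega),
          (hm n h).1⟩) (hn _ a1).le fun n h => (hm n h).2.2
      refine (sum_le_sum fib).trans ?_
      rw [← mul_sum]
      refine (mul_le_mul_of_nonneg_left (geo hx hx2 N) (by positivity)).trans (le_of_eq ?_)
      ring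
  set K := |C1 + C2 + C| + 1 with hK
  have hK0 : 0 < K := by positivity
  set t := min 1 (δ / K) with ht
  have t0 : 0 < t := lt_min one_pos (by positivity)
  have t1 : t ≤ 1 := min_le_left _ _
  have t2 : t * K ≤ δ := (le_div_iff₀ hK0).1 (min_le_right _ _)
  have h1 := (hC (x := 1 + t) ⟨by linarith, by linarith⟩).trans (key (1 + t) (by linarith)
    (by linarith))
  have e : (M.totient : ℝ)⁻¹ = 12 * δ := by rw [hδ]; field_simp
  rw [add_sub_cancel_left, e] at h1
  have h2 : 6 * δ / t ≤ K := by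
    have := le_abs_self (C1 + C2 + C)
    have e2 : 12 * δ / t = 6 * δ / t + 6 * δ / t := by ring
    linarith
  rw [div_le_iff₀ t0] at h2
  linarith

theorem ap : GTStmt → DirStmt → APStmt := by
  intro gt dr k M b B hM hb
  obtain ⟨δ, hδ, h⟩ := dr M b hM hb
  obtain ⟨X₀, h0⟩ := gt (k + 1) (δ / 2) (by positivity)
  have ev := (Real.isLittleO_log_id_atTop.bound (c := δ / (2 * (B + 1))) (by positivity))
  obtain ⟨X₁, h1⟩ := eventually_atTop.1 (tendsto_natCast_atTop_atTop.eventually ev)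
  obtain ⟨X, hX, h2⟩ := h (max (max X₀ X₁) 2)
  have x0 : X₀ ≤ X := ((le_max_left _ _).trans (le_max_left _ _)).trans hX
  have x1 : X₁ ≤ X := ((le_max_right _ _).trans (le_max_left _ _)).trans hX
  have x2 : 2 ≤ X := (le_max_right _ _).trans hX
  have hL : 0 < Real.log X := Real.log_pos (by exact_mod_cast x2)
  set S := (range (X + 1)).filter fun n => n.Prime ∧ n ≡ b [MOD M] with hS
  have h3 : (S.card : ℝ) ≤ (S \ range B).card + B := by
    have := le_card_sdiff (range B) S
    rw [card_range] at this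
    exact_mod_cast (by omega : S.card ≤ (S \ range B).card + B)
  have h4 : (B : ℝ) ≤ δ / 2 * X / Real.log X := by
    have a := h1 X x1
    rw [Real.norm_of_nonneg hL.le, id, Real.norm_of_nonneg (Nat.cast_nonneg _), div_mul_eq_mul_div,
      le_div_iff₀ (by positivity)] at a
    rw [le_div_iff₀ hL]
    nlinarith
  have hm : ∀ n ∈ S \ range B, (n.Prime ∧ n ≡ b [MOD M]) ∧ n ≤ X ∧ B ≤ n := fun n hn => by
    obtain ⟨a1, a2⟩ := mem_sdiff.1 hn
    obtain ⟨a3, a4⟩ := mem_filter.1 a1
    rw [mem_range] at a2 a3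
    exact ⟨a4, by omega, by omega⟩
  obtain ⟨a, d, hd, h5⟩ := h0 X x0 (S \ range B) (fun n hn => ⟨(hm n hn).1.1, (hm n hn).2.1⟩) (by
    have e : δ * X / Real.log X = δ / 2 * X / Real.log X + δ / 2 * X / Real.log X := by ring
    linarith)
  exact ⟨a, d, by simpa using (hm _ (h5 0 (by omega))).2.2, hd, fun i hi => (hm _ (h5 i (by omega))).1⟩

end Pool.Agent.MP_a43263_nt.GT

end
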