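import Mathlib
import Pool.Agent.MP_a43263_nt.GT.Spec

/-! PROJECT GT7, row FIN: from the relative theorem of Szemeredi to progressions of primes. -/

set_option autoImplicit false

namespace Pool.Agent.MP_a43263_nt.GT

open Finset Filter MeasureTheory Function
open DH (E ind)

namespace Fn

theorem lam_prime (K : Ker) {S : Finset ℕ} {L : ℝ} {q : ℕ} (hS : ∀ p ∈ S, p.Prime) (hq : q.Prime)
    (hL : 0 < L) (h : L ≤ Real.log q) : lam K S L q = 1 := by
  rw [lam, sum_eq_single ∅]
  · simp [K.zero, ind]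
  · intro T hT h0
    by_cases k : ∀ p ∈ T, (p : ℤ) ∣ q
    · have : T = {q} := eq_singleton_iff_nonempty_unique_mem.2 ⟨nonempty_iff_ne_empty.2 h0,
        fun p hp => (Nat.prime_dvd_prime_iff_eq (hS p (mem_powerset.1 hT hp)) hq).1
          (Int.natCast_dvd_natCast.1 (k p hp))⟩
      rw [this, prod_singleton, K.supp _ ((one_le_div hL).2 h), mul_zero, zero_mul]
    · rw [DH.ind_false k, mul_zero]
  · simp

theorem rho_eq (w : ℕ) : rho w * primorial w = (primorial w).totient := by
  have h := congrArg (fun x : ℚ => (x : ℝ)) (Nat.totient_eq_mul_prod_factors (primorial w))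
  rw [primeFactors_primorial] at h
  push_cast at h
  rw [h, mul_comm]
  rfl

theorem rho_mem (w : ℕ) : 0 ≤ rho w ∧ rho w ≤ 1 := by
  have h := rho_eq w
  have a : (0 : ℝ) < primorial w := Nat.cast_pos.2 (primorial_pos w)
  have b : ((primorial w).totient : ℝ) ≤ primorial w := Nat.cast_le.2 (Nat.totient_le _)
  have c : (0 : ℝ) ≤ (primorial w).totient := Nat.cast_nonneg _
  constructor <;> nlinarith

theorem unit (m t : ℕ) (i j : Fin m) (h : i ≠ j) :
    IsUnit (((j : ℕ) : ZMod (2 * m.factorial * t + 1)) - (i : ℕ)) := by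
  have a : IsUnit ((m.factorial : ℤ) : ZMod (2 * m.factorial * t + 1)) := by
    refine IsUnit.of_mul_eq_one (-(2 * t)) ?_
    have := ZMod.natCast_self (2 * m.factorial * t + 1)
    push_cast at this ⊢
    linear_combination -this
  have b : ((j : ℕ) : ℤ) - (i : ℕ) ∣ m.factorial := by
    have := Fin.val_ne_of_ne h
    exact Int.natAbs_dvd.1 (Int.natCast_dvd_natCast.2
      (Nat.dvd_factorial (by omega) (by have := i.2; have := j.2; omega)))
  simpa using isUnit_of_dvd_unit (map_dvd (Int.castRingHom _) b) a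

/-- a progression in the cyclic group that stays in the lower half is a progression of integers -/
theorem unwrap {N : ℕ} [NeZero N] (m : ℕ) (a d : ZMod N) (hd : d ≠ 0)
    (h : ∀ j < m + 2, 2 * (a + j * d).val < N) :
    ∃ x y : ℕ, 0 < y ∧ ∀ i < m + 2, ∃ j < m + 2, x + i * y = (a + j * d).val := by
  obtain ⟨u, hu⟩ : ∃ u : ℕ → ℕ, ∀ j, u j = (a + j * d).val := ⟨_, fun _ => rfl⟩
  simp only [← hu] at h ⊢
  have c : ∀ j, (u j : ZMod N) = a + j * d := fun j => by rw [hu, ZMod.natCast_zmod_val]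
  have e : ∀ j < m + 2, (u j : ℤ) = u 0 + j * (u 1 - u 0) := fun j => by
    induction j with
    | zero => simp
    | succ j ih =>
      intro hj
      have a1 := ih (by omega)
      have a2 : u (j + 1) + u 0 ≡ u j + u 1 [MOD N] := by
        rw [← ZMod.natCast_eq_natCast_iff]
        push_cast [c]
        ring
      have h0 := h 0 (by omega)
      have h1 := h 1 (by omega)
      have h2 := h j (by omega)
      have h3 := h _ hj
      have a3 := Nat.ModEq.eq_of_lt_of_lt a2 (by omega) (by omega)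
      zify at a3
      push_cast
      linear_combination a3 + a1
  rcases lt_trichotomy (u 0) (u 1) with k | k | k
  · refine ⟨u 0, u 1 - u 0, by omega, fun i hi => ⟨i, hi, ?_⟩⟩
    zify [k.le]
    exact (e i hi).symm
  · have := c 1
    rw [← k, c] at this
    exact absurd (by simpa using this.symm) hd
  · refine ⟨u (m + 1), u 0 - u 1, by omega, fun i hi => ⟨m + 1 - i, by omega, ?_⟩⟩
    zify [k.le]
    rw [e _ (by omega), e (m + 1 - i) (by omega), Nat.cast_sub (by omega)]
    ring

theorem ind_eq (p : Prop) [Decidable p] : ind p = if p then 1 else 0 := by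
  unfold ind
  congr

theorem E_diag {N : ℕ} [NeZero N] (C : ℝ) :
    E (fun z : ZMod N × ZMod N => C * ind (z.2 = 0)) = C / N := by
  have : (N : ℝ) ≠ 0 := Nat.cast_ne_zero.2 (NeZero.ne N)
  rw [DH.E_mul_left, DH.E_eq_div, Fintype.sum_prod_type]
  simp [ind_eq, ZMod.card]
  field_simp

theorem le_E {N W b : ℕ} [NeZero N] (A : Finset ℕ) (h : ∀ q ∈ A, q / W < N) :
    ((A.filter fun q => q % W = b).card : ℝ) / N ≤
      E fun n : ZMod N => ind (W * n.val + b ∈ A) := by
  classical
  rw [DH.E_eq_div, Nat.card_zmod]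
  refine div_le_div_of_nonneg_right ?_ (Nat.cast_nonneg _)
  simp only [ind_eq, sum_boole, Nat.cast_le]
  have v : ∀ q ∈ A.filter fun q => q % W = b, W * ((q / W : ℕ) : ZMod N).val + b = q :=
    fun q hq => by
      rw [ZMod.val_cast_of_lt (h q (mem_filter.1 hq).1), ← (mem_filter.1 hq).2, Nat.div_add_mod]
  refine card_le_card_of_injOn (fun q => ((q / W : ℕ) : ZMod N)) (fun q hq => ?_)
    fun q hq q' hq' e => ?_
  · simp only [coe_filter, mem_univ, true_and, Set.mem_ofPred_eq]
    rw [v q hq]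
    exact (mem_filter.1 hq).1
  · rw [← v q hq, ← v q' hq', show ((q / W : ℕ) : ZMod N) = (q' / W : ℕ) from e]

theorem pigeon {w : ℕ} (A : Finset ℕ) (h : ∀ q ∈ A, q.Prime ∧ w < q) :
    ∃ b : ℕ, (A.card : ℝ) ≤ (primorial w).totient * (A.filter fun q => q % primorial w = b).card := by
  have W0 := primorial_pos w
  have t0 : (0 : ℝ) < (primorial w).totient := Nat.cast_pos.2 (Nat.totient_pos.2 W0)
  obtain ⟨b, -, hb⟩ := exists_le_card_fiber_of_nsmul_le_card_of_maps_to (s := A)
    (t := (range (primorial w)).filter (primorial w).Coprime) (f := fun q => q % primorial w)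
    (b := (A.card : ℝ) / (primorial w).totient)
    (fun q hq => mem_filter.2 ⟨mem_range.2 (Nat.mod_lt _ W0), by
      rw [Nat.Coprime, Nat.gcd_comm, ← Nat.gcd_rec, Nat.gcd_comm]
      exact (Nat.Prime.coprime_iff_not_dvd (h q hq).1).2 fun d =>
        (h q hq).2.not_ge ((h q hq).1.dvd_primorial_iff.1 d)⟩)
    (card_pos.1 (Nat.totient_pos.2 W0))
    (by rw [← Nat.totient_eq_card_coprime, nsmul_eq_mul, mul_div_cancel₀ _ t0.ne'])
  exact ⟨b, (div_le_iff₀' t0).1 hb⟩

theorem ev_log (m : ℕ) {c : ℝ} (hc : 0 < c) :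
    ∃ N₀ : ℕ, ∀ N : ℕ, N₀ ≤ N → Real.log N ^ m ≤ c * N := by
  obtain ⟨N₀, h⟩ := eventually_atTop.1 (tendsto_natCast_atTop_atTop.eventually
    ((Real.isLittleO_pow_log_id_atTop (n := m)).bound hc))
  refine ⟨N₀, fun N hN => (le_abs_self _).trans ?_⟩
  simpa using h N hN

end Fn

open Fn in
theorem fin (ker : KerStmt) (rsz : RszStmt) (pse : PseStmt) : GTStmt := by
  classical
  intro k δ hδ
  obtain ⟨K⟩ := ker
  have c0 := K.pos
  obtain ⟨η, η0, η1, hη⟩ := pse K (Fin (k + 2)) Fin.val Fin.val_injective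
  obtain ⟨F, hF⟩ : ∃ F : ℕ, F = (k + 2).factorial := ⟨_, rfl⟩
  have F0 : 0 < F := hF ▸ Nat.factorial_pos _
  obtain ⟨c, c1, ε, ε0, N₀, hR⟩ := rsz (Fin (k + 2)) Fin.val (η * δ / (20 * F * K.c))
    (by positivity)
  obtain ⟨w, N₁, hP⟩ := hη ε ε0
  obtain ⟨N₂, h2⟩ := ev_log (k + 2) (c := c / 2 * K.c ^ (k + 2)) (by positivity)
  obtain ⟨X₁, h1⟩ := ev_log 2 (c := δ ^ 2 / (4 * (10 * F + 2 * (w + 1) ^ 2))) (by positivity)
  have W0 := primorial_pos w
  refine ⟨primorial w * (N₀ + N₁ + N₂ + primorial w) + X₁ + 2, fun X hX A hA hc => ?_⟩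
  obtain ⟨N, hN⟩ : ∃ N, N = 2 * F * (X / primorial w + 1) + 1 := ⟨_, rfl⟩
  have q1 : N₀ + N₁ + N₂ + primorial w ≤ X / primorial w :=
    (Nat.le_div_iff_mul_le W0).2 (by rw [mul_comm]; omega)
  have q2 : 2 * (X / primorial w + 1) < N := by rw [hN]; nlinarith
  have q3 := Nat.mul_div_le X (primorial w)
  have q4 := Nat.lt_mul_div_succ X W0
  have q5 : primorial w * N ≤ 5 * F * X := by
    have : primorial w ≤ X := by nlinarith
    rw [hN]
    nlinarith [Nat.mul_le_mul_left F q3, Nat.mul_le_mul_left F this, Nat.mul_le_mul F0 this]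
  have q6 : X ≤ N ^ 2 := by nlinarith
  have : NeZero N := ⟨by omega⟩
  have hu : ∀ i j : Fin (k + 2), i ≠ j → IsUnit (((j : ℕ) : ZMod N) - (i : ℕ)) := by
    subst hN hF
    exact unit _ _
  obtain ⟨Y, hY⟩ := hP N (by omega) hu
  have X1 : (1 : ℝ) < X := Nat.one_lt_cast.2 (by omega)
  have N1 : (1 : ℝ) < N := Nat.one_lt_cast.2 (by omega)
  have lX := Real.log_pos X1
  have lN := Real.log_pos N1
  have l1 : Real.log X ≤ 2 * Real.log N := by
    have := Real.log_le_log (by positivity) (Nat.cast_le (α := ℝ).2 q6)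
    rwa [Nat.cast_pow, Real.log_pow] at this
  obtain ⟨B, hB⟩ : ∃ B, B = A.filter fun q => N.sqrt + w < q := ⟨_, rfl⟩
  have mB : ∀ q ∈ B, q ∈ A ∧ N.sqrt + w < q := fun q hq => mem_filter.1 (hB ▸ hq)
  have cB : δ * X / (2 * Real.log X) ≤ B.card := by
    have a1 : A.card ≤ B.card + (N.sqrt + w + 1) := by
      rw [← card_filter_add_card_filter_not (s := A) fun q => N.sqrt + w < q, ← hB]
      refine Nat.add_le_add_left ((card_le_card fun q hq => mem_range.2 ?_).trans
        (card_range _).le) _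
      have := (mem_filter.1 hq).2
      omega
    have a2 : (N.sqrt + w + 1) ^ 2 ≤ (10 * F + 2 * (w + 1) ^ 2) * X := by
      have := Nat.sqrt_le' N
      have a3 : N ≤ 5 * F * X := (Nat.le_mul_of_pos_left N W0).trans q5
      have a4 : (w + 1) ^ 2 ≤ (w + 1) ^ 2 * X := Nat.le_mul_of_pos_right _ (by omega)
      zify at this a3 a4 ⊢
      nlinarith [sq_nonneg ((N.sqrt : ℤ) - (w + 1))]
    have a3 : ((N.sqrt + w + 1 : ℕ) : ℝ) ≤ δ * X / (2 * Real.log X) := by
      rw [le_div_iff₀ (by positivity)]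
      refine (pow_le_pow_iff_left₀ (by positivity) (by positivity) two_ne_zero).1 ?_
      have a5 : ((N.sqrt + w + 1 : ℕ) : ℝ) ^ 2 ≤ (10 * F + 2 * (w + 1) ^ 2) * X := by
        exact_mod_cast a2
      have a6 := h1 X (by omega)
      rw [div_mul_eq_mul_div, le_div_iff₀ (by positivity)] at a6
      calc _ = ((N.sqrt + w + 1 : ℕ) : ℝ) ^ 2 * (4 * Real.log X ^ 2) := by ring
        _ ≤ (10 * F + 2 * (w + 1) ^ 2) * X * (4 * Real.log X ^ 2) := by gcongr
        _ = Real.log X ^ 2 * (4 * (10 * F + 2 * (w + 1) ^ 2)) * X := by ring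
        _ ≤ δ ^ 2 * X * X := by gcongr
        _ = _ := by ring
    have a4 : (A.card : ℝ) ≤ B.card + (N.sqrt + w + 1 : ℕ) := by exact_mod_cast a1
    have a5 : δ * X / Real.log X = 2 * (δ * X / (2 * Real.log X)) := by field_simp
    linarith
  obtain ⟨b, hb⟩ := pigeon (w := w) B fun q hq => ⟨(hA q (mB q hq).1).1, by have := mB q hq; omega⟩
  have L0 : 0 < η * Real.log N := by positivity
  have ρ := rho_mem w
  have n0 : 0 ≤ nrm K w (η * Real.log N) := div_nonneg (mul_nonneg ρ.1 L0.le) c0.le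
  have n1 : nrm K w (η * Real.log N) ≤ Real.log N / K.c :=
    div_le_div_of_nonneg_right (by nlinarith [ρ.1, ρ.2]) c0.le
  have key := hR N (by omega) hu (nu K w Y (η * Real.log N) b)
    (fun n => nrm K w (η * Real.log N) * ind (primorial w * n.val + b ∈ B))
    (fun n => ⟨mul_nonneg n0 (DH.ind_nonneg _), mul_le_mul_of_nonneg_left ?_ n0⟩) ?_ (hY b)
  · by_contra hn
    have a1 := key.trans (DH.E_mono (g := fun z : ZMod N × ZMod N =>
      (Real.log N / K.c) ^ (k + 2) * ind (z.2 = 0)) fun z => ?_)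
    · have a2 := h2 N (by omega)
      rw [E_diag, div_pow, div_div, le_div_iff₀ (by positivity)] at a1
      have : 0 < c * (K.c ^ (k + 2) * N) := by positivity
      nlinarith
    by_cases hz : z.2 = 0
    · rw [DH.ind_true hz, mul_one]
      exact (prod_le_prod (fun j _ => mul_nonneg n0 (DH.ind_nonneg _)) fun j _ =>
        (mul_le_of_le_one_right n0 (DH.ind_le_one _)).trans n1).trans_eq
        (by rw [prod_const, card_univ, Fintype.card_fin])
    · rw [DH.ind_false hz, mul_zero]
      by_contra hp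
      have a2 : ∀ j < k + 2, primorial w * (z.1 + j * z.2).val + b ∈ B := fun j hj => by
        by_contra t
        exact hp (prod_eq_zero (mem_univ ⟨j, hj⟩) (by rw [DH.ind_false t, mul_zero])).le
      obtain ⟨x, y, y0, hy⟩ := unwrap k z.1 z.2 hz fun j hj => by
        have := (Nat.le_div_iff_mul_le W0).2 ((mul_comm _ _).trans_le
          ((Nat.le_add_right _ b).trans (hA _ (mB _ (a2 j hj)).1).2))
        omega
      refine hn ⟨primorial w * x + b, primorial w * y, by positivity, fun i hi => ?_⟩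
      obtain ⟨j, hj, e⟩ := hy i (by omega)
      have := (mB _ (a2 j hj)).1
      rwa [← e, mul_add, add_right_comm, mul_left_comm] at this
  · by_cases h : primorial w * n.val + b ∈ B
    · have a1 := lam_prime K (S := pr w Y) (fun p hp => (mem_filter.1 hp).2) (hA _ (mB _ h).1).1 L0
        (by
          have a2 : N < (primorial w * n.val + b) ^ 2 := Nat.sqrt_lt'.1 (by have := mB _ h; omega)
          have := Real.log_le_log (by positivity) (Nat.cast_le (α := ℝ).2 a2.le)
          rw [Nat.cast_pow, Real.log_pow, Nat.cast_ofNat] at this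
          nlinarith)
      rw [Nat.cast_add, Nat.cast_mul] at a1
      rw [a1, one_pow]
      exact DH.ind_le_one _
    · rw [DH.ind_false h]
      positivity
  · rw [DH.E_mul_left]
    refine le_trans ?_ (mul_le_mul_of_nonneg_left (le_E (W := primorial w) (b := b) B fun q hq =>
      (Nat.div_le_div_right (hA q (mB q hq).1).2).trans_lt (by omega)) n0)
    have a1 := rho_eq w
    have a2 : (primorial w : ℝ) * N ≤ 5 * F * X := by exact_mod_cast q5
    have a3 : (0 : ℝ) < primorial w := Nat.cast_pos.2 W0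
    have a4 := cB.trans hb
    generalize ((B.filter fun q => q % primorial w = b).card : ℝ) = m at a4
    rw [← a1, div_le_iff₀ (by positivity)] at a4
    have m0 : 0 ≤ rho w * m := by
      by_contra t
      have : rho w * m * (primorial w * (2 * Real.log X)) < 0 :=
        mul_neg_of_neg_of_pos (not_le.1 t) (by positivity)
      have : 0 < δ * X := by positivity
      nlinarith
    rw [nrm, div_mul_div_comm, div_le_div_iff₀ (by positivity) (by positivity)]
    refine le_of_mul_le_mul_right ?_ a3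
    calc _ = η * K.c * (δ * (primorial w * N)) := by ring
      _ ≤ η * K.c * (δ * (5 * F * X)) := by gcongr
      _ = η * K.c * (5 * F) * (δ * X) := by ring
      _ ≤ η * K.c * (5 * F) * (rho w * primorial w * m * (2 * Real.log X)) := by gcongr
      _ = η * K.c * (10 * F) * primorial w * (rho w * m) * Real.log X := by ring
      _ ≤ η * K.c * (10 * F) * primorial w * (rho w * m) * (2 * Real.log N) := by gcongr
      _ = _ := by ring

end Pool.Agent.MP_a43263_nt.GT
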