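import Mathlib
import Pool.Agent.MP_a43263_nt.GT.Spec

/-! PROJECT GT7, row KER: the cutoff `(1 - x)₊ ^ 3` is a superposition of exponentials. -/

set_option autoImplicit false

noncomputable section

namespace Pool.Agent.MP_a43263_nt.GT

open Finset Filter MeasureTheory Function
open DH (E ind)

namespace KerH

open Complex Real Topology FourierTransform

lemma norm_term {s : ℂ} (hs : s.re = 1) (n : ℕ) {t : ℝ} (ht : 0 ≤ t) :
    ‖(t : ℂ) ^ n * cexp (-(s * t))‖ = t ^ n * rexp (-t) := by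
  rw [norm_mul, norm_pow, Complex.norm_real, Real.norm_of_nonneg ht, Complex.norm_exp]
  simp [hs]

lemma lap_int {s : ℂ} (hs : s.re = 1) (n : ℕ) :
    IntegrableOn (fun t : ℝ => (t : ℂ) ^ n * cexp (-(s * t))) (Set.Ioi 0) := by
  have h := Real.GammaIntegral_convergent (s := n + 1) (by positivity)
  refine h.mono' (Continuous.aestronglyMeasurable (by fun_prop)) ?_
  filter_upwards [ae_restrict_mem measurableSet_Ioi] with t ht
  rw [norm_term hs n (le_of_lt ht), add_sub_cancel_right, Real.rpow_natCast, mul_comm]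

lemma lap {s : ℂ} (hs : s.re = 1) (n : ℕ) :
    ∫ t : ℝ in Set.Ioi 0, (t : ℂ) ^ n * cexp (-(s * t)) = n.factorial / s ^ (n + 1) := by
  have h0 : s ≠ 0 := fun h => by simp [h] at hs
  induction n with
  | zero =>
    have := integral_exp_mul_complex_Ioi (a := -s) (by simp [hs]) 0
    simpa [neg_div_neg_eq] using this
  | succ n ih =>
    have hd : ∀ t ∈ Set.Ici (0 : ℝ), HasDerivAt (fun t : ℝ => (t : ℂ) ^ (n + 1) * cexp (-(s * t)))
        ((n + 1 : ℂ) * ((t : ℂ) ^ n * cexp (-(s * t))) -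
          s * ((t : ℂ) ^ (n + 1) * cexp (-(s * t)))) t := fun t _ => by
      have h1 : HasDerivAt (fun z : ℂ => z ^ (n + 1) * cexp (-(s * z))) _ (t : ℂ) :=
        (hasDerivAt_pow (n + 1) (t : ℂ)).mul ((hasDerivAt_id (t : ℂ)).const_mul s).neg.cexp
      convert h1.comp_ofReal using 1
      simp
      ring
    have hl : Tendsto (fun t : ℝ => (t : ℂ) ^ (n + 1) * cexp (-(s * t))) atTop (𝓝 0) := by
      rw [tendsto_zero_iff_norm_tendsto_zero]
      refine (Real.tendsto_pow_mul_exp_neg_atTop_nhds_zero (n + 1)).congr' ?_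
      filter_upwards [eventually_ge_atTop 0] with t ht
      rw [norm_term hs _ ht]
    have := integral_Ioi_of_hasDerivAt_of_tendsto' hd
      (((lap_int hs n).const_mul _).sub ((lap_int hs (n + 1)).const_mul _)) hl
    rw [integral_sub ((lap_int hs n).const_mul _) ((lap_int hs (n + 1)).const_mul _),
      integral_const_mul, integral_const_mul, ih] at this
    have h2 : s * ∫ t : ℝ in Set.Ioi 0, (t : ℂ) ^ (n + 1) * cexp (-(s * t)) =
        (n + 1 : ℂ) * (n.factorial / s ^ (n + 1)) := by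
      simp only [ofReal_zero, ne_eq, Nat.add_eq_zero_iff, one_ne_zero, and_false,
        not_false_eq_true, zero_pow, zero_mul, sub_zero] at this
      exact (sub_eq_zero.1 this).symm
    refine mul_left_cancel₀ h0 (h2.trans ?_)
    rw [Nat.factorial_succ]
    push_cast
    field_simp
    ring

/-- the line of integration -/
def sx (ξ : ℝ) : ℂ := 1 + 2 * π * ξ * I

lemma sx_re (ξ : ℝ) : (sx ξ).re = 1 := by simp [sx]

lemma sx_ne (ξ : ℝ) : sx ξ ≠ 0 := fun h => by simpa [h] using sx_re ξ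

@[fun_prop]
lemma sx_cont : Continuous sx := by unfold sx; fun_prop

lemma sx_one (ξ : ℝ) : 1 ≤ ‖sx ξ‖ := sx_re ξ ▸ Complex.re_le_norm _

lemma sx_sq (ξ : ℝ) : 1 + ξ ^ 2 ≤ ‖sx ξ‖ ^ 2 := by
  have h : ‖sx ξ‖ ^ 2 = 1 + (2 * π * ξ) ^ 2 := by
    rw [Complex.sq_norm, Complex.normSq_apply]
    simp [sx]
    ring
  have h1 : 1 ≤ (2 * π) ^ 2 := one_le_pow₀ (by linarith [Real.pi_gt_three])
  rw [h, mul_pow]
  nlinarith [sq_nonneg ξ]

lemma inv_int (n : ℕ) : Integrable fun ξ => (sx ξ ^ (n + 2))⁻¹ := by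
  refine integrable_inv_one_add_sq.mono' (Continuous.aestronglyMeasurable
    (Continuous.inv₀ (by fun_prop) fun ξ => pow_ne_zero _ (sx_ne ξ))) (.of_forall fun ξ => ?_)
  rw [norm_inv, norm_pow]
  exact inv_anti₀ (by positivity)
    ((sx_sq ξ).trans (pow_le_pow_right₀ (sx_one ξ) (by omega)))

lemma perron (n : ℕ) (y : ℝ) :
    ∫ ξ, ((n + 1).factorial : ℂ) * (sx ξ ^ (n + 2))⁻¹ * cexp (sx ξ * y) =
      ((max y 0 ^ (n + 1) : ℝ) : ℂ) := by
  let f : ℝ → ℂ := fun y => ((max y 0 ^ (n + 1) : ℝ) : ℂ) * cexp (-y)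
  have hc : Continuous f := by fun_prop
  have hg : ∀ ξ : ℝ, (fun v : ℝ => cexp (↑(-2 * π * v * ξ) * I) • f v) =
      (Set.Ioi 0).indicator fun t : ℝ => (t : ℂ) ^ (n + 1) * cexp (-(sx ξ * t)) := fun ξ => by
    funext v
    by_cases hv : 0 < v
    · rw [Set.indicator_of_mem (Set.mem_Ioi.2 hv), smul_eq_mul]
      simp only [f, max_eq_left hv.le]
      rw [mul_left_comm, ← Complex.exp_add]
      congr 2
      · push_cast; rfl
      · simp only [sx]; push_cast; ring
    · rw [Set.indicator_of_notMem (by simpa using hv)]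
      simp [f, max_eq_right (not_lt.1 hv)]
  have hF : 𝓕 f = fun ξ => ((n + 1).factorial : ℂ) * (sx ξ ^ (n + 2))⁻¹ := by
    funext ξ
    rw [Real.fourier_real_eq_integral_exp_smul, hg, integral_indicator measurableSet_Ioi,
      lap (sx_re ξ), div_eq_mul_inv]
  have hi : Integrable f := by
    have h := (integrable_indicator_iff measurableSet_Ioi).2 (lap_int (sx_re 0) (n + 1))
    rw [← hg] at h
    simpa using h
  have h := congrFun (hc.fourierInv_fourier_eq hi (hF ▸ (inv_int n).const_mul _)) y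
  rw [hF, Real.fourierInv_eq'] at h
  have h2 : ((max y 0 ^ (n + 1) : ℝ) : ℂ) = cexp y * f y := by
    simp only [f]
    rw [mul_left_comm, ← Complex.exp_add, add_neg_cancel, Complex.exp_zero, mul_one]
  rw [h2, ← h, ← integral_const_mul]
  refine integral_congr_ae (.of_forall fun ξ => ?_)
  simp only [smul_eq_mul]
  rw [← mul_assoc (cexp y), ← Complex.exp_add, mul_comm]
  congr 2
  simp only [sx, RCLike.inner_apply, conj_trivial]
  push_cast
  ring

/-- the density -/
def ph (ξ : ℝ) : ℂ := 6 * (sx ξ ^ 4)⁻¹ * cexp (sx ξ)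

lemma ph_cont : Continuous ph :=
  (continuous_const.mul (Continuous.inv₀ (by fun_prop) fun ξ => pow_ne_zero _ (sx_ne ξ))).mul
    (by fun_prop)

lemma ph_int : Integrable fun ξ => ‖sx ξ‖ ^ 2 * ‖ph ξ‖ := by
  refine ((inv_int 0).norm.const_mul (6 * rexp 1)).congr (.of_forall fun ξ => ?_)
  have := (zero_lt_one.trans_le (sx_one ξ)).ne'
  simp only [ph, norm_mul, norm_inv, norm_pow, Complex.norm_exp, sx_re, Complex.norm_ofNat]
  field_simp

lemma ps_int : Integrable fun ξ => ‖ph ξ * sx ξ‖ := by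
  refine ph_int.mono' (ph_cont.mul sx_cont).norm.aestronglyMeasurable (.of_forall fun ξ => ?_)
  rw [norm_norm, norm_mul, mul_comm]
  have := sx_one ξ
  exact mul_le_mul_of_nonneg_right (by nlinarith) (norm_nonneg _)

lemma rep (x : ℝ) : ((max (1 - x) 0 ^ 3 : ℝ) : ℂ) = ∫ ξ, ph ξ * cexp (-(sx ξ * x)) := by
  rw [← perron 2]
  refine integral_congr_ae (.of_forall fun ξ => ?_)
  simp only [ph]
  rw [mul_assoc _ (cexp _), ← Complex.exp_add]
  congr 2
  push_cast
  ring

lemma rep' (x : ℝ) :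
    ∫ ξ, ph ξ * sx ξ * cexp (-(sx ξ * x)) = ((3 * max (1 - x) 0 ^ 2 : ℝ) : ℂ) := by
  rw [ofReal_mul, ← perron 1, ← integral_const_mul]
  refine integral_congr_ae (.of_forall fun ξ => ?_)
  have := sx_ne ξ
  have e : cexp (sx ξ * ((1 - x : ℝ) : ℂ)) = cexp (sx ξ) * cexp (-(sx ξ * x)) := by
    rw [← Complex.exp_add]; congr 1; push_cast; ring
  simp only [ph, e]
  norm_num [Nat.factorial]
  field_simp
  norm_num

/-- the constant -/
def cc : ℝ := ∫ x in Set.Ioi (0 : ℝ), (3 * max (1 - x) 0 ^ 2) ^ 2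

lemma cc_pos : 0 < cc := by
  have hi : IntegrableOn (fun x : ℝ => (3 * max (1 - x) 0 ^ 2) ^ 2) (Set.Ioi 0) := by
    refine (Continuous.integrableOn_Icc (a := 0) (b := 1) (by fun_prop)).of_forall_sdiff_eq_zero
      measurableSet_Ioi fun x hx => ?_
    have : 1 < x := by
      by_contra h
      exact hx.2 ⟨le_of_lt hx.1, not_lt.1 h⟩
    simp [max_eq_right (sub_nonpos.2 this.le)]
  rw [cc, setIntegral_pos_iff_support_of_nonneg_ae (.of_forall fun x => sq_nonneg _) hi]
  refine lt_of_lt_of_le ?_ (measure_mono (s := Set.Ioo (0 : ℝ) 1) fun x hx => ⟨?_, hx.1⟩)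
  · simp
  · have : 0 < max (1 - x) 0 := lt_max_of_lt_left (sub_pos.2 hx.2)
    exact ne_of_gt (by positivity)

lemma cst : ∫ ξ : ℝ × ℝ, ph ξ.1 * ph ξ.2 * (sx ξ.1 * sx ξ.2 / (sx ξ.1 + sx ξ.2)) = cc := by
  let F : ℝ × ℝ → ℝ → ℂ := fun ξ x =>
    ph ξ.1 * sx ξ.1 * cexp (-(sx ξ.1 * x)) * (ph ξ.2 * sx ξ.2 * cexp (-(sx ξ.2 * x)))
  have h1 : ∀ ξ : ℝ × ℝ, ph ξ.1 * ph ξ.2 * (sx ξ.1 * sx ξ.2 / (sx ξ.1 + sx ξ.2)) =
      ∫ x in Set.Ioi (0 : ℝ), F ξ x := fun ξ => by
    have h := integral_exp_mul_complex_Ioi (a := -(sx ξ.1 + sx ξ.2)) (by simp [sx_re]) 0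
    have e : ∀ x : ℝ, F ξ x =
        ph ξ.1 * ph ξ.2 * (sx ξ.1 * sx ξ.2) * cexp (-(sx ξ.1 + sx ξ.2) * x) := fun x => by
      rw [show -(sx ξ.1 + sx ξ.2) * x = -(sx ξ.1 * x) + -(sx ξ.2 * x) by ring, Complex.exp_add]
      simp only [F]
      ring
    simp only [e]
    rw [integral_const_mul, h, neg_div_neg_eq]
    simp [div_eq_mul_inv, mul_assoc]
  have h2 : Integrable (uncurry F) (volume.prod (volume.restrict (Set.Ioi 0))) := by
    have hp := ph_cont
    refine ((ps_int.mul_prod ps_int).mul_prod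
      (integrableOn_exp_mul_Ioi (a := -2) (by norm_num) 0)).mono'
      (Continuous.aestronglyMeasurable (by unfold uncurry; fun_prop)) (.of_forall fun z => ?_)
    simp only [uncurry, F, norm_mul, Complex.norm_exp, neg_re, mul_re, sx_re, ofReal_re,
      ofReal_im, mul_zero, sub_zero, one_mul]
    rw [show -2 * z.2 = -z.2 + -z.2 by ring, Real.exp_add]
    exact le_of_eq (by ring)
  simp only [h1]
  rw [integral_integral_swap h2, cc, ← integral_complex_ofReal]
  refine integral_congr_ae (.of_forall fun x => ?_)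
  simp only [F]
  rw [Measure.volume_eq_prod, integral_prod_mul (fun ξ => ph ξ * sx ξ * cexp (-(sx ξ * x)))
    (fun ξ => ph ξ * sx ξ * cexp (-(sx ξ * x))), rep', ← ofReal_mul, ← sq]

end KerH

open KerH in
theorem ker : KerStmt :=
  ⟨{ χ := fun x => max (1 - x) 0 ^ 3
     φ := ph
     s := sx
     c := cc
     zero := by simp
     supp := fun x hx => by simp [max_eq_right (sub_nonpos.2 hx)]
     bd := fun x hx => by
      rw [abs_of_nonneg (pow_nonneg (le_max_right _ _) _)]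
      exact pow_le_one₀ (le_max_right _ _) (max_le (by linarith) zero_le_one)
     cφ := ph_cont
     cs := sx_cont
     re := sx_re
     int := ph_int
     rep := fun x _ => rep x
     pos := cc_pos
     cst := cst }⟩

end Pool.Agent.MP_a43263_nt.GT
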