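import Mathlib
import Pool.Agent.MP_a43263_nt.GT.Spec

/-! PROJECT GT7, row LOC: local factors and the product over the large primes. -/

set_option autoImplicit false

noncomputable section

namespace Pool.Agent.MP_a43263_nt.GT

open Finset Filter MeasureTheory Function
open DH (E ind)

namespace Loc

section Prod

variable {ι : Type} [DecidableEq ι] {t : ι → ℂ} {B : ℝ}

lemma first (hB : 0 ≤ B) (h : ∀ j, ‖t j‖ ≤ B) (s : Finset ι) :
    ‖∏ j ∈ s, (1 + t j) - 1‖ ≤ (1 + B) ^ s.card * ∑ j ∈ s, ‖t j‖ := by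
  induction s using Finset.induction_on with
  | empty => simp
  | insert a s ha ih =>
    rw [prod_insert ha, sum_insert ha, card_insert_of_notMem ha,
      show (1 + t a) * ∏ j ∈ s, (1 + t j) - 1 = (1 + t a) * (∏ j ∈ s, (1 + t j) - 1) + t a by ring]
    have h1 : ‖1 + t a‖ ≤ 1 + B := (norm_add_le _ _).trans (by simpa using h a)
    have h2 : 1 ≤ (1 + B) ^ (s.card + 1) := one_le_pow₀ (by linarith)
    have h3 := mul_le_mul h1 ih (norm_nonneg _) (by linarith)
    have h4 := norm_add_le ((1 + t a) * (∏ j ∈ s, (1 + t j) - 1)) (t a)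
    rw [norm_mul] at h4
    have h5 := le_mul_of_one_le_left (norm_nonneg (t a)) h2
    rw [pow_succ] at h5 ⊢
    linarith

lemma second (hB : 0 ≤ B) (h : ∀ j, ‖t j‖ ≤ B) (s : Finset ι) :
    ‖∏ j ∈ s, (1 + t j) - 1 - ∑ j ∈ s, t j‖ ≤
      (1 + B) ^ s.card * ∑ i ∈ s, ∑ j ∈ s, if i = j then 0 else ‖t i‖ * ‖t j‖ := by
  induction s using Finset.induction_on with
  | empty => simp
  | insert a s ha ih =>
    have e : ∑ j ∈ insert a s, (if a = j then 0 else ‖t a‖ * ‖t j‖) = ‖t a‖ * ∑ j ∈ s, ‖t j‖ := by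
      rw [sum_insert ha, if_pos rfl, zero_add, mul_sum]
      exact sum_congr rfl fun j hj => if_neg fun e : a = j => ha (e ▸ hj)
    have p : ∀ i j, 0 ≤ if i = j then 0 else ‖t i‖ * ‖t j‖ := fun i j => by
      split_ifs <;> positivity
    have e2 : (∑ i ∈ s, ∑ j ∈ s, if i = j then 0 else ‖t i‖ * ‖t j‖) ≤
        ∑ i ∈ s, ∑ j ∈ insert a s, if i = j then 0 else ‖t i‖ * ‖t j‖ :=
      sum_le_sum fun i _ => sum_le_sum_of_subset_of_nonneg (subset_insert _ _) fun j _ _ => p i j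
    rw [prod_insert ha, sum_insert ha, sum_insert ha, card_insert_of_notMem ha, e,
      show (1 + t a) * ∏ j ∈ s, (1 + t j) - 1 - (t a + ∑ j ∈ s, t j) =
        (∏ j ∈ s, (1 + t j) - 1 - ∑ j ∈ s, t j) + t a * (∏ j ∈ s, (1 + t j) - 1) by ring]
    refine (norm_add_le _ _).trans ?_
    rw [norm_mul]
    have h1 := mul_le_mul_of_nonneg_left (first hB h s) (norm_nonneg (t a))
    have h2 : (1 + B) ^ s.card ≤ (1 + B) ^ (s.card + 1) :=
      pow_le_pow_right₀ (by linarith) (Nat.le_succ _)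
    have h3 : 0 ≤ ‖t a‖ * ∑ j ∈ s, ‖t j‖ := by positivity
    have h4 := mul_le_mul h2 e2 (sum_nonneg fun i _ => sum_nonneg fun j _ => p i j)
      (by positivity)
    have h5 := mul_le_mul_of_nonneg_right h2 h3
    rw [mul_add]
    linarith

end Prod

section Box

variable {τ : Type} [Fintype τ] [DecidableEq τ] {p : ℕ}

lemma box_sum {M ι : Type} [Field M] (s : Finset ι) (F : ι → (τ → ℤ) → M) :
    box p (fun y => ∑ j ∈ s, F j y) = ∑ j ∈ s, box p (F j) := by
  simp only [box]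
  rw [sum_comm, sum_div]

lemma box_mul {M : Type} [Field M] (c : M) (F : (τ → ℤ) → M) :
    box p (fun y => F y * c) = box p F * c := by
  simp only [box]
  rw [← sum_mul, mul_div_right_comm]

lemma box_sub {M : Type} [Field M] (F G : (τ → ℤ) → M) :
    box p (fun y => F y - G y) = box p F - box p G := by
  simp only [box]
  rw [sum_sub_distrib, sub_div]

lemma box_one (hp : p ≠ 0) : box p (fun _ : τ → ℤ => (1 : ℂ)) = 1 := by
  simp [box, hp]

lemma box_re (F : (τ → ℤ) → ℝ) : box p (fun y => (F y : ℂ)) = (box p F : ℝ) := by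
  simp [box]

lemma norm_box {F : (τ → ℤ) → ℂ} {G : (τ → ℤ) → ℝ} (h : ∀ y, ‖F y‖ ≤ G y) :
    ‖box p F‖ ≤ box p G := by
  simp only [box, norm_div, norm_pow, Complex.norm_natCast]
  exact div_le_div_of_nonneg_right ((norm_sum_le _ _).trans (sum_le_sum fun y _ => h _))
    (by positivity)

end Box

lemma one_sub {a : ℂ} {q : ℝ} (ha : ‖a‖ ≤ 1) (h0 : 0 ≤ q) (h : q ≤ 1 / 2) :
    1 / 2 ≤ ‖1 - a * q‖ ∧ ‖1 - a * q‖ ≤ 3 / 2 := by
  have h1 : ‖a * q‖ ≤ 1 / 2 := by
    rw [norm_mul, Complex.norm_real, Real.norm_of_nonneg h0]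
    nlinarith [norm_nonneg a]
  have h2 := norm_sub_norm_le 1 (a * q)
  have h3 := norm_sub_le 1 (a * q)
  rw [norm_one] at h2 h3
  constructor <;> linarith

lemma ef_est {p : ℕ} {a a' : ℂ} (hp : 2 ≤ p) (ha : ‖a‖ ≤ 1) (ha' : ‖a'‖ ≤ 1) :
    1 / 6 ≤ ‖ef p a a'‖ ∧
      ‖ef p a a' - 1 + ((p : ℝ)⁻¹ : ℝ) * (a + a' - a * a')‖ ≤ 8 * (p : ℝ)⁻¹ ^ 2 := by
  have h0 : (0 : ℝ) ≤ (p : ℝ)⁻¹ := by positivity
  have h1 : (p : ℝ)⁻¹ ≤ 1 / 2 := by
    rw [one_div]; exact inv_anti₀ two_pos (by exact_mod_cast hp)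
  have e : ef p a a' = (1 - a * ((p : ℝ)⁻¹ : ℝ)) * (1 - a' * ((p : ℝ)⁻¹ : ℝ)) /
      (1 - a * a' * ((p : ℝ)⁻¹ : ℝ)) := by simp [ef, div_eq_mul_inv]
  rw [e]
  generalize (p : ℝ)⁻¹ = q at h0 h1
  have haa : ‖a * a'‖ ≤ 1 := by rw [norm_mul]; exact mul_le_one₀ ha (norm_nonneg _) ha'
  obtain ⟨a1, -⟩ := one_sub ha h0 h1
  obtain ⟨a2, -⟩ := one_sub ha' h0 h1
  obtain ⟨a3, a4⟩ := one_sub haa h0 h1
  have n0 : 0 < ‖1 - a * a' * q‖ := by linarith
  constructor
  · rw [norm_div, norm_mul, le_div_iff₀ n0]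
    nlinarith
  · have n1 := norm_pos_iff.1 n0
    rw [show (1 - a * q) * (1 - a' * q) / (1 - a * a' * q) - 1 + q * (a + a' - a * a') =
      a * a' * ((1 - a) * (1 - a')) * q ^ 2 / (1 - a * a' * q) by
        rw [eq_div_iff n1, add_mul, sub_mul, div_mul_cancel₀ _ n1]; ring,
      norm_div, div_le_iff₀ n0, norm_mul, norm_mul, norm_mul (1 - a), norm_pow, Complex.norm_real,
      Real.norm_of_nonneg h0]
    have b1 : ‖1 - a‖ ≤ 2 := (norm_sub_le _ _).trans (by rw [norm_one]; linarith)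
    have b2 : ‖1 - a'‖ ≤ 2 := (norm_sub_le _ _).trans (by rw [norm_one]; linarith)
    have b3 := mul_le_mul haa (mul_le_mul b1 b2 (norm_nonneg _) two_pos.le) (by positivity)
      one_pos.le
    have b4 := mul_le_mul_of_nonneg_right b3 (sq_nonneg q)
    have b5 := mul_le_mul_of_nonneg_left a3 (sq_nonneg q)
    linarith

lemma dsum_le {ι : Type} [Fintype ι] {f : ι → ι → ℝ} {c : ℝ} (h : ∀ i j, f i j ≤ c) :
    ∑ i, ∑ j, f i j ≤ (Fintype.card ι : ℝ) ^ 2 * c := by
  refine (sum_le_sum fun i _ => sum_le_sum fun j _ => h i j).trans ?_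
  simp [sq, mul_assoc]

end Loc

open Loc in
theorem loc : LocStmt := by
  classical
  intro ι _
  set m := Fintype.card ι with hm
  refine ⟨6 ^ m * (4 ^ m * (m ^ 2 * 9) + 5 ^ m * (m ^ 2 * 49) + m * 8),
    fun τ _ _ p A a a' hp ha ha' h1 h2 => ?_⟩
  have q0 : (0 : ℝ) ≤ (p : ℝ)⁻¹ := by positivity
  have q1 : (p : ℝ)⁻¹ ≤ 1 / 2 := by
    rw [one_div]; exact inv_anti₀ two_pos (by exact_mod_cast hp)
  rw [div_eq_mul_inv, ← inv_pow]
  have hef := fun j => ef_est hp (ha j) (ha' j)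
  set q := (p : ℝ)⁻¹
  set u := fun j => a j + a' j - a j * a' j with hu
  have u3 : ∀ j, ‖u j‖ ≤ 3 := fun j => by
    have b1 := norm_sub_le (a j + a' j) (a j * a' j)
    have b2 := norm_add_le (a j) (a' j)
    have b3 := mul_le_one₀ (ha j) (norm_nonneg _) (ha' j)
    rw [norm_mul] at b1
    linarith [ha j, ha' j]
  have s1 : ‖(box p fun y => ∏ j, (1 - (ind (A j y) : ℝ) * a j) *
      (1 - (ind (A j y) : ℝ) * a' j)) - 1 - ∑ j, (q : ℂ) * -u j‖ ≤ 4 ^ m * (m ^ 2 * 9) * q ^ 2 := by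
    have e : ∑ j, (q : ℂ) * -u j = box p fun y => ∑ j, ((ind (A j y) : ℝ) : ℂ) * -u j := by
      rw [box_sum]
      exact sum_congr rfl fun j _ => by rw [box_mul, box_re, h1]
    rw [e, ← box_one (τ := τ) (p := p) (by omega), ← box_sub, ← box_sub, box_one (by omega)]
    refine (norm_box (G := fun y => (∑ i, ∑ j, if i = j then 0 else ind (A i y ∧ A j y)) *
      (4 ^ m * 9)) fun y => ?_).trans ?_
    · have n1 : ∀ j, ‖((ind (A j y) : ℝ) : ℂ) * -u j‖ ≤ ind (A j y) * 3 := fun j => by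
        rw [norm_mul, norm_neg, Complex.norm_real, Real.norm_of_nonneg (DH.ind_nonneg _)]
        exact mul_le_mul_of_nonneg_left (u3 j) (DH.ind_nonneg _)
      have := second (B := 3) (by norm_num)
        (fun j => (n1 j).trans (by linarith [DH.ind_le_one (A j y)])) univ
      have e' : ∀ j, (1 - (ind (A j y) : ℝ) * a j) * (1 - (ind (A j y) : ℝ) * a' j) =
          1 + ((ind (A j y) : ℝ) : ℂ) * -u j := fun j => by
        by_cases h : A j y
        · rw [DH.ind_true h, hu]; push_cast; ring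
        · rw [DH.ind_false h]; simp
      simp only [e']
      refine this.trans ?_
      rw [mul_comm, card_univ, ← hm, show (1 : ℝ) + 3 = 4 by norm_num, mul_comm (4 ^ m : ℝ),
        ← mul_assoc, sum_mul _ _ 9]
      refine mul_le_mul_of_nonneg_right (sum_le_sum fun i _ => ?_) (by positivity)
      rw [sum_mul]
      refine sum_le_sum fun j _ => ?_
      split_ifs
      · simp
      refine (mul_le_mul (n1 i) (n1 j) (norm_nonneg _)
        (mul_nonneg (DH.ind_nonneg _) (by norm_num))).trans (le_of_eq ?_)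
      by_cases b1 : A i y <;> by_cases b2 : A j y <;> simp [ind, b1, b2]
      norm_num
    · rw [box_mul, box_sum]
      simp only [box_sum]
      have := dsum_le (c := q ^ 2)
        (f := fun i j => box p fun y => if i = j then 0 else ind (A i y ∧ A j y)) fun i j => by
          by_cases e : i = j
          · simpa [e, box] using sq_nonneg q
          · simpa only [if_neg e] using h2 i j e
      have := mul_le_mul_of_nonneg_right this (show (0 : ℝ) ≤ 4 ^ m * 9 by positivity)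
      linarith
  have t7 : ∀ j, ‖ef p (a j) (a' j) - 1‖ ≤ 7 * q := fun j => by
    have b1 := norm_sub_le (ef p (a j) (a' j) - 1 + q * u j) (q * u j)
    rw [add_sub_cancel_right, norm_mul, Complex.norm_real, Real.norm_of_nonneg q0] at b1
    have b2 := (hef j).2
    have b3 := mul_le_mul_of_nonneg_left (u3 j) q0
    change ‖ef p (a j) (a' j) - 1 + q * u j‖ ≤ _ at b2
    nlinarith
  have s2 : ‖∏ j, ef p (a j) (a' j) - 1 - ∑ j, (ef p (a j) (a' j) - 1)‖ ≤
      5 ^ m * (m ^ 2 * 49) * q ^ 2 := by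
    have := second (B := 4) (by norm_num) (fun j => (t7 j).trans (by linarith)) univ
    simp only [add_sub_cancel] at this
    refine this.trans ?_
    rw [card_univ, ← hm, show (1 : ℝ) + 4 = 5 by norm_num, mul_assoc, mul_assoc]
    refine mul_le_mul_of_nonneg_left (dsum_le fun i j => ?_) (by positivity)
    split_ifs
    · positivity
    · exact (mul_le_mul (t7 i) (t7 j) (norm_nonneg _) (by positivity)).trans (le_of_eq (by ring))
  have s3 : ‖∑ j, (ef p (a j) (a' j) - 1) - ∑ j, (q : ℂ) * -u j‖ ≤ m * 8 * q ^ 2 := by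
    rw [← sum_sub_distrib]
    refine (norm_sum_le _ _).trans ((sum_le_sum (g := fun _ => 8 * q ^ 2) fun j _ => ?_).trans ?_)
    · rw [mul_neg, sub_neg_eq_add]; exact (hef j).2
    · simp [hm, mul_assoc]
  have s4 : 1 ≤ 6 ^ m * ‖∏ j, ef p (a j) (a' j)‖ := by
    rw [norm_prod, hm, ← card_univ, ← prod_const, ← prod_mul_distrib]
    exact (prod_const_one (s := univ)).ge.trans
      (prod_le_prod (fun _ _ => one_pos.le) fun j _ => by linarith [(hef j).1])
  generalize (box p fun y => ∏ j, (1 - (ind (A j y) : ℝ) * a j) *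
    (1 - (ind (A j y) : ℝ) * a' j) : ℂ) = X at s1 ⊢
  generalize ∏ j, ef p (a j) (a' j) = Y at s2 s4 ⊢
  generalize ∑ j, (ef p (a j) (a' j) - 1) = Z at s2 s3
  generalize ∑ j, (q : ℂ) * -u j = U at s1 s3
  have b1 := norm_sub_le (X - 1 - U - (Y - 1 - Z)) (Z - U)
  have b2 := norm_sub_le (X - 1 - U) (Y - 1 - Z)
  rw [show X - 1 - U - (Y - 1 - Z) - (Z - U) = X - Y by ring] at b1
  have b3 := le_mul_of_one_le_right (show (0 : ℝ) ≤
    (4 ^ m * (m ^ 2 * 9) + 5 ^ m * (m ^ 2 * 49) + m * 8) * q ^ 2 by positivity) s4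
  linarith

theorem prod : ProdStmt := by
  intro C ε hε
  have h0 : Tendsto (fun w : ℕ => Real.exp (|C| * (w : ℝ)⁻¹) - 1) atTop (nhds 0) := by
    have := ((Real.continuous_exp.tendsto _).comp
      ((tendsto_inv_atTop_nhds_zero_nat (𝕜 := ℝ)).const_mul |C|)).sub_const 1
    simpa using this
  filter_upwards [h0.eventually (ge_mem_nhds hε), eventually_ne_atTop 0] with w hw w0 S u v hS h
  by_cases hv : ∃ p ∈ S, v p = 0
  · obtain ⟨p, hp, e⟩ := hv
    have : u p = 0 := by simpa [e] using h p hp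
    simp [prod_eq_zero hp e, prod_eq_zero hp this]
  push Not at hv
  have e : ∏ p ∈ S, u p - ∏ p ∈ S, v p =
      (∏ p ∈ S, (1 + (u p - v p) / v p) - 1) * ∏ p ∈ S, v p := by
    rw [sub_mul, one_mul, ← prod_mul_distrib]
    congr 1
    exact prod_congr rfl fun p hp => by field_simp [hv p hp]; ring
  rw [e, norm_mul]
  refine mul_le_mul_of_nonneg_right ((norm_prod_one_add_sub_one_le _ _).trans
    (le_trans ?_ hw)) (norm_nonneg _)
  gcongr
  have h1 : ∑ p ∈ S, ‖(u p - v p) / v p‖ ≤ ∑ p ∈ S, |C| * ((p : ℝ) ^ 2)⁻¹ :=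
    sum_le_sum fun p hp => by
      rw [norm_div, div_le_iff₀ (norm_pos_iff.2 (hv p hp)), ← div_eq_mul_inv]
      refine (h p hp).trans ?_
      gcongr
      exact le_abs_self C
  refine h1.trans ?_
  rw [← mul_sum]
  gcongr
  have h2 := sum_Ioc_inv_sq_le_sub (α := ℝ) w0 (le_max_left w (S.sup id))
  have h3 : ∑ p ∈ S, ((p : ℝ) ^ 2)⁻¹ ≤ ∑ p ∈ Ioc w (max w (S.sup id)), ((p : ℝ) ^ 2)⁻¹ :=
    sum_le_sum_of_subset_of_nonneg (fun p hp => mem_Ioc.2
      ⟨hS p hp, le_max_of_le_right (le_sup (f := id) hp)⟩) fun _ _ _ => by positivity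
  have h4 : (0 : ℝ) ≤ ((max w (S.sup id) : ℕ) : ℝ)⁻¹ := by positivity
  linarith

end Pool.Agent.MP_a43263_nt.GT
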