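import Mathlib
import Pool.Agent.MP_a43263_nt.GT.Spec

/-! PROJECT GT7, row MOD: the estimate of Goldston and Yildirim over a full period. -/

set_option autoImplicit false

noncomputable section

namespace Pool.Agent.MP_a43263_nt.GT

open Finset Filter MeasureTheory Function
open DH (E ind)

namespace Mod

lemma norm_al_le (K : Ker) {L : ℝ} (hL : 0 < L) (p : ℕ) (ξ : ℝ) : ‖al K L p ξ‖ ≤ 1 := by
  rw [al, Complex.norm_exp, Real.exp_le_one_iff, Complex.neg_re, Complex.re_mul_ofReal, K.re,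
    one_mul, neg_nonpos]
  exact div_nonneg (Real.log_natCast_nonneg p) hL.le

lemma nrm_nonneg (K : Ker) (w : ℕ) {L : ℝ} (hL : 0 < L) : 0 ≤ nrm K w L := by
  refine div_nonneg (mul_nonneg (prod_nonneg fun p hp => ?_) hL.le) K.pos.le
  have h : (1 : ℝ) ≤ p := by exact_mod_cast (mem_filter.1 hp).2.one_lt.le
  exact sub_nonneg.2 (inv_le_one_of_one_le₀ h)

lemma not_dvd_primorial {w p : ℕ} (hp : p.Prime) (h : w < p) : ¬(p : ℤ) ∣ (primorial w : ℤ) := by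
  rw [Int.natCast_dvd_natCast, hp.dvd_primorial_iff]
  omega

lemma not_dvd_small {w p : ℕ} (h : w < p) {a : ℤ} (h0 : a ≠ 0) (ha : a.natAbs ≤ w) :
    ¬(p : ℤ) ∣ a := fun hd => by
  have := Nat.le_of_dvd (Int.natAbs_pos.2 h0) (Int.natCast_dvd.1 hd)
  omega

lemma pow_near (m : ℕ) {ε : ℝ} (hε : 0 < ε) :
    ∃ e : ℝ, 0 < e ∧ ∀ Z : ℂ, ‖Z - 1‖ ≤ e → ‖Z ^ m - 1‖ ≤ ε := by
  have h : ContinuousAt (fun Z : ℂ => Z ^ m) 1 := (continuous_pow m).continuousAt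
  obtain ⟨δ, hδ, H⟩ := Metric.continuousAt_iff.1 h ε hε
  refine ⟨δ / 2, half_pos hδ, fun Z hZ => ?_⟩
  have := H (x := Z) (by rw [dist_eq_norm]; linarith)
  rw [dist_eq_norm, one_pow] at this
  exact this.le

variable {ι τ : Type} [Fintype ι] [Fintype τ] [DecidableEq τ]

/-- the pointwise comparison of the integrand with the model -/
lemma pointwise (K : Ker) (S : Finset ℕ) (L e : ℝ) (ψ : ι → τ → ℤ) (b : ι → ℤ) (ξ : ι → ℝ × ℝ)
    (h : ‖(∏ p ∈ S, box p fun y =>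
      ∏ j, (1 - (ind ((p : ℤ) ∣ aff (ψ j) (b j) y) : ℝ) * al K L p (ξ j).1) *
        (1 - (ind ((p : ℤ) ∣ aff (ψ j) (b j) y) : ℝ) * al K L p (ξ j).2)) -
      ∏ p ∈ S, ∏ j, ef p (al K L p (ξ j).1) (al K L p (ξ j).2)‖ ≤
      e * ‖∏ p ∈ S, ∏ j, ef p (al K L p (ξ j).1) (al K L p (ξ j).2)‖) :
    ‖rp K S L ψ b ξ - ∏ j, kern K S L (ξ j)‖ ≤ e * ∏ j, ‖kern K S L (ξ j)‖ := by
  have e1 : ∏ j, kern K S L (ξ j) = (∏ j, K.φ (ξ j).1 * K.φ (ξ j).2) *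
      ∏ p ∈ S, ∏ j, ef p (al K L p (ξ j).1) (al K L p (ξ j).2) := by
    rw [Finset.prod_comm (s := S), ← prod_mul_distrib]; rfl
  rw [← norm_prod, e1, rp, ← mul_sub, norm_mul, norm_mul, mul_left_comm]
  exact mul_le_mul_of_nonneg_left h (norm_nonneg _)

/-- integration of the pointwise comparison -/
lemma integ {f : (ι → ℝ × ℝ) → ℂ} {g : ℝ × ℝ → ℂ} {n e e' C x : ℝ} (hf : Integrable f)
    (hg : Integrable g) (hn : 0 ≤ n) (he : 0 ≤ e) (hx : (x : ℂ) = ∫ ξ, f ξ)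
    (h : ∀ ξ, ‖f ξ - ∏ j, g (ξ j)‖ ≤ e * ∏ j, ‖g (ξ j)‖) (h1 : n * ∫ ξ, ‖g ξ‖ ≤ C)
    (h2 : ‖((n : ℂ) * ∫ ξ, g ξ) ^ Fintype.card ι - 1‖ ≤ e') :
    |n ^ Fintype.card ι * x - 1| ≤ e * C ^ Fintype.card ι + e' := by
  have i1 : Integrable fun ξ : ι → ℝ × ℝ => ∏ j, g (ξ j) := Integrable.fintype_prod fun _ => hg
  have i2 : Integrable fun ξ : ι → ℝ × ℝ => ∏ j, ‖g (ξ j)‖ :=
    Integrable.fintype_prod (f := fun _ ξ => ‖g ξ‖) fun _ => hg.norm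
  have e1 : ∫ ξ : ι → ℝ × ℝ, ∏ j, g (ξ j) = (∫ ξ, g ξ) ^ Fintype.card ι :=
    integral_fintype_prod_volume_eq_pow g
  have e2 : ∫ ξ : ι → ℝ × ℝ, ∏ j, ‖g (ξ j)‖ = (∫ ξ, ‖g ξ‖) ^ Fintype.card ι :=
    integral_fintype_prod_volume_eq_pow fun ξ => ‖g ξ‖
  have h3 : ‖(x : ℂ) - (∫ ξ, g ξ) ^ Fintype.card ι‖ ≤ e * (∫ ξ, ‖g ξ‖) ^ Fintype.card ι := by
    rw [hx, ← e1, ← e2, ← integral_sub hf i1, ← integral_const_mul]
    exact norm_integral_le_of_norm_le (i2.const_mul e) (.of_forall h)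
  have h4 : (n * ∫ ξ, ‖g ξ‖) ^ Fintype.card ι ≤ C ^ Fintype.card ι :=
    pow_le_pow_left₀ (mul_nonneg hn (integral_nonneg fun _ => norm_nonneg _)) h1 _
  have e3 : ((n ^ Fintype.card ι * x - 1 : ℝ) : ℂ) =
      (n : ℂ) ^ Fintype.card ι * ((x : ℂ) - (∫ ξ, g ξ) ^ Fintype.card ι) +
        (((n : ℂ) * ∫ ξ, g ξ) ^ Fintype.card ι - 1) := by
    push_cast; ring
  rw [← Real.norm_eq_abs, ← Complex.norm_real, e3]
  refine (norm_add_le _ _).trans (add_le_add ?_ h2)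
  rw [norm_mul, norm_pow, Complex.norm_real, Real.norm_of_nonneg hn]
  calc _ ≤ n ^ Fintype.card ι * (e * (∫ ξ, ‖g ξ‖) ^ Fintype.card ι) :=
        mul_le_mul_of_nonneg_left h3 (pow_nonneg hn _)
    _ = e * (n * ∫ ξ, ‖g ξ‖) ^ Fintype.card ι := by ring
    _ ≤ _ := mul_le_mul_of_nonneg_left h4 he

end Mod

theorem mod (rep : RepStmt) (cnt : CntStmt) (loc : LocStmt) (prod : ProdStmt) (zeta : ZetaStmt) :
    ModStmt := by
  intro K ι τ _ _ _ ψ h1 h2 ε hε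
  obtain ⟨C, hC⟩ := zeta K
  obtain ⟨C', hC'⟩ := loc ι
  obtain ⟨e', he', H'⟩ := Mod.pow_near (Fintype.card ι) (half_pos hε)
  have hp : 0 < (|C| + 1) ^ Fintype.card ι := by positivity
  have he : 0 < ε / 2 / (|C| + 1) ^ Fintype.card ι := div_pos (half_pos hε) hp
  have w1 : ∀ᶠ w : ℕ in atTop, ∀ j t, (ψ j t).natAbs ≤ w :=
    eventually_all.2 fun j => eventually_all.2 fun t => eventually_ge_atTop _
  have w2 : ∀ᶠ w : ℕ in atTop, ∀ i j t t', (ψ i t * ψ j t' - ψ i t' * ψ j t).natAbs ≤ w :=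
    eventually_all.2 fun i => eventually_all.2 fun j => eventually_all.2 fun t =>
      eventually_all.2 fun t' => eventually_ge_atTop _
  filter_upwards [w1, w2, prod C' _ he] with w w1 w2 w3
  filter_upwards [hC w e' he', eventually_gt_atTop 0] with L hL L0
  filter_upwards [hL] with Y hY b
  obtain ⟨y1, y2, y3⟩ := hY
  have hS : ∀ p ∈ pr w Y, p.Prime ∧ w < p := fun p hp =>
    ⟨(mem_filter.1 hp).2, (mem_Ioc.1 (mem_filter.1 hp).1).1⟩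
  obtain ⟨r1, r2⟩ := rep K ι τ (pr w Y) L (fun j t => primorial w * ψ j t) b
    (fun p hp => (hS p hp).1) L0
  have := Mod.integ r1 y1 (Mod.nrm_nonneg K w L0) he.le r2 (fun ξ => ?_)
    (y3.trans ((le_abs_self C).trans (le_add_of_nonneg_right zero_le_one))) (H' _ y2)
  · rwa [div_mul_cancel₀ _ hp.ne', add_halves] at this
  refine Mod.pointwise K _ L _ _ b ξ (w3 _ _ _ (fun p hp => (hS p hp).2) fun p hp => ?_)
  obtain ⟨p1, p2⟩ := hS p hp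
  have pz : Prime (p : ℤ) := Nat.prime_iff_prime_int.1 p1
  have pW := Mod.not_dvd_primorial p1 p2
  refine hC' τ p (fun j y => (p : ℤ) ∣ aff (fun t => primorial w * ψ j t) (b j) y) _ _ p1.two_le
    (fun j => Mod.norm_al_le K L0 _ _) (fun j => Mod.norm_al_le K L0 _ _) (fun j => ?_)
    fun i j hij => ?_
  · obtain ⟨t, ht⟩ := h1 j
    exact (cnt τ p _ (fun _ => 0) (b j) 0 p1).1 ⟨t, fun hd =>
      (pz.dvd_or_dvd hd).elim pW (Mod.not_dvd_small p2 ht (w1 j t))⟩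
  · obtain ⟨t, t', ht⟩ := h2 i j hij
    refine (cnt τ p _ _ (b i) (b j) p1).2 ⟨t, t', fun hd => ?_⟩
    rw [show (primorial w : ℤ) * ψ i t * (primorial w * ψ j t') -
      primorial w * ψ i t' * (primorial w * ψ j t) = primorial w * (primorial w *
        (ψ i t * ψ j t' - ψ i t' * ψ j t)) by ring] at hd
    exact (pz.dvd_or_dvd hd).elim pW fun hd => (pz.dvd_or_dvd hd).elim pW
      (Mod.not_dvd_small p2 ht (w2 i j t t'))

end Pool.Agent.MP_a43263_nt.GT
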