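import Mathlib
import Pool.Agent.MP_a43263_nt.GT.Spec

/-! PROJECT GT7, row REP: the mean over a full period as an integral of an Euler product. -/

set_option autoImplicit false

noncomputable section

namespace Pool.Agent.MP_a43263_nt.GT

open Finset Filter MeasureTheory Function
open DH (E ind)

namespace RepA

variable (K : Ker)

lemma int_phi : Integrable K.φ := by
  refine K.int.mono' K.cφ.aestronglyMeasurable (Eventually.of_forall fun ξ => ?_)
  have h : 1 ≤ ‖K.s ξ‖ := by simpa [K.re] using Complex.re_le_norm (K.s ξ)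
  exact le_mul_of_one_le_left (norm_nonneg _) (one_le_pow₀ h)

lemma int_exp {x : ℝ} (hx : 0 ≤ x) : Integrable fun ξ => K.φ ξ * Complex.exp (-(K.s ξ * x)) := by
  have := K.cs
  refine (int_phi K).mul_bdd (c := 1) (Continuous.aestronglyMeasurable (by fun_prop))
    (Eventually.of_forall fun ξ => ?_)
  rw [Complex.norm_exp]
  simpa [K.re] using hx

/-- the integrand for one integer -/
def g (S : Finset ℕ) (L : ℝ) (n : ℤ) (ξ : ℝ) : ℂ :=
  K.φ ξ * ∏ p ∈ S, (1 - (ind ((p : ℤ) ∣ n) : ℝ) * al K L p ξ)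

lemma prod_ind (T : Finset ℕ) (n : ℤ) :
    ∏ p ∈ T, ind ((p : ℤ) ∣ n) = ind (∀ p ∈ T, (p : ℤ) ∣ n) := by
  by_cases h : ∀ p ∈ T, (p : ℤ) ∣ n
  · rw [ind, if_pos h]
    exact prod_eq_one fun p hp => by rw [ind, if_pos (h p hp)]
  · rw [ind, if_neg h]
    push Not at h
    obtain ⟨p, hp, h⟩ := h
    exact prod_eq_zero hp (by rw [ind, if_neg h])

variable {S : Finset ℕ} {L : ℝ}

lemma g_eq (hS : ∀ p ∈ S, p.Prime) (n : ℤ) (ξ : ℝ) : g K S L n ξ = ∑ T ∈ S.powerset,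
    ((-1) ^ T.card * (ind (∀ p ∈ T, (p : ℤ) ∣ n) : ℝ)) * (K.φ ξ *
      Complex.exp (-(K.s ξ * ((Real.log (∏ p ∈ T, (p : ℝ)) / L : ℝ) : ℂ)))) := by
  rw [g, prod_sub, mul_sum]
  refine sum_congr rfl fun T hT => ?_
  have h0 : ∀ p ∈ T, (p : ℝ) ≠ 0 := fun p hp => by
    exact_mod_cast (hS p (mem_powerset.1 hT hp)).ne_zero
  rw [prod_const_one, mul_one, prod_mul_distrib, ← Complex.ofReal_prod, prod_ind,
    Real.log_prod h0, sum_div, Complex.ofReal_sum, mul_sum, ← sum_neg_distrib, Complex.exp_sum]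
  simp only [al]
  ring

lemma log_nonneg (hS : ∀ p ∈ S, p.Prime) (hL : 0 < L) {T : Finset ℕ} (hT : T ∈ S.powerset) :
    0 ≤ Real.log (∏ p ∈ T, (p : ℝ)) / L :=
  div_nonneg (Real.log_nonneg (Finset.one_le_prod fun p hp => by
    exact_mod_cast (hS p (mem_powerset.1 hT hp)).one_le)) hL.le

lemma int_g (hS : ∀ p ∈ S, p.Prime) (hL : 0 < L) (n : ℤ) : Integrable (g K S L n) := by
  rw [funext (g_eq K hS n)]
  exact integrable_finsetSum _ fun T hT => (int_exp K (log_nonneg hS hL hT)).const_mul _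

lemma lam_eq (hS : ∀ p ∈ S, p.Prime) (hL : 0 < L) (n : ℤ) :
    (lam K S L n : ℂ) = ∫ ξ, g K S L n ξ := by
  simp only [g_eq K hS n]
  rw [integral_finsetSum _ fun T hT => (int_exp K (log_nonneg hS hL hT)).const_mul _, lam,
    Complex.ofReal_sum]
  refine sum_congr rfl fun T hT => ?_
  rw [integral_const_mul, ← K.rep _ (log_nonneg hS hL hT)]
  push_cast
  ring

variable {ι τ : Type} [Fintype ι] [Fintype τ] [DecidableEq τ]

lemma int_prod (hS : ∀ p ∈ S, p.Prime) (hL : 0 < L) (n : ι → ℤ) :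
    Integrable fun ξ : ι → ℝ × ℝ => ∏ j, g K S L (n j) (ξ j).1 * g K S L (n j) (ξ j).2 :=
  Integrable.fintype_prod (f := fun j (z : ℝ × ℝ) => g K S L (n j) z.1 * g K S L (n j) z.2)
    fun _ => (int_g K hS hL _).mul_prod (int_g K hS hL _)

lemma prod_eq (hS : ∀ p ∈ S, p.Prime) (hL : 0 < L) (n : ι → ℤ) :
    ((∏ j, lam K S L (n j) ^ 2 : ℝ) : ℂ) =
      ∫ ξ : ι → ℝ × ℝ, ∏ j, g K S L (n j) (ξ j).1 * g K S L (n j) (ξ j).2 := by
  rw [integral_fintype_prod_volume_eq_prod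
    (fun j (z : ℝ × ℝ) => g K S L (n j) z.1 * g K S L (n j) z.2), Complex.ofReal_prod]
  refine prod_congr rfl fun j _ => ?_
  rw [Measure.volume_eq_prod, integral_prod_mul, ← lam_eq K hS hL]
  push_cast
  ring

lemma rp_eq (crt : CrtStmt) (hS : ∀ p ∈ S, p.Prime) (ψ : ι → τ → ℤ) (b : ι → ℤ)
    (ξ : ι → ℝ × ℝ) : rp K S L ψ b ξ = box (∏ p ∈ S, p) fun y =>
      ∏ j, g K S L (aff (ψ j) (b j) y) (ξ j).1 * g K S L (aff (ψ j) (b j) y) (ξ j).2 := by
  rw [rp, ← crt τ ℂ S _ hS fun p _ y y' h => ?_]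
  · simp only [box]
    rw [← mul_div_assoc, mul_sum]
    congr 1
    refine sum_congr rfl fun y _ => ?_
    rw [Finset.prod_comm, ← prod_mul_distrib]
    refine prod_congr rfl fun j _ => ?_
    rw [prod_mul_distrib, g, g]
    ring
  · refine prod_congr rfl fun j _ => ?_
    have : (p : ℤ) ∣ aff (ψ j) (b j) y - aff (ψ j) (b j) y' := by
      rw [aff, aff, add_sub_add_right_eq_sub, ← sum_sub_distrib]
      exact dvd_sum fun t _ => by rw [← mul_sub]; exact (h t).mul_left _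
    rw [show ((p : ℤ) ∣ aff (ψ j) (b j) y) = ((p : ℤ) ∣ aff (ψ j) (b j) y') from
      propext (dvd_iff_dvd_of_dvd_sub this)]

end RepA

open RepA in
theorem rep : CrtStmt → RepStmt := by
  intro crt K ι τ _ _ _ S L ψ b hS hL
  rw [funext (rp_eq K crt hS ψ b)]
  simp only [box, mdl]
  refine ⟨(integrable_finsetSum _ fun y _ => int_prod K hS hL _).div_const _, ?_⟩
  rw [integral_div, integral_finsetSum _ fun y _ => int_prod K hS hL _]
  simp only [← prod_eq K hS hL]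
  push_cast
  rfl

end Pool.Agent.MP_a43263_nt.GT
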