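import Mathlib
import Pool.Agent.MP_a43263_nt.GT.Spec
import Pool.Agent.MP_a43263_nt.GT.Wrap

/-! PROJECT GT7, row WRAP: from the cyclic group to the full period. -/

set_option autoImplicit false

noncomputable section

namespace Pool.Agent.MP_a43263_nt.GT

open Finset Filter MeasureTheory Function
open DH

namespace Wrp

open WrapH

theorem box_eq {τ : Type} [Fintype τ] [DecidableEq τ] (D : ℕ) (F : (τ → ℤ) → ℝ) :
    box D F = E fun y : τ → Fin D => F fun t => ((y t : ℕ) : ℤ) := by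
  rw [E_eq_div, box]
  simp [Nat.card_eq_fintype_card]

/-- the sets of primes with a small product -/
def TT (S : Finset ℕ) (L : ℝ) : Finset (Finset ℕ) :=
  S.powerset.filter fun T => ((∏ p ∈ T, p : ℕ) : ℝ) < Real.exp L

/-- the coefficients of the divisor sum -/
def cf (K : Ker) (L : ℝ) (T : Finset ℕ) : ℝ :=
  (-1) ^ T.card * K.χ (Real.log (∏ p ∈ T, (p : ℝ)) / L)

variable {K : Ker} {S : Finset ℕ} {L : ℝ}

theorem prod_pos' (hS : ∀ p ∈ S, p.Prime) {T : Finset ℕ} (hT : T ⊆ S) : 0 < ∏ p ∈ T, p :=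
  prod_pos fun p hp => (hS p (hT hp)).pos

theorem lam_eq (hL : 0 < L) (n : ℤ) :
    lam K S L n = ∑ T ∈ TT S L, cf K L T * ind (∀ p ∈ T, (p : ℤ) ∣ n) := by
  unfold lam TT
  rw [sum_filter]
  refine sum_congr rfl fun T _ => ?_
  split_ifs with h
  · rfl
  · rw [K.supp, mul_zero, zero_mul]
    rw [one_le_div hL, ← Real.log_exp L]
    exact Real.log_le_log (Real.exp_pos L) (by simpa using h)

theorem cf_le (hS : ∀ p ∈ S, p.Prime) (hL : 0 < L) {T : Finset ℕ} (hT : T ∈ TT S L) :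
    |cf K L T| ≤ 1 := by
  have h := prod_pos' hS (mem_powerset.1 (mem_filter.1 hT).1)
  rw [cf, abs_mul, abs_pow, abs_neg, abs_one, one_pow, one_mul]
  refine K.bd _ (div_nonneg (Real.log_nonneg ?_) hL.le)
  rw [← Nat.cast_prod]
  exact_mod_cast h

theorem card_TT (hS : ∀ p ∈ S, p.Prime) : ((TT S L).card : ℝ) ≤ Real.exp L := by
  have h : (TT S L).card ≤ (Icc 1 ⌊Real.exp L⌋₊).card := by
    refine card_le_card_of_injOn (fun T => ∏ p ∈ T, p) (fun T hT => ?_) fun T hT T' hT' e => ?_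
    · have h := mem_filter.1 (mem_coe.1 hT)
      exact mem_coe.2 (mem_Icc.2 ⟨prod_pos' hS (mem_powerset.1 h.1), Nat.le_floor h.2.le⟩)
    · have h := mem_powerset.1 (mem_filter.1 (mem_coe.1 hT)).1
      have h' := mem_powerset.1 (mem_filter.1 (mem_coe.1 hT')).1
      rw [← Nat.primeFactors_prod fun p hp => hS p (h hp),
        ← Nat.primeFactors_prod fun p hp => hS p (h' hp)]
      exact congrArg _ e
  rw [Nat.card_Icc, Nat.add_sub_cancel] at h
  exact (Nat.cast_le.2 h).trans (Nat.floor_le (Real.exp_pos L).le)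

variable {ι τ : Type} [Fintype ι] [Fintype τ] [DecidableEq τ]

/-- one term of the expansion -/
def I (T : ι × Bool → Finset ℕ) (n : ι → ℤ) : ℝ := ∏ q, ind (∀ p ∈ T q, (p : ℤ) ∣ n q.1)

theorem I_mem (T : ι × Bool → Finset ℕ) (n : ι → ℤ) : 0 ≤ I T n ∧ I T n ≤ 1 :=
  ⟨prod_nonneg fun _ _ => ind_nonneg _, prod_le_one (fun _ _ => ind_nonneg _) fun _ _ => ind_le_one _⟩

theorem I_per {T : ι × Bool → Finset ℕ} {D : ℕ} (h : ∀ q, ∀ p ∈ T q, p ∣ D) {n n' : ι → ℤ}
    (hn : ∀ j, (D : ℤ) ∣ n j - n' j) : I T n = I T n' :=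
  prod_congr rfl fun q _ => congrArg ind (propext (forall₂_congr fun p hp =>
    dvd_iff_dvd_of_dvd_sub ((Int.natCast_dvd_natCast.2 (h q p hp)).trans (hn q.1))))

theorem expand [DecidableEq ι] (hL : 0 < L) (n : ι → ℤ) : ∏ j, lam K S L (n j) ^ 2 =
    ∑ T ∈ Fintype.piFinset fun _ : ι × Bool => TT S L, (∏ q, cf K L (T q)) * I T n := by
  have e : ∏ j, lam K S L (n j) ^ 2 = ∏ q : ι × Bool, lam K S L (n q.1) := by
    rw [Fintype.prod_prod_type]
    simp
  rw [e]
  simp only [lam_eq hL]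
  rw [prod_univ_sum]
  exact sum_congr rfl fun T _ => prod_mul_distrib

/-- the estimate for one term -/
theorem term (per : PerStmt) (ψ : ι → τ → ℤ) (A : ℕ) (hA : ∀ j t, |ψ j t| ≤ A) (N : ℕ) [NeZero N]
    (W b : ℤ) (hu : ∀ j, ∃ t, IsUnit ((ψ j t : ℤ) : ZMod N)) (F : (ι → ℤ) → ℝ)
    (hF : ∀ n, 0 ≤ F n ∧ F n ≤ 1) (D P : ℕ) (hD : 0 < D) (hP : 0 < P)
    (pD : ∀ n n', (∀ j, (D : ℤ) ∣ n j - n' j) → F n = F n')
    (pP : ∀ n n', (∀ j, (P : ℤ) ∣ n j - n' j) → F n = F n') :
    |E (fun x : τ → ZMod N => F fun j => W * (∑ t, (ψ j t : ZMod N) * x t).val + b) -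
      E (fun x : τ → ZMod N => box P fun y => F fun j =>
        aff (fun t => W * ψ j t) (W * (∑ t, (ψ j t : ZMod N) * x t).val + b) y)| ≤
      2 * Fintype.card ι * (Fintype.card τ * A) * D / N := by
  have : Nonempty (Fin D) := ⟨⟨0, hD⟩⟩
  have hper : ∀ (c : ι → ℤ) (M : ℕ), (∀ n n', (∀ j, (M : ℤ) ∣ n j - n' j) → F n = F n') →
      Per M fun y => F fun j => aff (fun t => W * ψ j t) (c j) y := fun c M h y y' hy =>
    h _ _ fun j => by
      unfold aff
      rw [add_sub_add_right_eq_sub, ← sum_sub_distrib]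
      exact dvd_sum fun t _ => by rw [← mul_sub]; exact (hy t).mul_left _
  have hb : ∀ c : ι → ℤ, (box P fun y => F fun j => aff (fun t => W * ψ j t) (c j) y) =
      E fun y : τ → Fin D => F fun j => aff (fun t => W * ψ j t) (c j) fun t => ((y t : ℕ) : ℤ) :=
    fun c => by
      rw [← per τ ℝ P (D * P) _ (by positivity) (dvd_mul_left _ _) (hper c P pP),
        per τ ℝ D (D * P) _ (by positivity) (dvd_mul_right _ _) (hper c D pD), box_eq]
  simp only [hb]
  set M : ℕ := Fintype.card τ * A * D with hM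
  rw [shift (Ω := τ → Fin D) (fun y t => ((y t : ℕ) : ZMod N)), ← E_sub, ← sub_zero (E _)]
  set bad : ι → (τ → ZMod N) → Prop := fun j x =>
    (∑ t, (ψ j t : ZMod N) * x t).val < M ∨ N ≤ (∑ t, (ψ j t : ZMod N) * x t).val + M with hbad
  refine (abs_E_sub_le (g := fun x => ∑ j, ind (bad j x)) fun x => ?_).trans ?_
  · rw [sub_zero]
    by_cases hx : ∃ j, bad j x
    · obtain ⟨j, hj⟩ := hx
      have h1 : 1 ≤ ∑ j, ind (bad j x) := by
        rw [← ind_true hj]
        exact single_le_sum (f := fun j => ind (bad j x)) (fun j _ => ind_nonneg _) (mem_univ j)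
      have h2 : ∀ f : (τ → Fin D) → ι → ℤ, 0 ≤ E (fun y => F (f y)) ∧ E (fun y => F (f y)) ≤ 1 :=
        fun f => ⟨E_nonneg fun _ => (hF _).1, E_le fun _ => (hF _).2⟩
      refine le_trans (abs_sub_le_iff.2 ⟨?_, ?_⟩) h1 <;>
        exact (sub_le_self _ (h2 _).1).trans (h2 _).2
    · push Not at hx
      have h2 : ∀ (y : τ → Fin D) (j : ι),
          (((∑ t, (ψ j t : ZMod N) * (x + fun t => ((y t : ℕ) : ZMod N)) t).val : ℕ) : ℤ)
          = ((∑ t, (ψ j t : ZMod N) * x t).val : ℕ) + ∑ t, ψ j t * ((y t : ℕ) : ℤ) := by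
        intro y j
        rw [← val_add _ _ M ?_ (hx j)]
        · congr 2
          simp only [Pi.add_apply, mul_add, sum_add_distrib]
          push_cast
          rfl
        · refine (abs_sum_le_sum_abs _ _).trans ?_
          have h3 : ∀ t ∈ (univ : Finset τ), |ψ j t * ((y t : ℕ) : ℤ)| ≤ (A : ℤ) * D := fun t _ => by
            rw [abs_mul, Nat.abs_cast]
            exact mul_le_mul (hA j t) (by exact_mod_cast (y t).2.le) (Nat.cast_nonneg _)
              (Nat.cast_nonneg _)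
          refine (sum_le_card_nsmul _ _ _ h3).trans (le_of_eq ?_)
          rw [hM, card_univ, nsmul_eq_mul]
          push_cast
          ring
      have h3 : ∀ (v : ℤ) (j : ι) (y : τ → ℤ), aff (fun t => W * ψ j t) (W * v + b) y =
          W * (v + ∑ t, ψ j t * y t) + b := fun v j y => by
        simp only [aff, mul_add, mul_sum, mul_assoc]
        ring
      simp only [h2, h3, sub_self, abs_zero]
      exact sum_nonneg fun j _ => ind_nonneg _
  · rw [E_sum]
    have h1 : ∀ j ∈ (univ : Finset ι), E (fun x => ind (bad j x)) ≤ 2 * M / N := fun j _ =>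
      (unif (fun t => (ψ j t : ZMod N)) (hu j)
        (fun z => ind (z.val < M ∨ N ≤ z.val + M))).trans_le (edge M)
    refine (sum_le_card_nsmul _ _ _ h1).trans (le_of_eq ?_)
    rw [card_univ, nsmul_eq_mul, hM]
    push_cast
    ring

end Wrp

open Wrp

/-- Row WRAP. -/
theorem wrp (per : PerStmt) : WrapStmt := by
  classical
  intro K ι τ _ _ _ ψ
  obtain ⟨A, hA⟩ : ∃ A : ℕ, ∀ j t, |ψ j t| ≤ A :=
    ⟨univ.sup fun q : ι × τ => (ψ q.1 q.2).natAbs, fun j t => by
      rw [← Int.natCast_natAbs]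
      exact_mod_cast le_sup (f := fun q : ι × τ => (ψ q.1 q.2).natAbs) (mem_univ (j, t))⟩
  refine ⟨2 * Fintype.card ι * (Fintype.card τ * A), fun S L N _ W b hS hL hu => ?_⟩
  set C : ℝ := 2 * Fintype.card ι * (Fintype.card τ * A) with hC
  have hC0 : 0 ≤ C := by positivity
  have hq : Real.exp L ^ Fintype.card (ι × Bool) = Real.exp (2 * Fintype.card ι * L) := by
    rw [← Real.exp_nat_mul, Fintype.card_prod, Fintype.card_bool]
    push_cast
    ring_nf
  simp only [mdl, expand hL, box_eq, E_sum, E_mul_left]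
  rw [← sum_sub_distrib]
  refine (abs_sum_le_sum_abs _ _).trans ?_
  have h1 : ∀ T ∈ Fintype.piFinset fun _ : ι × Bool => TT S L,
      |(∏ q, cf K L (T q)) * E (fun x : τ → ZMod N =>
          I T fun j => W * (∑ t, (ψ j t : ZMod N) * x t).val + b) -
        (∏ q, cf K L (T q)) * E (fun x : τ → ZMod N => E fun y : τ → Fin (∏ p ∈ S, p) => I T fun j =>
          aff (fun t => W * ψ j t) (W * (∑ t, (ψ j t : ZMod N) * x t).val + b)
            fun t => ((y t : ℕ) : ℤ))| ≤ C * Real.exp (2 * Fintype.card ι * L) / N := by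
    intro T hT
    have hT' := Fintype.mem_piFinset.1 hT
    have hs : ∀ q, T q ⊆ S := fun q => mem_powerset.1 (mem_filter.1 (hT' q)).1
    have h2 := term per ψ A hA N W b hu (I T) (I_mem T) (∏ q, ∏ p ∈ T q, p) (∏ p ∈ S, p)
      (prod_pos fun q _ => prod_pos' hS (hs q)) (prod_pos' hS subset_rfl)
      (fun _ _ => I_per fun q p hp =>
        (dvd_prod_of_mem (fun p => p) hp).trans (dvd_prod_of_mem (fun q => ∏ p ∈ T q, p) (mem_univ q)))
      (fun _ _ => I_per fun q p hp => dvd_prod_of_mem (fun p => p) (hs q hp))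
    simp only [box_eq] at h2
    have h3 : |∏ q, cf K L (T q)| ≤ 1 := by
      rw [abs_prod]
      exact prod_le_one (fun _ _ => abs_nonneg _) fun q _ => cf_le hS hL (hT' q)
    have h4 : ((∏ q, ∏ p ∈ T q, p : ℕ) : ℝ) ≤ Real.exp (2 * Fintype.card ι * L) := by
      rw [← hq, Nat.cast_prod, ← card_univ, ← prod_const]
      exact prod_le_prod (fun _ _ => Nat.cast_nonneg _) fun q _ => (mem_filter.1 (hT' q)).2.le
    rw [← mul_sub, abs_mul]
    refine (mul_le_of_le_one_left (abs_nonneg _) h3).trans (h2.trans ?_)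
    gcongr
  refine (sum_le_card_nsmul _ _ _ h1).trans ?_
  have h5 : ((Fintype.piFinset fun _ : ι × Bool => TT S L).card : ℝ) ≤
      Real.exp (2 * Fintype.card ι * L) := by
    rw [← hq, Fintype.card_piFinset, prod_const, card_univ, Nat.cast_pow]
    exact pow_le_pow_left₀ (Nat.cast_nonneg _) (card_TT hS) _
  rw [nsmul_eq_mul, show 4 * (Fintype.card ι : ℝ) * L =
    2 * Fintype.card ι * L + 2 * Fintype.card ι * L by ring, Real.exp_add]
  calc _ ≤ Real.exp (2 * Fintype.card ι * L) * (C * Real.exp (2 * Fintype.card ι * L) / N) := by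
        gcongr
    _ = _ := by ring

end Pool.Agent.MP_a43263_nt.GT
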