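import Mathlib
import Pool.Agent.MP_a43263_nt.GT.Spec

/-! PROJECT GT7, row ZETA: the pole of the zeta function. -/

set_option autoImplicit false

noncomputable section

namespace Pool.Agent.MP_a43263_nt.GT

open Finset Filter MeasureTheory Function Topology

namespace Zeta

theorem dct {ι : Type} {l : Filter ι} [l.IsCountablyGenerated] {F : ι → ℝ × ℝ → ℂ}
    {f : ℝ × ℝ → ℂ} {b : ℝ × ℝ → ℝ} (hm : ∀ᶠ i in l, AEStronglyMeasurable (F i))
    (hb : ∀ᶠ i in l, ∀ x, ‖F i x‖ ≤ b x) (hi : Integrable b)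
    (hl : ∀ x, Tendsto (fun i => F i x) l (𝓝 (f x))) :
    (∀ᶠ i in l, Integrable (F i)) ∧ Tendsto (fun i => ∫ x, F i x) l (𝓝 (∫ x, f x)) ∧
      Tendsto (fun i => ∫ x, ‖F i x‖) l (𝓝 (∫ x, ‖f x‖)) :=
  ⟨(hm.and hb).mono fun _ h => hi.mono' h.1 (ae_of_all _ h.2),
    tendsto_integral_filter_of_dominated_convergence b hm (hb.mono fun _ h => ae_of_all _ h) hi
      (ae_of_all _ hl),
    tendsto_integral_filter_of_dominated_convergence b (hm.mono fun _ h => h.norm)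
      (hb.mono fun _ h => ae_of_all _ fun x => by simpa using h x) hi
      (ae_of_all _ fun x => (hl x).norm)⟩

/-- a finite Euler product -/
def Q (S : Finset ℕ) (z : ℂ) : ℂ := ∏ p ∈ S, (1 - (p : ℂ) ^ (-(1 + z)))⁻¹

/-- the zeta function without the small primes -/
def R (w : ℕ) (z : ℂ) : ℂ :=
  riemannZeta (1 + z) * ∏ p ∈ Nat.primesBelow (w + 1), (1 - (p : ℂ) ^ (-(1 + z)))

theorem lt_one {p : ℕ} (hp : p.Prime) {x : ℝ} (hx : 0 ≤ x) : (p : ℝ) ^ (-(1 + x)) < 1 :=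
  Real.rpow_lt_one_of_one_lt_of_neg (by exact_mod_cast hp.one_lt) (by linarith)

theorem norm_pow {p : ℕ} (hp : p.Prime) (z : ℂ) :
    ‖(p : ℂ) ^ (-(1 + z))‖ = (p : ℝ) ^ (-(1 + z.re)) := by
  rw [Complex.norm_natCast_cpow_of_pos hp.pos]
  simp

theorem fac_ne {p : ℕ} (hp : p.Prime) {z : ℂ} (hz : 0 ≤ z.re) : 1 - (p : ℂ) ^ (-(1 + z)) ≠ 0 := by
  intro h
  have := lt_one hp hz
  rw [← norm_pow hp, ← sub_eq_zero.1 h] at this
  simp at this

theorem R_ne (w : ℕ) {z : ℂ} (hz : 0 < z.re) : R w z ≠ 0 :=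
  mul_ne_zero (riemannZeta_ne_zero_of_one_lt_re (by simpa using hz))
    (prod_ne_zero_iff.2 fun _ hp => fac_ne (Nat.prime_of_mem_primesBelow hp) hz.le)

theorem tendsto_Q (w : ℕ) {z : ℂ} (hz : 0 < z.re) :
    Tendsto (fun Y => Q (pr w Y) z) atTop (𝓝 (R w z)) := by
  refine (((riemannZeta_eulerProduct (s := 1 + z) (by simpa using hz)).comp
    (tendsto_add_atTop_nat 1)).mul_const _).congr' ((eventually_ge_atTop w).mono fun Y hY => ?_)
  have h : Nat.primesBelow (Y + 1) = pr w Y ∪ Nat.primesBelow (w + 1) := by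
    ext p
    simp only [pr, Nat.mem_primesBelow, mem_union, mem_filter, mem_Ioc]
    constructor
    · rintro ⟨h1, h2⟩
      by_cases h : w < p
      · exact Or.inl ⟨⟨h, by omega⟩, h2⟩
      · exact Or.inr ⟨by omega, h2⟩
    · rintro (⟨⟨-, h1⟩, h2⟩ | ⟨h1, h2⟩) <;> exact ⟨by omega, h2⟩
  have hd : Disjoint (pr w Y) (Nat.primesBelow (w + 1)) := disjoint_left.2 fun p h1 h2 => by
    have := (mem_Ioc.1 (mem_filter.1 h1).1).1
    have := Nat.lt_of_mem_primesBelow h2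
    omega
  simp only [comp, Q]
  rw [h, prod_union hd, mul_assoc, ← prod_mul_distrib, prod_eq_one (s := Nat.primesBelow _)
    fun p hp => inv_mul_cancel₀ (fac_ne (Nat.prime_of_mem_primesBelow hp) hz.le), mul_one]

theorem norm_Q {S : Finset ℕ} (hS : ∀ p ∈ S, p.Prime) {z : ℂ} {x : ℝ} (hx : 0 ≤ x)
    (hz : z.re = x) : ‖Q S z‖ ≤ ‖Q S x‖ ∧ ‖(Q S z)⁻¹‖ ≤ ‖Q S x‖ := by
  have key : ∀ p ∈ S, ‖(1 - (p : ℂ) ^ (-(1 + z)))⁻¹‖ ≤ ‖(1 - (p : ℂ) ^ (-(1 + (x : ℂ))))⁻¹‖ ∧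
      ‖1 - (p : ℂ) ^ (-(1 + z))‖ ≤ ‖(1 - (p : ℂ) ^ (-(1 + (x : ℂ))))⁻¹‖ := by
    intro p hp
    have h1 := lt_one (hS p hp) hx
    have h2 := norm_pow (hS p hp) z
    have h3 : (p : ℂ) ^ (-(1 + (x : ℂ))) = (((p : ℝ) ^ (-(1 + x)) : ℝ) : ℂ) := by
      rw [Complex.ofReal_cpow (Nat.cast_nonneg p)]
      push_cast
      rfl
    rw [hz] at h2
    rw [h3]
    generalize (p : ℝ) ^ (-(1 + x)) = t at h1 h2
    generalize (p : ℂ) ^ (-(1 + z)) = a at h2
    have h4 : 0 < 1 - t := by linarith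
    have h5 : ‖(1 - (t : ℂ))⁻¹‖ = (1 - t)⁻¹ := by
      rw [norm_inv, ← Complex.ofReal_one, ← Complex.ofReal_sub, Complex.norm_real,
        Real.norm_of_nonneg h4.le]
    have h6 := norm_sub_norm_le (1 : ℂ) a
    have h7 := norm_sub_le (1 : ℂ) a
    rw [norm_one, h2] at h6 h7
    rw [h5, norm_inv]
    refine ⟨inv_anti₀ h4 h6, h7.trans ?_⟩
    rw [← one_div, le_div_iff₀ h4]
    nlinarith [sq_nonneg t]
  simp only [Q, ← prod_inv_distrib, inv_inv, norm_prod]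
  exact ⟨prod_le_prod (fun _ _ => norm_nonneg _) fun p hp => (key p hp).1,
    prod_le_prod (fun _ _ => norm_nonneg _) fun p hp => (key p hp).2⟩

theorem pr_prime {w Y : ℕ} : ∀ p ∈ pr w Y, p.Prime := fun _ h => (mem_filter.1 h).2

theorem norm_R (w : ℕ) {z : ℂ} {x : ℝ} (hx : 0 < x) (hz : z.re = x) :
    ‖R w z‖ ≤ ‖R w x‖ ∧ ‖(R w z)⁻¹‖ ≤ ‖R w x‖ :=
  ⟨le_of_tendsto_of_tendsto' (tendsto_Q w (hz ▸ hx)).norm (tendsto_Q w (z := x) hx).norm
      fun _ => (norm_Q pr_prime hx.le hz).1,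
    le_of_tendsto_of_tendsto' ((tendsto_Q w (hz ▸ hx)).inv₀ (R_ne w (hz ▸ hx))).norm
      (tendsto_Q w (z := x) hx).norm fun _ => (norm_Q pr_prime hx.le hz).2⟩

theorem rho_pos (w : ℕ) : 0 < rho w := prod_pos fun p hp =>
  sub_pos.2 (inv_lt_one_of_one_lt₀ (by exact_mod_cast (mem_filter.1 hp).2.one_lt))

theorem tendsto_R (w : ℕ) : Tendsto (fun z => z * R w z) (𝓝[≠] 0) (𝓝 (rho w)) := by
  have h1 : Tendsto (fun z : ℂ => 1 + z) (𝓝[≠] 0) (𝓝[≠] 1) :=
    tendsto_nhdsWithin_iff.2 ⟨((continuous_const.add continuous_id).tendsto' 0 1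
      (by simp)).mono_left nhdsWithin_le_nhds, eventually_mem_nhdsWithin.mono fun z hz => by
        simpa using hz⟩
  have h2 : Continuous fun z : ℂ => ∏ p ∈ Nat.primesBelow (w + 1), (1 - (p : ℂ) ^ (-(1 + z))) :=
    continuous_finsetProd _ fun p hp => continuous_const.sub (Continuous.const_cpow (by fun_prop)
      (Or.inl (by exact_mod_cast (Nat.prime_of_mem_primesBelow hp).ne_zero)))
  have h3 := (riemannZeta_residue_one.comp h1).mul ((h2.tendsto' 0 (rho w) (by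
    simp [rho, Nat.primesBelow, Complex.cpow_neg_one])).mono_left nhdsWithin_le_nhds)
  rw [one_mul] at h3
  refine h3.congr fun z => ?_
  simp only [comp, R]
  ring

theorem tendsto_div (w : ℕ) {s : ℂ} (hs : s ≠ 0) :
    Tendsto (fun L : ℝ => s / L * R w (s / L)) atTop (𝓝 (rho w)) := by
  refine (tendsto_R w).comp (tendsto_nhdsWithin_iff.2 ⟨?_,
    (eventually_gt_atTop 0).mono fun L hL => div_ne_zero hs (by exact_mod_cast hL.ne')⟩)
  have := (Complex.continuous_ofReal.tendsto' 0 0 rfl).comp tendsto_inv_atTop_zero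
  simpa [div_eq_mul_inv] using this.const_mul s

theorem exists_bd (w : ℕ) : ∃ B : ℝ, ∀ᶠ L : ℝ in atTop,
    (∀ s : ℂ, s.re = 2 → ‖R w (s / L)‖ ≤ B * L) ∧
      ∀ s : ℂ, s.re = 1 → ‖(R w (s / L))⁻¹‖ ≤ B * ‖s‖ ^ 2 / L := by
  have hρ := rho_pos w
  have hn : ‖(rho w : ℂ)‖ = rho w := by rw [Complex.norm_real, Real.norm_of_nonneg hρ.le]
  obtain ⟨r, hr, h1⟩ := Metric.eventually_nhds_iff.1 (eventually_nhdsWithin_iff.1
    ((tendsto_R w).norm.eventually_const_lt (u := rho w / 2) (by rw [hn]; linarith)))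
  refine ⟨rho w + 1 + 2 / rho w + (rho w + 1) / r ^ 2, ?_⟩
  filter_upwards [eventually_gt_atTop 0,
    (tendsto_div w one_ne_zero).norm.eventually_lt_const (u := rho w + 1) (by rw [hn]; linarith),
    (tendsto_div w two_ne_zero).norm.eventually_lt_const (u := rho w + 1) (by rw [hn]; linarith)]
    with L hL h2 h3
  have hL' : ‖(L : ℂ)‖ = L := by rw [Complex.norm_real, Real.norm_of_nonneg hL.le]
  have p1 : 0 < 2 / rho w := by positivity
  have p2 : 0 < (rho w + 1) / r ^ 2 := by positivity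
  rw [norm_mul, norm_div, hL', div_mul_eq_mul_div, div_lt_iff₀ hL] at h2 h3
  refine ⟨fun s hs => ?_, fun s hs => ?_⟩
  · have := (norm_R w (z := s / L) (x := 2 / L) (by positivity) (by
      rw [Complex.div_ofReal_re, hs])).1
    push_cast at this
    rw [Complex.norm_two] at h3
    nlinarith [norm_nonneg (R w (2 / L))]
  have h4 : 1 ≤ ‖s‖ := hs ▸ Complex.re_le_norm s
  have h5 : 0 < (s / L).re := by
    rw [Complex.div_ofReal_re, hs]
    positivity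
  rw [le_div_iff₀ hL]
  by_cases h6 : ‖s / L‖ < r
  · have h7 := h1 (by simpa using h6) (fun h : s / L = 0 => by simp [h] at h5)
    have h8 := norm_pos_iff.2 (R_ne w h5)
    rw [norm_mul, norm_div, hL', div_mul_eq_mul_div, lt_div_iff₀ hL] at h7
    rw [norm_inv, inv_mul_le_iff₀ h8]
    have h9 : L ≤ ‖R w (s / L)‖ * (2 / rho w * ‖s‖) := by
      rw [div_mul_eq_mul_div, ← mul_div_assoc, le_div_iff₀ hρ]
      nlinarith
    refine h9.trans (mul_le_mul_of_nonneg_left ?_ h8.le)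
    exact mul_le_mul (by linarith) (by nlinarith) (by linarith) (by linarith)
  · have h7 := (norm_R w (z := s / L) (x := 1 / L) (by positivity) (by
      rw [Complex.div_ofReal_re, hs])).2
    push_cast at h7
    rw [norm_one, one_mul] at h2
    rw [norm_div, hL', not_lt, le_div_iff₀ hL] at h6
    have h8 : L ^ 2 ≤ ‖s‖ ^ 2 / r ^ 2 := by
      rw [le_div_iff₀ (by positivity), ← mul_pow, mul_comm]
      gcongr
    calc _ ≤ (rho w + 1) * L * L := by gcongr; exact h7.trans h2.le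
      _ = (rho w + 1) * L ^ 2 := by ring
      _ ≤ (rho w + 1) * (‖s‖ ^ 2 / r ^ 2) := by gcongr
      _ = (rho w + 1) / r ^ 2 * ‖s‖ ^ 2 := by ring
      _ ≤ _ := by gcongr; linarith

variable (K : Ker)

theorem one_le (ξ : ℝ) : 1 ≤ ‖K.s ξ‖ := K.re ξ ▸ Complex.re_le_norm _

theorem kern_eq {S : Finset ℕ} (hS : ∀ p ∈ S, p.Prime) (L : ℝ) (ξ : ℝ × ℝ) :
    kern K S L ξ = K.φ ξ.1 * K.φ ξ.2 * (Q S ((K.s ξ.1 + K.s ξ.2) / L) *
      ((Q S (K.s ξ.1 / L))⁻¹ * (Q S (K.s ξ.2 / L))⁻¹)) := by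
  simp only [kern, Q, ← prod_inv_distrib, inv_inv, ← prod_mul_distrib]
  congr 1
  refine prod_congr rfl fun p hp => ?_
  have h0 : (p : ℂ) ≠ 0 := by exact_mod_cast (hS p hp).ne_zero
  have h : ∀ s : ℂ, (p : ℂ) ^ (-(1 + s / L)) =
      Complex.exp (-(s * ((Real.log p / L : ℝ) : ℂ))) / p := fun s => by
    rw [neg_add, Complex.cpow_add _ _ h0, Complex.cpow_neg_one, Complex.cpow_def_of_ne_zero h0,
      ← Complex.natCast_log, mul_comm, div_eq_mul_inv _ (p : ℂ)]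
    congr 2
    push_cast
    ring
  rw [ef, h, h, h, al, al, ← Complex.exp_add, add_mul, neg_add, div_eq_inv_mul]

theorem meas (S : Finset ℕ) (L : ℝ) : AEStronglyMeasurable (kern K S L) := by
  have h1 := K.cφ.measurable
  have h2 := K.cs.measurable
  refine Measurable.aestronglyMeasurable ?_
  unfold kern ef al
  fun_prop

/-- the limit of the integrand -/
def G (w : ℕ) (L : ℝ) (ξ : ℝ × ℝ) : ℂ := K.φ ξ.1 * K.φ ξ.2 * (R w ((K.s ξ.1 + K.s ξ.2) / L) *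
  ((R w (K.s ξ.1 / L))⁻¹ * (R w (K.s ξ.2 / L))⁻¹))

theorem re1 (L : ℝ) (ξ : ℝ) : (K.s ξ / L).re = 1 / L := by rw [Complex.div_ofReal_re, K.re]

theorem re2 (L : ℝ) (ξ : ℝ × ℝ) : ((K.s ξ.1 + K.s ξ.2) / L).re = 2 / L := by
  rw [Complex.div_ofReal_re, Complex.add_re, K.re, K.re, one_add_one_eq_two]

theorem tendsto_kern (w : ℕ) {L : ℝ} (hL : 0 < L) (ξ : ℝ × ℝ) :
    Tendsto (fun Y => kern K (pr w Y) L ξ) atTop (𝓝 (G K w L ξ)) := by
  have h : ∀ ξ, 0 < (K.s ξ / L).re := fun ξ => by rw [re1]; positivity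
  simp only [kern_eq K pr_prime]
  exact ((tendsto_Q w (by rw [re2]; positivity)).mul (((tendsto_Q w (h _)).inv₀ (R_ne w (h _))).mul
    ((tendsto_Q w (h _)).inv₀ (R_ne w (h _))))).const_mul _

theorem int2 (c : ℝ) : Integrable fun ξ : ℝ × ℝ =>
    c * (‖K.s ξ.1‖ ^ 2 * ‖K.φ ξ.1‖ * (‖K.s ξ.2‖ ^ 2 * ‖K.φ ξ.2‖)) :=
  (K.int.mul_prod K.int).const_mul c

theorem step1 (w : ℕ) {L : ℝ} (hL : 0 < L) :
    (∀ᶠ Y in atTop, Integrable (kern K (pr w Y) L)) ∧
      Tendsto (fun Y => ∫ ξ, kern K (pr w Y) L ξ) atTop (𝓝 (∫ ξ, G K w L ξ)) ∧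
      Tendsto (fun Y => ∫ ξ, ‖kern K (pr w Y) L ξ‖) atTop (𝓝 (∫ ξ, ‖G K w L ξ‖)) := by
  have p1 : 0 < 1 / L := by positivity
  have p2 : 0 < 2 / L := by positivity
  refine dct (.of_forall fun Y => meas K _ L) ?_ (int2 K ((‖R w (2 / L : ℝ)‖ + 1) *
    ((‖R w (1 / L : ℝ)‖ + 1) * (‖R w (1 / L : ℝ)‖ + 1)))) (tendsto_kern K w hL)
  filter_upwards [(tendsto_Q w (z := (1 / L : ℝ)) p1).norm.eventually_lt_const (lt_add_one _),
    (tendsto_Q w (z := (2 / L : ℝ)) p2).norm.eventually_lt_const (lt_add_one _)] with Y h1 h2 ξ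
  rw [kern_eq K pr_prime, mul_comm]
  simp only [norm_mul]
  gcongr
  · exact (norm_Q pr_prime p2.le (re2 K L ξ)).1.trans h2.le
  · exact (norm_Q pr_prime p1.le (re1 K L _)).2.trans h1.le
  · exact (norm_Q pr_prime p1.le (re1 K L _)).2.trans h1.le
  · exact le_mul_of_one_le_left (norm_nonneg _) (one_le_pow₀ (one_le K _))
  · exact le_mul_of_one_le_left (norm_nonneg _) (one_le_pow₀ (one_le K _))

/-- the final limit -/
def lim (ξ : ℝ × ℝ) : ℂ :=
  (K.c : ℂ)⁻¹ * (K.φ ξ.1 * K.φ ξ.2 * (K.s ξ.1 * K.s ξ.2 / (K.s ξ.1 + K.s ξ.2)))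

theorem nrm_pos (w : ℕ) {L : ℝ} (hL : 0 < L) : 0 < nrm K w L :=
  div_pos (mul_pos (rho_pos w) hL) K.pos

theorem step2 (w : ℕ) :
    Tendsto (fun L => ∫ ξ, (nrm K w L : ℂ) * G K w L ξ) atTop (𝓝 (∫ ξ, lim K ξ)) ∧
      Tendsto (fun L => ∫ ξ, ‖(nrm K w L : ℂ) * G K w L ξ‖) atTop (𝓝 (∫ ξ, ‖lim K ξ‖)) := by
  obtain ⟨B, hB⟩ := exists_bd w
  have hc := K.pos
  have hρ := rho_pos w
  refine (dct ((eventually_gt_atTop 0).mono fun L hL => AEStronglyMeasurable.const_mul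
    (aestronglyMeasurable_of_tendsto_ae atTop (fun Y => meas K (pr w Y) L)
      (ae_of_all _ (tendsto_kern K w hL))) _) ?_ (int2 K (rho w / K.c * B ^ 3)) fun ξ => ?_).2
  · filter_upwards [hB, eventually_gt_atTop 0] with L h hL ξ
    have h1 := h.1 (K.s ξ.1 + K.s ξ.2) (by rw [Complex.add_re, K.re, K.re, one_add_one_eq_two])
    have h2 := h.2 _ (K.re ξ.1)
    have h3 := h.2 _ (K.re ξ.2)
    have h4 := (nrm_pos K w hL).le
    have h5 := (norm_nonneg _).trans h1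
    have h6 := (norm_nonneg _).trans h2
    calc _ ≤ nrm K w L * (‖K.φ ξ.1‖ * ‖K.φ ξ.2‖ *
          (B * L * (B * ‖K.s ξ.1‖ ^ 2 / L * (B * ‖K.s ξ.2‖ ^ 2 / L)))) := by
          simp only [G, norm_mul, Complex.norm_real, Real.norm_of_nonneg h4]
          gcongr
      _ = _ := by
          rw [nrm]
          field_simp
  · have h0 : ∀ ξ, K.s ξ ≠ 0 := fun ξ => norm_pos_iff.1 (one_pos.trans_le (one_le K ξ))
    have h1 : K.s ξ.1 + K.s ξ.2 ≠ 0 := fun h => by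
      have := congrArg Complex.re h
      rw [Complex.add_re, K.re, K.re] at this
      norm_num at this
    have h2 : (rho w : ℂ) ≠ 0 := by exact_mod_cast hρ.ne'
    have h3 := ((tendsto_div w h1).mul (((tendsto_div w (h0 ξ.1)).inv₀ h2).mul
      ((tendsto_div w (h0 ξ.2)).inv₀ h2))).const_mul (rho w * lim K ξ)
    rw [show rho w * lim K ξ * (rho w * ((rho w : ℂ)⁻¹ * (rho w : ℂ)⁻¹)) = lim K ξ by
      field_simp] at h3
    refine h3.congr' ((eventually_gt_atTop 0).mono fun L hL => ?_)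
    have h4 : (L : ℂ) ≠ 0 := by exact_mod_cast hL.ne'
    have h5 := h0 ξ.1
    have h6 := h0 ξ.2
    simp only [G, lim, nrm, mul_inv]
    push_cast
    generalize R w ((K.s ξ.1 + K.s ξ.2) / L) = a
    generalize (R w (K.s ξ.1 / L))⁻¹ = b
    generalize (R w (K.s ξ.2 / L))⁻¹ = c
    field_simp

end Zeta

open Zeta in
theorem zeta : ZetaStmt := by
  intro K
  refine ⟨(∫ ξ, ‖lim K ξ‖) + 1, fun w ε hε => ?_⟩
  obtain ⟨h1, h2⟩ := step2 K w
  have h3 : ∫ ξ, lim K ξ = 1 := by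
    unfold Zeta.lim
    rw [integral_const_mul, K.cst, inv_mul_cancel₀ (by exact_mod_cast K.pos.ne')]
  rw [h3] at h1
  filter_upwards [eventually_gt_atTop 0, (tendsto_iff_norm_sub_tendsto_zero.1 h1).eventually_lt_const hε,
    h2.eventually_lt_const (lt_add_one _)] with L hL h4 h5
  obtain ⟨h6, h7, h8⟩ := step1 K w hL
  rw [integral_const_mul] at h4
  simp only [norm_mul, Complex.norm_real, Real.norm_of_nonneg (nrm_pos K w hL).le] at h5
  rw [integral_const_mul] at h5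
  filter_upwards [h6, ((h7.const_mul _).sub_const 1).norm.eventually_lt_const h4,
    (h8.const_mul _).eventually_lt_const h5] with Y a b c
  exact ⟨a, b.le, c.le⟩

end Pool.Agent.MP_a43263_nt.GT
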