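import Mathlib
import Pool.Agent.MP_a43263_nt.GT.RszAll
import Pool.Agent.MP_a43263_nt.GT.Ker
import Pool.Agent.MP_a43263_nt.GT.Zeta
import Pool.Agent.MP_a43263_nt.GT.Box
import Pool.Agent.MP_a43263_nt.GT.Loc
import Pool.Agent.MP_a43263_nt.GT.Rep
import Pool.Agent.MP_a43263_nt.GT.Mod
import Pool.Agent.MP_a43263_nt.GT.Wrp
import Pool.Agent.MP_a43263_nt.GT.Pse
import Pool.Agent.MP_a43263_nt.GT.Fin
import Pool.Agent.MP_a43263_nt.GT.Dir

/-! PROJECT GT7: the theorem of Green and Tao, without hypotheses. -/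

namespace Pool.Agent.MP_a43263_nt.GT

theorem gtAll : GTStmt := fin ker rszAll (pse (mod (rep crt) cnt loc prod zeta) (wrp per))

theorem apAll : APStmt := ap gtAll dir

end Pool.Agent.MP_a43263_nt.GT
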