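import Mathlib

namespace Pool.Agent.MP_a43263_nt.GT.Dens

open Finset ArithmeticFunction ArithmeticFunction.vonMangoldt

/-- dyadic Tauberian step: a Dirichlet series with a pole lower bound has many heavy dyadic blocks -/
theorem blocks (a : ℕ → ℝ) (ha : ∀ n, 0 ≤ a n) (A C : ℝ) (hA : 0 < A)
    (hs : ∀ x : ℝ, 1 < x → x ≤ 2 → A / (x - 1) - C ≤ ∑' n, a n / (n : ℝ) ^ x) (k0 : ℕ) :
    ∃ k, k0 ≤ k ∧ A / 4 * 2 ^ k ≤ ∑ n ∈ Ico (2 ^ k) (2 ^ (k + 1)), a n := by
  by_contra hcon
  push Not at hcon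
  set C0 : ℝ := ∑ n ∈ range (2 ^ k0), a n with hC0
  have hC00 : 0 ≤ C0 := sum_nonneg fun n _ => ha n
  have key : ∀ s : ℝ, 0 < s → s ≤ 1 → A / s - C ≤ C0 + A / 4 * (2 / s) := by
    intro s hs0 hs1
    have h1 := hs (1 + s) (by linarith) (by linarith)
    rw [add_sub_cancel_left] at h1
    refine h1.trans ?_
    set r : ℝ := (2 : ℝ)⁻¹ ^ s with hr
    have hr0 : 0 ≤ r := Real.rpow_nonneg (by norm_num) _
    have hr1 : r ≤ 1 - s / 2 := by
      have := rpow_one_add_le_one_add_mul_self (s := -(1 / 2)) (by norm_num) hs0.le hs1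
      have e : (1 : ℝ) + -(1 / 2) = 2⁻¹ := by norm_num
      rw [e] at this
      linarith
    have hgeo : ∀ K : ℕ, ∑ k ∈ range K, r ^ k ≤ 2 / s := by
      intro K
      have h2 : (∑ k ∈ range K, r ^ k) * (1 - r) = 1 - r ^ K := by
        have := geom_sum_mul_neg r K
        linarith
      have h3 : 0 ≤ ∑ k ∈ range K, r ^ k := sum_nonneg fun k _ => pow_nonneg hr0 k
      have h4 : 0 ≤ r ^ K := pow_nonneg hr0 K
      rw [le_div_iff₀ hs0]
      nlinarith
    have hterm : ∀ n : ℕ, 0 ≤ a n / (n : ℝ) ^ (1 + s) := fun n =>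
      div_nonneg (ha n) (Real.rpow_nonneg (Nat.cast_nonneg n) _)
    have hind : ∀ j : ℕ, ∑ n ∈ range (2 ^ (k0 + j)), a n / (n : ℝ) ^ (1 + s)
        ≤ C0 + A / 4 * ∑ k ∈ range (k0 + j), r ^ k := by
      intro j
      induction j with
      | zero =>
        have h3 : 0 ≤ ∑ k ∈ range (k0 + 0), r ^ k := sum_nonneg fun k _ => pow_nonneg hr0 k
        have h5 : ∑ n ∈ range (2 ^ (k0 + 0)), a n / (n : ℝ) ^ (1 + s) ≤ C0 := by
          rw [hC0, add_zero]
          refine sum_le_sum fun n _ => ?_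
          rcases Nat.eq_zero_or_pos n with rfl | hn
          · rw [Nat.cast_zero, Real.zero_rpow (by linarith), div_zero]; exact ha 0
          · exact div_le_self (ha n) (Real.one_le_rpow (by exact_mod_cast hn) (by linarith))
        have : 0 ≤ A / 4 * ∑ k ∈ range (k0 + 0), r ^ k := by positivity
        linarith
      | succ j ih =>
        have hle : 2 ^ (k0 + j) ≤ 2 ^ (k0 + j + 1) := Nat.pow_le_pow_right (by norm_num) (by omega)
        rw [← add_assoc, ← sum_range_add_sum_Ico _ hle, sum_range_succ, mul_add]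
        have hb := (hcon (k0 + j) (by omega)).le
        set K := k0 + j
        have hpos : (0 : ℝ) < ((2 : ℝ) ^ K) ^ (1 + s) := by positivity
        have h6 : ∑ n ∈ Ico (2 ^ K) (2 ^ (K + 1)), a n / (n : ℝ) ^ (1 + s)
            ≤ (∑ n ∈ Ico (2 ^ K) (2 ^ (K + 1)), a n) / ((2 : ℝ) ^ K) ^ (1 + s) := by
          rw [sum_div]
          refine sum_le_sum fun n hn => ?_
          have hn1 : ((2 : ℝ) ^ K) ≤ n := by exact_mod_cast (mem_Ico.1 hn).1
          exact div_le_div_of_nonneg_left (ha n) hpos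
            (Real.rpow_le_rpow (by positivity) hn1 (by linarith))
        have h7 : ((2 : ℝ) ^ K) ^ (1 + s) * r ^ K = 2 ^ K := by
          rw [Real.rpow_add (by positivity), Real.rpow_one, hr, ← Real.rpow_natCast,
            ← Real.rpow_natCast ((2 : ℝ)⁻¹ ^ s), ← Real.rpow_mul (by norm_num),
            ← Real.rpow_mul (by norm_num), Real.inv_rpow (by norm_num), mul_comm s, mul_assoc,
            mul_inv_cancel₀ (by positivity), mul_one]
        have h8 : (∑ n ∈ Ico (2 ^ K) (2 ^ (K + 1)), a n) / ((2 : ℝ) ^ K) ^ (1 + s)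
            ≤ A / 4 * r ^ K := by
          rw [div_le_iff₀ hpos, mul_assoc, mul_comm (r ^ K), h7]
          exact hb
        linarith
    refine Real.tsum_le_of_sum_range_le hterm fun N => ?_
    have hN : N ≤ 2 ^ (k0 + N) := (Nat.lt_two_pow_self.le).trans
      (Nat.pow_le_pow_right (by norm_num) (by omega))
    calc ∑ n ∈ range N, a n / (n : ℝ) ^ (1 + s)
        ≤ ∑ n ∈ range (2 ^ (k0 + N)), a n / (n : ℝ) ^ (1 + s) :=
          sum_le_sum_of_subset_of_nonneg (range_subset_range.2 hN) fun n _ _ => hterm n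
      _ ≤ C0 + A / 4 * ∑ k ∈ range (k0 + N), r ^ k := hind N
      _ ≤ C0 + A / 4 * (2 / s) := by
          have := hgeo (k0 + N)
          gcongr
  set D : ℝ := |C| + C0 + A with hD
  have hD0 : 0 < D := by positivity
  have hAD : A ≤ D := by have := abs_nonneg C; linarith
  have h1 := key (A / (4 * D)) (by positivity) (by
    rw [div_le_one (by positivity)]; linarith)
  have e1 : A / (A / (4 * D)) = 4 * D := by field_simp
  have e2 : A / 4 * (2 / (A / (4 * D))) = 2 * D := by field_simp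
  rw [e1, e2] at h1
  have := le_abs_self C
  linarith

/-- primes in a reduced class fill a positive proportion of infinitely many dyadic blocks -/
theorem dens (W b : ℕ) (hW : 0 < W) (h : Nat.Coprime b W) (k0 : ℕ) :
    ∃ k, k0 ≤ k ∧ (2 : ℝ) ^ k / (4 * (W.totient : ℝ) * (k + 1)) ≤
      (((Ico (2 ^ k) (2 ^ (k + 1))).filter fun p => p.Prime ∧ p ≡ b [MOD W]).card : ℝ) := by
  have : NeZero W := ⟨hW.ne'⟩
  have hu : IsUnit (b : ZMod W) := (ZMod.isUnit_iff_coprime b W).2 h
  obtain ⟨C, hC⟩ := LSeries_residueClass_lower_bound hu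
  have hphi : (0 : ℝ) < W.totient := by exact_mod_cast Nat.totient_pos.2 hW
  set a : ℕ → ℝ := fun n => if n.Prime then residueClass (b : ZMod W) n else 0 with ha
  set a' : ℕ → ℝ := fun n => if n.Prime then 0 else residueClass (b : ZMod W) n with ha'
  have ha0 : ∀ n, 0 ≤ a n := fun n => by
    simp only [ha]; split_ifs; exacts [residueClass_nonneg _ n, le_rfl]
  have ha0' : ∀ n, 0 ≤ a' n := fun n => by
    simp only [ha']; split_ifs; exacts [le_rfl, residueClass_nonneg _ n]
  have hadd : ∀ n, residueClass (b : ZMod W) n = a n + a' n := fun n => by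
    simp only [ha, ha']; split_ifs <;> simp
  have hs' : Summable fun n : ℕ => a' n / n := summable_residueClass_non_primes_div (b : ZMod W)
  obtain ⟨k, hk, hB⟩ := blocks a ha0 (W.totient : ℝ)⁻¹ (C + ∑' n : ℕ, a' n / n) (by positivity)
    (fun x h1 h2 => by
      have h3 := hC (x := x) ⟨h1, h2⟩
      have hsum : Summable fun n : ℕ => residueClass (b : ZMod W) n / (n : ℝ) ^ x :=
        LSeries.summable_real_of_abscissaOfAbsConv_lt <|
          (abscissaOfAbsConv_residueClass_le_one (b : ZMod W)).trans_lt <| mod_cast h1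
      have hx : ∀ n : ℕ, (0 : ℝ) ≤ (n : ℝ) ^ x := fun n => Real.rpow_nonneg (Nat.cast_nonneg n) _
      have hle : ∀ n : ℕ, a' n / (n : ℝ) ^ x ≤ a' n / n := fun n => by
        rcases Nat.eq_zero_or_pos n with rfl | hn
        · simp [Real.zero_rpow (show x ≠ 0 by linarith)]
        · refine div_le_div_of_nonneg_left (ha0' n) (by exact_mod_cast hn) ?_
          conv_lhs => rw [← Real.rpow_one n]
          exact Real.rpow_le_rpow_of_exponent_le (by exact_mod_cast hn) h1.le
      have s1 : Summable fun n : ℕ => a n / (n : ℝ) ^ x :=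
        Summable.of_nonneg_of_le (fun n => div_nonneg (ha0 n) (hx n))
          (fun n => div_le_div_of_nonneg_right (by rw [hadd]; linarith [ha0' n]) (hx n)) hsum
      have s2 : Summable fun n : ℕ => a' n / (n : ℝ) ^ x :=
        Summable.of_nonneg_of_le (fun n => div_nonneg (ha0' n) (hx n)) hle hs'
      have e : ∑' n : ℕ, residueClass (b : ZMod W) n / (n : ℝ) ^ x
          = ∑' n : ℕ, a n / (n : ℝ) ^ x + ∑' n : ℕ, a' n / (n : ℝ) ^ x := by
        rw [← s1.tsum_add s2]
        exact tsum_congr fun n => by rw [hadd, add_div]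
      have h4 := s2.tsum_le_tsum hle hs'
      linarith) k0
  refine ⟨k, hk, ?_⟩
  have hk1 : (0 : ℝ) < k + 1 := by positivity
  have hle : ∑ n ∈ Ico (2 ^ k) (2 ^ (k + 1)), a n ≤ (k + 1 : ℝ) *
      (((Ico (2 ^ k) (2 ^ (k + 1))).filter fun p => p.Prime ∧ p ≡ b [MOD W]).card : ℝ) := by
    rw [card_filter, Nat.cast_sum, mul_sum]
    refine sum_le_sum fun n hn => ?_
    simp only [ha]
    by_cases hp : n.Prime
    · by_cases hm : n ≡ b [MOD W]
      · simp only [hp, hm, and_self, if_true, Nat.cast_one, mul_one]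
        refine (residueClass_le _ n).trans (vonMangoldt_le_log.trans ?_)
        have hn2 : (n : ℝ) ≤ 2 ^ (k + 1) := by exact_mod_cast (mem_Ico.1 hn).2.le
        have hn0 : (0 : ℝ) < n := by exact_mod_cast hp.pos
        refine (Real.log_le_log hn0 hn2).trans ?_
        rw [Real.log_pow]
        have : Real.log 2 ≤ 1 := by have := Real.log_two_lt_d9; linarith
        push_cast
        nlinarith
      · have : residueClass (b : ZMod W) n = 0 :=
          Set.indicator_of_notMem (s := {n : ℕ | (n : ZMod W) = (b : ZMod W)})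
            (fun hh => hm ((ZMod.natCast_eq_natCast_iff _ _ _).1 hh)) _
        simp [hp, hm, this]
    · simp [hp]
  rw [div_le_iff₀ (by positivity)]
  have e : ((W.totient : ℝ)⁻¹ / 4 * 2 ^ k) * (4 * W.totient) = 2 ^ k := by field_simp
  nlinarith [mul_le_mul_of_nonneg_right (hB.trans hle) (show (0 : ℝ) ≤ 4 * W.totient by positivity)]

end Pool.Agent.MP_a43263_nt.GT.Dens
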