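import Mathlib
import Pool.Agent.MP_a43263_nt.GT.Spec

/-! Row WRAP: from the cyclic group to the full period. -/

set_option autoImplicit false

noncomputable section

namespace Pool.Agent.MP_a43263_nt.GT

open Finset Filter MeasureTheory Function
open DH (E ind)

namespace Wrap

theorem box_E {τ : Type} [Fintype τ] [DecidableEq τ] (D : ℕ) (F : (τ → ℤ) → ℝ) :
    box D F = E fun y : τ → Fin D => F fun t => ((y t : ℕ) : ℤ) := by
  rw [DH.E_eq_div, box]
  simp [Nat.card_eq_fintype_card]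

theorem abs_E_le {Ω : Type} [Finite Ω] {f g : Ω → ℝ} (h : ∀ x, |f x| ≤ g x) : |E f| ≤ E g := by
  rw [abs_le]
  constructor
  · have := DH.E_mono (f := fun x => (-1) * g x) (g := f) fun x => by
      linarith [(abs_le.1 (h x)).1]
    rw [DH.E_mul_left] at this
    linarith
  · exact DH.E_mono fun x => (abs_le.1 (h x)).2

theorem E_shift {G : Type} [Finite G] [AddGroup G] (f : G → ℝ) (a : G) :
    E (fun x => f (x + a)) = E f := DH.E_equiv (Equiv.addRight a) f

theorem E_shift' {G : Type} [Finite G] [AddGroup G] (f : G → ℝ) (a : G) :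
    E (fun x => f (a + x)) = E f := DH.E_equiv (Equiv.addLeft a) f

section
variable {τ : Type} [Fintype τ] [DecidableEq τ] {N : ℕ} [NeZero N]

/-- the linear form on the cyclic group -/
def fm (ψ : τ → ℤ) (x : τ → ZMod N) : ZMod N := ∑ t, (ψ t : ZMod N) * x t

omit [DecidableEq τ] [NeZero N] in
theorem fm_add (ψ : τ → ℤ) (x y : τ → ZMod N) : fm ψ (x + y) = fm ψ x + fm ψ y := by
  simp only [fm, Pi.add_apply, mul_add, sum_add_distrib]

omit [DecidableEq τ] [NeZero N] in
theorem fm_cast (ψ y : τ → ℤ) :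
    fm ψ (fun t => ((y t : ℤ) : ZMod N)) = ((∑ t, ψ t * y t : ℤ) : ZMod N) := by
  simp only [fm, Int.cast_sum, Int.cast_mul]

theorem unif (ψ : τ → ℤ) (h : ∃ t, IsUnit ((ψ t : ℤ) : ZMod N)) (f : ZMod N → ℝ) :
    E (fun x : τ → ZMod N => f (fm ψ x)) = E f := by
  obtain ⟨t, u, hu⟩ := h
  have h1 : ∀ s : ZMod N, E (fun x : τ → ZMod N => f (fm ψ x + s)) =
      E (fun x : τ → ZMod N => f (fm ψ x)) := by
    intro s
    rw [← E_shift (fun x : τ → ZMod N => f (fm ψ x)) (Pi.single t ((u⁻¹ : (ZMod N)ˣ) * s))]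
    congr 1
    funext x
    rw [fm_add]
    congr 2
    unfold fm
    rw [sum_eq_single t]
    · rw [Pi.single_eq_same, ← hu, Units.mul_inv_cancel_left]
    · intro b _ hb
      rw [Pi.single_eq_of_ne hb, mul_zero]
    · intro hb
      exact absurd (mem_univ t) hb
  calc E (fun x : τ → ZMod N => f (fm ψ x))
      = E fun s : ZMod N => E fun x : τ → ZMod N => f (fm ψ x + s) := by
        simp only [h1, DH.E_const]
    _ = E fun x : τ → ZMod N => E fun s : ZMod N => f (fm ψ x + s) := DH.E_comm _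
    _ = E f := by simp only [E_shift', DH.E_const]

theorem dens_le (p : ZMod N → Prop) (A : ℕ) (g : ZMod N → ℕ) (hg : Injective g)
    (h : ∀ s, p s → g s < A) : E (fun s => ind (p s)) ≤ (A : ℝ) / N := by
  classical
  rw [DH.E_eq_div, Nat.card_zmod]
  refine div_le_div_of_nonneg_right ?_ (Nat.cast_nonneg _)
  have h1 : ∑ s : ZMod N, ind (p s) = ((univ.filter p).card : ℝ) := by
    rw [card_filter]
    push_cast
    refine sum_congr rfl fun s _ => ?_
    by_cases k : p s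
    · rw [DH.ind_true k, if_pos k]
    · rw [DH.ind_false k, if_neg k]
  rw [h1]
  have h2 : (univ.filter p).card ≤ (range A).card :=
    card_le_card_of_injOn g (fun s hs => by
      simpa using h s (by simpa using hs)) hg.injOn
  rw [card_range] at h2
  exact_mod_cast h2

/-- close to the ends of the interval -/
def Bad (A : ℕ) (s : ZMod N) : Prop := s.val < A ∨ N ≤ s.val + A

theorem bad_le (A : ℕ) : E (fun s : ZMod N => ind (Bad A s)) ≤ 2 * (A : ℝ) / N := by
  have h1 := dens_le (fun s : ZMod N => s.val < A) A ZMod.val (ZMod.val_injective N) fun _ h => h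
  have h2 := dens_le (fun s : ZMod N => N ≤ s.val + A) A (fun s => N - 1 - s.val)
    (fun s s' h => ZMod.val_injective N (by
      have := ZMod.val_lt s
      have := ZMod.val_lt s'
      simp only at h
      omega))
    (fun s h => by
      have := ZMod.val_lt s
      omega)
  have h3 : E (fun s : ZMod N => ind (Bad A s)) ≤
      E fun s : ZMod N => ind (s.val < A) + ind (N ≤ s.val + A) := DH.E_mono fun s => by
    by_cases k : Bad A s
    · rw [DH.ind_true k]
      rcases k with k | k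
      · rw [DH.ind_true k]
        linarith [DH.ind_nonneg (N ≤ s.val + A)]
      · rw [DH.ind_true k]
        linarith [DH.ind_nonneg (s.val < A)]
    · rw [DH.ind_false k]
      linarith [DH.ind_nonneg (N ≤ s.val + A), DH.ind_nonneg (s.val < A)]
  rw [DH.E_add] at h3
  rw [mul_div_assoc]
  linarith

theorem val_shift (A : ℕ) (s : ZMod N) (k : ℤ) (h : ¬Bad A s) (hk : |k| ≤ A) :
    (((s + (k : ZMod N)).val : ℕ) : ℤ) = s.val + k := by
  have h0 : s + (k : ZMod N) = ((s.val + k : ℤ) : ZMod N) := by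
    push_cast
    rw [ZMod.natCast_zmod_val]
  unfold Bad at h
  rw [abs_le] at hk
  rw [h0, ZMod.val_intCast]
  refine Int.emod_eq_of_lt ?_ ?_ <;> omega

omit [DecidableEq τ] in
theorem form_le (ψ : τ → ℤ) (D : ℕ) (y : τ → Fin D) :
    |∑ t, ψ t * ((y t : ℕ) : ℤ)| ≤ ((∑ t, (ψ t).natAbs) * D : ℕ) := by
  refine (abs_sum_le_sum_abs _ _).trans ?_
  push_cast
  rw [sum_mul]
  refine sum_le_sum fun t _ => ?_
  rw [abs_mul, Nat.abs_cast]
  exact mul_le_mul_of_nonneg_left (by exact_mod_cast (y t).2.le) (abs_nonneg _)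

/-- one term -/
theorem one_term {ι : Type} [Fintype ι] (ψ : ι → τ → ℤ)
    (hψ : ∀ j, ∃ t, IsUnit ((ψ j t : ℤ) : ZMod N)) (G : (ι → ℤ) → ℝ)
    (hG : ∀ n, 0 ≤ G n ∧ G n ≤ 1) (D : ℕ) (hD : 0 < D) :
    |E (fun x : τ → ZMod N => G fun j => (fm (ψ j) x).val) -
      E (fun x : τ → ZMod N => box D fun y => G fun j => (fm (ψ j) x).val + ∑ t, ψ j t * y t)| ≤
      2 * (∑ j, ∑ t, (ψ j t).natAbs : ℕ) * D / N := by
  have : Nonempty (τ → Fin D) := ⟨fun _ => ⟨0, hD⟩⟩
  have h1 : E (fun x : τ → ZMod N => G fun j => (fm (ψ j) x).val) =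
      E fun x : τ → ZMod N => E fun y : τ → Fin D =>
        G fun j => (fm (ψ j) (x + fun t => (((y t : ℕ) : ℤ) : ZMod N))).val := by
    rw [DH.E_comm]
    simp only [E_shift (fun x : τ → ZMod N => G fun j => (fm (ψ j) x).val), DH.E_const]
  rw [h1, ← DH.E_sub]
  refine (abs_E_le (g := fun x => ∑ j, ind (Bad ((∑ t, (ψ j t).natAbs) * D) (fm (ψ j) x)))
    fun x => ?_).trans ?_
  · rw [box_E, ← DH.E_sub]
    by_cases k : ∃ j, Bad ((∑ t, (ψ j t).natAbs) * D) (fm (ψ j) x)
    · obtain ⟨j, hj⟩ := k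
      have h2 : (1 : ℝ) ≤ ∑ j, ind (Bad ((∑ t, (ψ j t).natAbs) * D) (fm (ψ j) x)) := by
        rw [← DH.ind_true hj]
        exact single_le_sum (f := fun j => ind (Bad ((∑ t, (ψ j t).natAbs) * D) (fm (ψ j) x)))
          (fun _ _ => DH.ind_nonneg _) (mem_univ j)
      refine (abs_E_le (g := fun _ => 1) fun y => ?_).trans ((DH.E_const _).le.trans h2)
      rw [abs_le]
      constructor <;> linarith [hG fun j => (fm (ψ j) x).val + ∑ t, ψ j t * ((y t : ℕ) : ℤ),
        hG fun j => (fm (ψ j) (x + fun t => (((y t : ℕ) : ℤ) : ZMod N))).val]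
    · refine (abs_E_le (g := fun _ => 0) fun y => ?_).trans
        ((DH.E_const _).le.trans (sum_nonneg fun _ _ => DH.ind_nonneg _))
      rw [abs_nonpos_iff, sub_eq_zero]
      congr 1
      funext j
      rw [fm_add, fm_cast]
      exact val_shift _ _ _ (fun h => k ⟨j, h⟩) (form_le (ψ j) D y)
  · rw [DH.E_sum]
    refine (sum_le_sum fun j _ => (unif (ψ j) (hψ j) fun s =>
      ind (Bad ((∑ t, (ψ j t).natAbs) * D) s)).le.trans (bad_le _)).trans (le_of_eq ?_)
    push_cast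
    rw [← sum_div, mul_sum, sum_mul]
    congr 1
    exact sum_congr rfl fun j _ => by ring

end

/-- the sets of primes with small product -/
def TT (S : Finset ℕ) (L : ℝ) : Finset (Finset ℕ) :=
  S.powerset.filter fun T => ((∏ p ∈ T, p : ℕ) : ℝ) ≤ Real.exp L

/-- the coefficient -/
def cf (K : Ker) (L : ℝ) (T : Finset ℕ) : ℝ :=
  (-1) ^ T.card * K.χ (Real.log (∏ p ∈ T, (p : ℝ)) / L)

theorem lam_eq (K : Ker) (S : Finset ℕ) {L : ℝ} (hL : 0 < L) (n : ℤ) :
    lam K S L n = ∑ T ∈ TT S L, cf K L T * ind (∀ p ∈ T, (p : ℤ) ∣ n) := by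
  unfold lam TT
  rw [sum_filter]
  refine sum_congr rfl fun T _ => ?_
  split_ifs with h
  · rfl
  · rw [K.supp, mul_zero, zero_mul]
    rw [le_div_iff₀ hL, one_mul]
    push_cast at h
    exact (Real.le_log_iff_exp_le ((Real.exp_pos L).trans (not_le.1 h))).2 (not_le.1 h).le

theorem cf_le (K : Ker) {L : ℝ} (hL : 0 < L) (T : Finset ℕ) : |cf K L T| ≤ 1 := by
  unfold cf
  rw [abs_mul, abs_pow, abs_neg, abs_one, one_pow, one_mul]
  refine K.bd _ (div_nonneg ?_ hL.le)
  rw [← Nat.cast_prod]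
  exact Real.log_natCast_nonneg _

theorem card_TT {S : Finset ℕ} (hS : ∀ p ∈ S, p.Prime) (L : ℝ) :
    ((TT S L).card : ℝ) ≤ Real.exp L := by
  have h1 : (TT S L).card ≤ (Icc 1 ⌊Real.exp L⌋₊).card := by
    refine card_le_card_of_injOn (fun T => ∏ p ∈ T, p) (fun T hT => ?_) fun T hT T' hT' h => ?_
    · have hT := mem_filter.1 (mem_coe.1 hT)
      refine mem_coe.2 (mem_Icc.2 ⟨?_, Nat.le_floor hT.2⟩)
      exact prod_pos fun p hp => (hS p (mem_powerset.1 hT.1 hp)).pos
    · have hT := mem_filter.1 (mem_coe.1 hT)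
      have hT' := mem_filter.1 (mem_coe.1 hT')
      rw [← Nat.primeFactors_prod fun p hp => hS p (mem_powerset.1 hT.1 hp),
        ← Nat.primeFactors_prod fun p hp => hS p (mem_powerset.1 hT'.1 hp)]
      exact congrArg _ h
  rw [Nat.card_Icc, Nat.add_sub_cancel] at h1
  exact (Nat.cast_le.2 h1).trans (Nat.floor_le (Real.exp_pos L).le)

/-- the divisibility condition of one term -/
def dv {ι : Type} [Fintype ι] (T : ι → Finset ℕ × Finset ℕ) (n : ι → ℤ) : ℝ :=
  ∏ j, ind (∀ p ∈ (T j).1, (p : ℤ) ∣ n j) * ind (∀ p ∈ (T j).2, (p : ℤ) ∣ n j)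

theorem dv_mem {ι : Type} [Fintype ι] (T : ι → Finset ℕ × Finset ℕ) (n : ι → ℤ) :
    0 ≤ dv T n ∧ dv T n ≤ 1 :=
  ⟨prod_nonneg fun _ _ => mul_nonneg (DH.ind_nonneg _) (DH.ind_nonneg _),
    prod_le_one (fun _ _ => mul_nonneg (DH.ind_nonneg _) (DH.ind_nonneg _)) fun _ _ =>
      mul_le_one₀ (DH.ind_le_one _) (DH.ind_nonneg _) (DH.ind_le_one _)⟩

theorem prod_eq {ι : Type} [Fintype ι] [DecidableEq ι] (K : Ker) (S : Finset ℕ) {L : ℝ}
    (hL : 0 < L) (n : ι → ℤ) : ∏ j, lam K S L (n j) ^ 2 =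
      ∑ T ∈ Fintype.piFinset fun _ : ι => TT S L ×ˢ TT S L,
        (∏ j, cf K L (T j).1 * cf K L (T j).2) * dv T n := by
  have h : ∀ j, lam K S L (n j) ^ 2 = ∑ T ∈ TT S L ×ˢ TT S L, (cf K L T.1 * cf K L T.2) *
      (ind (∀ p ∈ T.1, (p : ℤ) ∣ n j) * ind (∀ p ∈ T.2, (p : ℤ) ∣ n j)) := by
    intro j
    rw [lam_eq K S hL, sq, sum_mul_sum, sum_product]
    exact sum_congr rfl fun _ _ => sum_congr rfl fun _ _ => by ring
  simp only [h]
  rw [prod_univ_sum]
  exact sum_congr rfl fun T _ => by rw [prod_mul_distrib, dv]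

theorem per_dv {ι τ : Type} [Fintype ι] [Fintype τ] (T : ι → Finset ℕ × Finset ℕ)
    (ψ : ι → τ → ℤ) (b : ι → ℤ) (D : ℕ) (h1 : ∀ j, ∀ p ∈ (T j).1, p ∣ D)
    (h2 : ∀ j, ∀ p ∈ (T j).2, p ∣ D) : Per D fun y => dv T fun j => aff (ψ j) (b j) y := by
  intro y y' h
  have h3 : ∀ j (p : ℕ), p ∣ D → ((p : ℤ) ∣ aff (ψ j) (b j) y ↔ (p : ℤ) ∣ aff (ψ j) (b j) y') := by
    intro j p hp
    have h4 : (p : ℤ) ∣ aff (ψ j) (b j) y - aff (ψ j) (b j) y' := by
      unfold aff
      rw [add_sub_add_right_eq_sub, ← sum_sub_distrib]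
      refine dvd_sum fun t _ => ?_
      rw [← mul_sub]
      exact ((Int.natCast_dvd_natCast.2 hp).trans (h t)).mul_left _
    exact dvd_iff_dvd_of_dvd_sub h4
  unfold dv
  refine prod_congr rfl fun j _ => ?_
  rw [propext (forall₂_congr fun p hp => h3 j p (h1 j p hp)),
    propext (forall₂_congr fun p hp => h3 j p (h2 j p hp))]

end Wrap

open Wrap in
theorem wrap : PerStmt → WrapStmt := by
  intro per K ι τ _ _ _ ψ
  classical
  refine ⟨2 * (∑ j, ∑ t, (ψ j t).natAbs : ℕ), ?_⟩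
  intro S L N _ W b hS hL hψ
  have hP : 0 < ∏ p ∈ S, p := prod_pos fun p hp => (hS p hp).pos
  have hE : Real.exp (2 * Fintype.card ι * L) = (Real.exp L * Real.exp L) ^ Fintype.card ι := by
    rw [← Real.exp_add, ← Real.exp_nat_mul]
    congr 1
    ring
  unfold mdl
  simp only [prod_eq K S hL, box_E, DH.E_sum, DH.E_mul_left]
  rw [← sum_sub_distrib]
  refine (abs_sum_le_sum_abs _ _).trans ((sum_le_card_nsmul _ _
    (2 * (∑ j, ∑ t, (ψ j t).natAbs : ℕ) * Real.exp (2 * Fintype.card ι * L) / N) ?_).trans ?_)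
  · intro T hT
    have hT : ∀ j, (T j).1 ∈ TT S L ∧ (T j).2 ∈ TT S L := fun j =>
      mem_product.1 (Fintype.mem_piFinset.1 hT j)
    have s1 : ∀ j, (T j).1 ⊆ S := fun j => mem_powerset.1 (mem_filter.1 (hT j).1).1
    have s2 : ∀ j, (T j).2 ⊆ S := fun j => mem_powerset.1 (mem_filter.1 (hT j).2).1
    obtain ⟨D, hD⟩ : ∃ D : ℕ, D = ∏ j, (∏ p ∈ (T j).1, p) * ∏ p ∈ (T j).2, p := ⟨_, rfl⟩
    have hD0 : 0 < D := hD ▸ prod_pos fun j _ => mul_pos
      (prod_pos fun p hp => (hS p (s1 j hp)).pos) (prod_pos fun p hp => (hS p (s2 j hp)).pos)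
    have hD1 : (D : ℝ) ≤ Real.exp (2 * Fintype.card ι * L) := by
      rw [hD, hE, Nat.cast_prod, ← card_univ, ← prod_const]
      refine prod_le_prod (fun _ _ => Nat.cast_nonneg _) fun j _ => ?_
      rw [Nat.cast_mul]
      exact mul_le_mul (mem_filter.1 (hT j).1).2 (mem_filter.1 (hT j).2).2 (Nat.cast_nonneg _)
        (Real.exp_pos L).le
    have d1 : ∀ j, ∀ p ∈ (T j).1, p ∣ D := fun j p hp => hD ▸
      ((dvd_prod_of_mem _ hp).mul_right _).trans
        (dvd_prod_of_mem (fun j => (∏ p ∈ (T j).1, p) * ∏ p ∈ (T j).2, p) (mem_univ j))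
    have d2 : ∀ j, ∀ p ∈ (T j).2, p ∣ D := fun j p hp => hD ▸
      ((dvd_prod_of_mem _ hp).mul_left _).trans
        (dvd_prod_of_mem (fun j => (∏ p ∈ (T j).1, p) * ∏ p ∈ (T j).2, p) (mem_univ j))
    have key : ∀ c : ι → ℤ, box (∏ p ∈ S, p) (fun y => dv T fun j =>
        aff (fun t => W * ψ j t) (W * c j + b) y) =
        box D fun y => dv T fun j => W * (c j + ∑ t, ψ j t * y t) + b := by
      intro c
      rw [← per τ ℝ _ (D * ∏ p ∈ S, p) _ (mul_pos hD0 hP) (dvd_mul_left _ _)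
        (per_dv T _ _ _ (fun j p hp => dvd_prod_of_mem _ (s1 j hp))
          fun j p hp => dvd_prod_of_mem _ (s2 j hp)),
        per τ ℝ D _ _ (mul_pos hD0 hP) (dvd_mul_right _ _) (per_dv T _ _ _ d1 d2)]
      congr 1
      funext y
      congr 1
      funext j
      unfold aff
      simp only [mul_add, mul_sum, mul_assoc]
      ring
    have h1 := one_term ψ hψ (fun n => dv T fun j => W * n j + b) (fun n => dv_mem T _) D hD0
    simp only [← key, box_E] at h1
    rw [← mul_sub, abs_mul]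
    have h2 : |∏ j, cf K L (T j).1 * cf K L (T j).2| ≤ 1 := by
      rw [abs_prod]
      refine prod_le_one (fun _ _ => abs_nonneg _) fun j _ => ?_
      rw [abs_mul]
      exact mul_le_one₀ (cf_le K hL _) (abs_nonneg _) (cf_le K hL _)
    refine (mul_le_of_le_one_left (abs_nonneg _) h2).trans (h1.trans ?_)
    gcongr
  · rw [nsmul_eq_mul, Fintype.card_piFinset, prod_const, card_univ, card_product]
    have h3 : ((((TT S L).card * (TT S L).card) ^ Fintype.card ι : ℕ) : ℝ) ≤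
        Real.exp (2 * Fintype.card ι * L) := by
      rw [hE]
      push_cast
      have := card_TT hS L
      gcongr
    refine (mul_le_mul_of_nonneg_right h3 (by positivity)).trans (le_of_eq ?_)
    have h4 : Real.exp (4 * Fintype.card ι * L) =
        Real.exp (2 * Fintype.card ι * L) * Real.exp (2 * Fintype.card ι * L) := by
      rw [← Real.exp_add]
      congr 1
      ring
    rw [h4]
    ring

end Pool.Agent.MP_a43263_nt.GT
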